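import Pool.Agent.W_7d29a1_NV24.HRe24
import Pool.Agent.W_7d29a1_NV.IncP92

/-!
Spatial roughness: the increments of one even unit step are bounded in mean.
-/

set_option autoImplicit false

namespace Pool.Agent.W_7d29a1_NV24

open MeasureTheory ProbabilityTheory Filter Topology Pool.Agent.W_MP_7d29a1_pr
  Pool.Agent.W_7d29a1_h46 Pool.Agent.W_7d29a1_h46u Pool.Agent.W_7d29a1_D2.B35
  Pool.Agent.W_7d29a1_Q29 Pool.Agent.W_7d29a1_NV

variable {d : ℕ} {ρ : Measure ℝ} [IsProbabilityMeasure ρ]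

omit [IsProbabilityMeasure ρ] in
lemma logw_int24 (hρ : EM ρ) [IsProbabilityMeasure ρ] (β : ℝ) (h : Vec d) {r : ℕ}
    (q : Fin r → Step d) : Integrable (fun η : Env d => Real.log (wgt β h η q)) (law d ρ) := by
  have h1 := (cost92 hρ β h q).1
  refine Integrable.mono' h1 (measurable_logw β h q).aestronglyMeasurable
    (Eventually.of_forall fun η => le_of_eq (Real.norm_eq_abs _))

/-- The mean of the distance of the free energy to the free energy after one step. -/
lemma step24 (hd : 0 < d) (hρ : EM ρ) (β : ℝ) (h : Vec d) : ∃ C : ℝ, 0 ≤ C ∧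
    ∀ (n : ℕ) (e : Step d), ∫ η, |X β h η (n + 1) - X β h (sh 1 (vec e) η) n| ∂(law d ρ) ≤ C := by
  obtain ⟨C2, hC2⟩ : ∃ C2 : ℝ, C2 = 2 * Real.log (Phi h) ^ 2 +
        2 * ((∫ r, Real.exp (β * r) ∂ρ) + ∫ r, Real.exp (-β * r) ∂ρ) := ⟨_, rfl⟩
  have hCp := Cp_nonneg (ρ := ρ) β h
  refine ⟨Real.sqrt C2 + 2 * Cp ρ β h, by positivity, fun n e => ?_⟩
  obtain ⟨q, hq⟩ : ∃ q : Fin 1 → Step d, q = fun _ => e := ⟨_, rfl⟩
  have hpos : pos q 1 = vec e := by
    rw [hq]
    unfold pos
    simp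
  obtain ⟨hc1, hc2⟩ := cost92 hρ β h q
  have hl := logw_int24 hρ β h q
  have hi1 := intX24 hd hρ β h (n + 1)
  have hi0 := intX24 hd hρ β h n
  have his : Integrable (fun η : Env d => X β h (sh 1 (vec e) η) n) (law d ρ) :=
    (memSh24 hd hρ β h n 1 (vec e)).integrable one_le_two
  have hsq := Inc27.steps27 (ρ := ρ) hd hρ β h n 1
  rw [← hC2] at hsq
  have hA : A ρ β h (n + 1) - A ρ β h n ≤ Real.sqrt C2 := by
    have h1 : A ρ β h (n + 1) - A ρ β h n =
        ∫ η, (X β h η (n + 1) - X β h η n) ∂(law d ρ) := (integral_sub hi1 hi0).symm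
    have hm := (memX24 (ρ := ρ) hd hρ β h (n + 1)).sub (memX24 hd hρ β h n)
    have h2 := I34.abs_le_sqrt (hi1.sub hi0) hm.integrable_sq
    rw [h1]
    refine (le_abs_self _).trans (abs_integral_le_integral_abs.trans (h2.trans ?_))
    refine Real.sqrt_le_sqrt (hsq.trans (le_of_eq ?_))
    simp
  -- the excess is nonnegative
  have hnn : ∀ η : Env d, 0 ≤ X β h η (n + 1) - X β h (sh 1 (vec e) η) n -
      Real.log (wgt β h η q) := by
    intro η
    have h1 := I34.one_walk hd β h η q n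
    rw [hpos, add_comm 1 n] at h1
    linarith
  have hsh : ∫ η, X β h (sh 1 (vec e) η) n ∂(law d ρ) = A ρ β h n :=
    integral_sh (ρ := ρ) 1 (vec e) (measurable_X β h n)
  have hJ : Integrable (fun η : Env d => X β h η (n + 1) - X β h (sh 1 (vec e) η) n -
      Real.log (wgt β h η q)) (law d ρ) := (hi1.sub his).sub hl
  have hv : ∫ η, (X β h η (n + 1) - X β h (sh 1 (vec e) η) n - Real.log (wgt β h η q))
      ∂(law d ρ) = A ρ β h (n + 1) - A ρ β h n - ∫ η, Real.log (wgt β h η q) ∂(law d ρ) := by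
    have h1 : Integrable (fun η : Env d => X β h η (n + 1) - X β h (sh 1 (vec e) η) n)
      (law d ρ) := hi1.sub his
    rw [integral_sub h1 hl, integral_sub hi1 his, hsh]
    rfl
  have hlv : -∫ η, Real.log (wgt β h η q) ∂(law d ρ) ≤ Cp ρ β h := by
    have h1 : |∫ η, Real.log (wgt β h η q) ∂(law d ρ)| ≤ Cp ρ β h := by
      refine abs_integral_le_integral_abs.trans (hc2.trans (le_of_eq ?_))
      simp
    exact (neg_le_abs _).trans h1
  have h3 := integral_mono (μ := law d ρ) (hi1.sub his).abs (hJ.add hc1) fun η => by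
    show |X β h η (n + 1) - X β h (sh 1 (vec e) η) n| ≤
      (X β h η (n + 1) - X β h (sh 1 (vec e) η) n - Real.log (wgt β h η q)) +
        |Real.log (wgt β h η q)|
    have h4 := hnn η
    have h5 : X β h η (n + 1) - X β h (sh 1 (vec e) η) n =
      (X β h η (n + 1) - X β h (sh 1 (vec e) η) n - Real.log (wgt β h η q)) +
        Real.log (wgt β h η q) := by ring
    have h6 := abs_add_le (X β h η (n + 1) - X β h (sh 1 (vec e) η) n -
      Real.log (wgt β h η q)) (Real.log (wgt β h η q))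
    rw [abs_of_nonneg h4, ← h5] at h6
    exact h6
  have h7 : ∫ η, ((fun η : Env d => X β h η (n + 1) - X β h (sh 1 (vec e) η) n -
      Real.log (wgt β h η q)) + fun η : Env d => |Real.log (wgt β h η q)|) η ∂(law d ρ) =
      (A ρ β h (n + 1) - A ρ β h n - ∫ η, Real.log (wgt β h η q) ∂(law d ρ)) +
        ∫ η, |Real.log (wgt β h η q)| ∂(law d ρ) := by
    rw [← hv]
    exact integral_add hJ hc1
  have h8 : ∫ η, |X β h η (n + 1) - X β h (sh 1 (vec e) η) n| ∂(law d ρ) ≤
      (A ρ β h (n + 1) - A ρ β h n - ∫ η, Real.log (wgt β h η q) ∂(law d ρ)) +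
        ∫ η, |Real.log (wgt β h η q)| ∂(law d ρ) := h3.trans (le_of_eq h7)
  have h9 : ∫ η, |Real.log (wgt β h η q)| ∂(law d ρ) ≤ Cp ρ β h :=
    hc2.trans (le_of_eq (by simp))
  linarith

/-- (A) The increments of one even unit step are bounded in mean. -/
theorem spstep24 (hd : 0 < d) (hρ : EM ρ) (β : ℝ) (h : Vec d) : ∃ C : ℝ, 0 ≤ C ∧
    ∀ (n : ℕ) (e e' : Step d), sp24 ρ β h n (vec e - vec e') ≤ C := by
  obtain ⟨C, hC, H⟩ := step24 (ρ := ρ) hd hρ β h
  refine ⟨2 * C, by positivity, fun n e e' => ?_⟩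
  have hs : ∀ e : Step d, Integrable (fun η : Env d =>
      X β h η (n + 1) - X β h (sh 1 (vec e) η) n) (law d ρ) := fun e =>
    (intX24 hd hρ β h (n + 1)).sub ((memSh24 hd hρ β h n 1 (vec e)).integrable one_le_two)
  have m1 : Measurable fun η : Env d => |X β h (sh 0 (vec e - vec e') η) n - X β h η n| :=
    measurable_norm.comp (((measurable_X β h n).comp (measurable_sh 0 _)).sub
      (measurable_X β h n))
  have e1 : ∀ η : Env d, sh 0 (vec e - vec e') (sh 1 (vec e') η) = sh 1 (vec e) η := by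
    intro η
    funext p
    unfold sh
    simp only [add_zero]
    congr 2
    abel
  have h1 := integral_sh (ρ := ρ) 1 (vec e') m1
  simp only [e1] at h1
  unfold sp24
  rw [← h1]
  have h2 := integral_mono (μ := law d ρ) ((hs e').sub (hs e)).abs
    ((hs e').abs.add (hs e).abs) fun η => abs_sub _ _
  have h3 : ∫ η, |X β h (sh 1 (vec e) η) n - X β h (sh 1 (vec e') η) n| ∂(law d ρ) =
      ∫ η, |((fun η : Env d => X β h η (n + 1) - X β h (sh 1 (vec e') η) n) -
        fun η : Env d => X β h η (n + 1) - X β h (sh 1 (vec e) η) n) η| ∂(law d ρ) := by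
    refine integral_congr_ae (Eventually.of_forall fun η => ?_)
    have h5 : X β h (sh 1 (vec e) η) n - X β h (sh 1 (vec e') η) n =
        (X β h η (n + 1) - X β h (sh 1 (vec e') η) n) -
          (X β h η (n + 1) - X β h (sh 1 (vec e) η) n) := by ring
    exact congrArg abs h5
  rw [h3]
  refine h2.trans ?_
  have h4 : ∫ η, ((fun η : Env d => |X β h η (n + 1) - X β h (sh 1 (vec e') η) n|) +
      fun η : Env d => |X β h η (n + 1) - X β h (sh 1 (vec e) η) n|) η ∂(law d ρ) =
      (∫ η, |X β h η (n + 1) - X β h (sh 1 (vec e') η) n| ∂(law d ρ)) +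
        ∫ η, |X β h η (n + 1) - X β h (sh 1 (vec e) η) n| ∂(law d ρ) :=
    integral_add (hs e').abs (hs e).abs
  refine (le_of_eq h4).trans ?_
  linarith [H n e, H n e']

end Pool.Agent.W_7d29a1_NV24
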