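import Pool.Agent.W_7d29a1_NV24.SR24
import Pool.Agent.W_7d29a1_NV.Eq41c
import Pool.Agent.W_7d29a1_NV.MarT53
import Pool.Agent.W_7d29a1_NV.KapT77
import Pool.Agent.W_7d29a1_NV.Mix96
import Pool.Agent.W_7d29a1_NV.OneP72
import Pool.Agent.W_7d29a1_NV.Mon31
import Pool.Agent.W_7d29a1_NV.VarL42
import Pool.Agent.W_7d29a1_NV.OneEnd52
import Pool.Agent.W_7d29a1_NV.Two6
import Pool.Agent.W_7d29a1_NV.BigB21

/-!
Spatial roughness: in every dimension, at every tilt of very strong disorder, the mean of the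
modulus of the spatial increment of the free energy over a box is unbounded, uniformly in the
length.
-/

namespace Pool.Agent.W_7d29a1_NV24

open MeasureTheory ProbabilityTheory Filter Topology Pool.Agent.W_MP_7d29a1_pr
  Pool.Agent.W_7d29a1_h46 Pool.Agent.W_7d29a1_h46u Pool.Agent.W_7d29a1_D2.B35
  Pool.Agent.W_7d29a1_Q29 Pool.Agent.W_7d29a1_NV

variable {d : ℕ} {ρ : Measure ℝ} [IsProbabilityMeasure ρ]

/-- **Theorem SR.** In every dimension, for every law, at every tilt of very strong disorder: for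
every `K` there are `R` and `n₀` such that for every `n ≥ n₀` some `y` of the box of radius `R`
has `E |log Z_n (y) - log Z_n (0)| > K`. -/
theorem srAll24 (hd : 0 < d) (hρ : EM ρ) (hnc : ∀ c : ℝ, ρ {c} ≠ 1) {β : ℝ} (hβ : 0 < β)
    (h : Vec d) (hV : VSD ρ β h) (K : ℝ) :
    ∃ R n₀ : ℕ, ∀ n : ℕ, n₀ ≤ n → ∃ y ∈ boxF d R, K < sp24 ρ β h n y := by
  obtain ⟨b, hb⟩ := (eventually_HB21 hnc).exists
  have hE := Eq41.eqT41 (ρ := ρ) hd hβ hb
  have hK := kapTm77 (ρ := ρ) hd hb hE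
  have hO := O72.onep72 hb oneT hE (M53.marT53 d) hK
  have hT := twoR24 hd hρ hb oneT twoT6 hE hK (mix96 hb)
  have hC := coreT24 hb hO hT (monT31 hd ρ hb) (varL42 hd hρ hβ.ne' hb)
  exact sr24 hd hρ hb (mix96 hb) hC (mul24 hd hρ β) h hV K

end Pool.Agent.W_7d29a1_NV24
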