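import Pool.Agent.W_7d29a1_NV24.All24
import Pool.Agent.W_7d29a1_Q29.Tr29

/-!
Spatial roughness: one third of all points of every large box, and the transfer to an arbitrary
probability space.
-/

set_option autoImplicit false

namespace Pool.Agent.W_7d29a1_NV24

open MeasureTheory ProbabilityTheory Filter Topology Pool.Agent.W_MP_7d29a1_pr
  Pool.Agent.W_7d29a1_h46 Pool.Agent.W_7d29a1_h46u Pool.Agent.W_7d29a1_D2.B35
  Pool.Agent.W_7d29a1_Q29 Pool.Agent.W_7d29a1_NV

variable {d : ℕ} {ρ : Measure ℝ} [IsProbabilityMeasure ρ]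

/-- The triangle inequality for the mean spatial increments. -/
lemma sp_tri24 (hd : 0 < d) (hρ : EM ρ) (β : ℝ) (h : Vec d) (n : ℕ) (y z : Site d) :
    sp24 ρ β h n y ≤ sp24 ρ β h n z + sp24 ρ β h n (y - z) := by
  have hi : Integrable (fun η : Env d => X β h η n) (law d ρ) := intX24 hd hρ β h n
  have hs : ∀ k, Integrable (fun η : Env d => X β h (sh 0 k η) n) (law d ρ) := fun k =>
    (memSh24 hd hρ β h n 0 k).integrable one_le_two
  have e1 : ∀ η : Env d, sh 0 (y - z) (sh 0 z η) = sh 0 y η := by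
    intro η
    funext p
    unfold sh
    simp only [add_zero]
    congr 1
    rw [add_assoc, sub_add_cancel]
  have m1 : Measurable fun η : Env d => |X β h (sh 0 (y - z) η) n - X β h η n| :=
    measurable_norm.comp (((measurable_X β h n).comp (measurable_sh 0 (y - z))).sub
      (measurable_X β h n))
  have h1 : ∫ η, |X β h (sh 0 y η) n - X β h (sh 0 z η) n| ∂(law d ρ) = sp24 ρ β h n (y - z) := by
    have := integral_sh (ρ := ρ) 0 z m1
    simp only [e1] at this
    exact this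
  rw [← h1]
  have i1 : Integrable (fun η : Env d => |X β h (sh 0 z η) n - X β h η n|) (law d ρ) :=
    ((hs z).sub hi).abs
  have i2 : Integrable (fun η : Env d => |X β h (sh 0 y η) n - X β h (sh 0 z η) n|) (law d ρ) :=
    ((hs y).sub (hs z)).abs
  have i3 : Integrable (fun η : Env d => |X β h (sh 0 y η) n - X β h η n|) (law d ρ) :=
    ((hs y).sub hi).abs
  unfold sp24
  rw [← integral_add i1 i2]
  refine integral_mono i3 (i1.add i2) fun η => ?_
  have := abs_add_le (X β h (sh 0 z η) n - X β h η n)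
    (X β h (sh 0 y η) n - X β h (sh 0 z η) n)
  simp only
  refine le_trans (le_of_eq ?_) this
  congr 1
  ring

lemma box_big24 (d r : ℕ) : ∃ R₀ : ℕ, ∀ R, R₀ ≤ R →
    2 * (2 * R + 1) ^ d ≤ 3 * (2 * (R - r) + 1) ^ d ∧ r ≤ R := by
  refine ⟨3 * d * r + r, fun R hR => ?_⟩
  have hr : r ≤ R := by nlinarith [Nat.zero_le (3 * d * r)]
  refine ⟨?_, hr⟩
  have h0 : (0 : ℝ) < 2 * R + 1 := by positivity
  have h1 : ((2 * (R - r) + 1 : ℕ) : ℝ) = (2 * R + 1) * (1 + -(2 * r / (2 * R + 1))) := by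
    push_cast [Nat.cast_sub hr]
    field_simp
    ring
  have hRr : (3 * d * r + r : ℝ) ≤ R := by exact_mod_cast hR
  have h2 : (2 * r / (2 * R + 1) : ℝ) ≤ 1 := by
    rw [div_le_one h0]
    have : (r : ℝ) ≤ R := by exact_mod_cast hr
    linarith
  have h3 := one_add_mul_le_pow (a := -(2 * r / (2 * R + 1) : ℝ)) (by linarith) d
  have h4 : (d : ℝ) * (2 * r / (2 * R + 1)) ≤ 1 / 3 := by
    rw [← mul_div_assoc, div_le_iff₀ h0]
    have hr0 : (0 : ℝ) ≤ r := Nat.cast_nonneg r
    nlinarith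
  have h5 : (2 * (2 * R + 1) ^ d : ℝ) ≤ 3 * ((2 * (R - r) + 1 : ℕ) : ℝ) ^ d := by
    rw [h1, mul_pow]
    have h6 : (2 / 3 : ℝ) ≤ (1 + -(2 * r / (2 * R + 1))) ^ d := by
      refine le_trans ?_ h3
      linarith
    have h7 : (0 : ℝ) ≤ (2 * R + 1) ^ d := by positivity
    nlinarith
  exact_mod_cast h5

open Classical in
/-- One third of the points of every large box are rough. -/
theorem srCnt24 (hd : 0 < d) (hρ : EM ρ) (hnc : ∀ c : ℝ, ρ {c} ≠ 1) {β : ℝ} (hβ : 0 < β)
    (h : Vec d) (hV : VSD ρ β h) (K : ℝ) :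
    ∃ R₀ n₀ : ℕ, ∀ R n : ℕ, R₀ ≤ R → n₀ ≤ n →
      (2 * R + 1) ^ d ≤ 3 * ((boxF d R).filter fun y => K < sp24 ρ β h n y).card := by
  obtain ⟨r, n₀, H⟩ := srAll24 hd hρ hnc hβ h hV (2 * K)
  obtain ⟨R₀, hR₀⟩ := box_big24 d r
  refine ⟨R₀, n₀, fun R n hR hn => ?_⟩
  obtain ⟨y, hy, hK⟩ := H n hn
  obtain ⟨h1, h2⟩ := hR₀ R hR
  set G := (boxF d R).filter fun y => K < sp24 ρ β h n y with hG
  have hsub : boxF d (R - r) ⊆ G ∪ G.image (fun z => y - z) := by
    intro z hz
    rw [mem_boxF] at hz hy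
    have hz1 : z ∈ boxF d R := by
      rw [mem_boxF]
      intro i
      refine (hz i).trans ?_
      exact_mod_cast Nat.sub_le R r
    have hz2 : y - z ∈ boxF d R := by
      rw [mem_boxF]
      intro i
      have h3 := abs_sub (y i) (z i)
      have h4 := hz i
      have h5 := hy i
      rw [Pi.sub_apply]
      have h6 : ((R - r : ℕ) : ℤ) = (R : ℤ) - r := by
        rw [Nat.cast_sub h2]
      rw [h6] at h4
      linarith
    have h7 := sp_tri24 hd hρ β h n y z
    rw [Finset.mem_union]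
    by_cases h8 : K < sp24 ρ β h n z
    · exact Or.inl (Finset.mem_filter.2 ⟨hz1, h8⟩)
    · refine Or.inr (Finset.mem_image.2 ⟨y - z, Finset.mem_filter.2 ⟨hz2, ?_⟩, ?_⟩)
      · push Not at h8
        linarith
      · simp
  have h3 := Finset.card_le_card hsub
  have h4 := Finset.card_union_le G (G.image (fun z => y - z))
  have h5 := Finset.card_image_le (s := G) (f := fun z => y - z)
  rw [card_boxF] at h3
  omega

open Classical in
/-- **Theorem SR**, on an arbitrary probability space. -/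
theorem srTr24 {Ω : Type*} [MeasurableSpace Ω] {μ : Measure Ω} [IsProbabilityMeasure μ]
    {ω : ℕ × Site d → Ω → ℝ} (hd : 0 < d) (hω : IID μ ρ ω) (hρ : EM ρ)
    (hnc : ∀ c : ℝ, ρ {c} ≠ 1) {β : ℝ} (hβ : 0 < β) (h : Vec d) (hV : VSD ρ β h) (K : ℝ) :
    ∃ R₀ n₀ : ℕ, ∀ R n : ℕ, R₀ ≤ R → n₀ ≤ n →
      (2 * R + 1) ^ d ≤ 3 * {y : Site d | (∀ i, |y i| ≤ R) ∧
        K < ∫ x, |Real.log (Zn β h (fun p => ω (p.1, p.2 + y) x) n) -
          Real.log (Zn β h (fun p => ω p x) n)| ∂μ}.ncard := by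
  obtain ⟨R₀, n₀, H⟩ := srCnt24 hd hρ hnc hβ h hV K
  refine ⟨R₀, n₀, fun R n hR hn => ?_⟩
  have key : ∀ y : Site d, ∫ x, |Real.log (Zn β h (fun p => ω (p.1, p.2 + y) x) n) -
      Real.log (Zn β h (fun p => ω p x) n)| ∂μ = sp24 ρ β h n y := by
    intro y
    have m1 : Measurable fun η : Env d => |X β h (sh 0 y η) n - X β h η n| :=
      measurable_norm.comp (((measurable_X β h n).comp (measurable_sh 0 y)).sub
        (measurable_X β h n))
    unfold sp24
    rw [← StrA_int hω m1]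
    refine integral_congr_ae (Filter.Eventually.of_forall fun x => ?_)
    have e1 : (fun p : ℕ × Site d => ω (p.1, p.2 + y) x) = sh 0 y (fun p => ω p x) := rfl
    simp only [e1, StrA_log hd]
    congr 1
    ring
  have e2 : {y : Site d | (∀ i, |y i| ≤ R) ∧
        K < ∫ x, |Real.log (Zn β h (fun p => ω (p.1, p.2 + y) x) n) -
          Real.log (Zn β h (fun p => ω p x) n)| ∂μ} =
      (((boxF d R).filter fun y => K < sp24 ρ β h n y : Finset (Site d)) : Set (Site d)) := by
    ext y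
    simp only [Set.mem_ofPred_eq, Finset.coe_filter, mem_boxF, key]
  rw [e2, Set.ncard_coe_finset]
  exact H R n hR hn

end Pool.Agent.W_7d29a1_NV24
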