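import Pool.Agent.W_7d29a1_NV24.HRe24
import Pool.Agent.W_7d29a1_NV.EndNT66

/-!
Spatial roughness: the odd points.
-/

set_option autoImplicit false

namespace Pool.Agent.W_7d29a1_NV24

open MeasureTheory ProbabilityTheory Filter Topology Pool.Agent.W_MP_7d29a1_pr
  Pool.Agent.W_7d29a1_h46 Pool.Agent.W_7d29a1_h46u Pool.Agent.W_7d29a1_D2.B35
  Pool.Agent.W_7d29a1_Q29 Pool.Agent.W_7d29a1_NV

variable {d : ℕ} {ρ : Measure ℝ}

/-- The sites which the walks from the origin can reach. -/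
def Pr24 (d : ℕ) : Set (ℕ × Site d) := {p | Even ((∑ i, p.2 i) - (p.1 : ℤ))}

/-- The free energy depends on the sites of one parity. -/
lemma X_par24 (β : ℝ) (h : Vec d) (n : ℕ) {η η' : Env d}
    (hη : ∀ p ∈ Pr24 d, η p = η' p) : X β h η n = X β h η' n := by
  unfold X
  rw [Z_eq, Z_eq]
  congr 1
  refine Finset.sum_congr rfl fun s _ => ?_
  have h1 : energy η s = energy η' s := by
    unfold energy
    refine Finset.sum_congr rfl fun i _ => hη _ ?_
    exact pos_par24 s ((i : ℕ) + 1) (by have := i.2; omega)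
  unfold wgt
  rw [h1]

variable [IsProbabilityMeasure ρ]

/-- At an odd point the increment is at least the deviation from the mean. -/
lemma odd24 (hd : 0 < d) (hρ : EM ρ) (β : ℝ) (h : Vec d) (n : ℕ) {y : Site d} (hy : ¬ Ev24 y) :
    ∫ η, |X β h η n - A ρ β h n| ∂(law d ρ) ≤ sp24 ρ β h n y := by
  have hX := intX24 (ρ := ρ) hd hρ β h n
  have hs : Integrable (fun η : Env d => X β h (sh 0 y η) n) (law d ρ) :=
    (memSh24 hd hρ β h n 0 y).integrable one_le_two
  set S := Pr24 d with hS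
  have hF : ∀ η ξ : Env d, X β h (spl S η ξ) n = X β h η n := fun η ξ =>
    X_par24 β h n fun p hp => spl_mem _ _ hp
  have hG : ∀ η ξ : Env d, X β h (sh 0 y (spl S η ξ)) n = X β h (sh 0 y ξ) n := by
    intro η ξ
    refine X_par24 β h n fun p hp => ?_
    unfold sh
    refine spl_not_mem _ _ fun hc => hy ?_
    have h1 : Even ((∑ i, p.2 i) - (p.1 : ℤ)) := hp
    have h2 : Even ((∑ i, (p.2 + y) i) - ((p.1 + 0 : ℕ) : ℤ)) := hc
    simp only [Pi.add_apply, Finset.sum_add_distrib, add_zero] at h2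
    obtain ⟨a, ha⟩ := h1
    obtain ⟨c, hc⟩ := h2
    exact ⟨c - a, by linarith⟩
  have hI : Integrable (fun η : Env d => |X β h (sh 0 y η) n - X β h η n|) (law d ρ) :=
    (hs.sub hX).abs
  have hI2 : Integrable (fun w : Env d × Env d =>
      |X β h (sh 0 y (spl S w.1 w.2)) n - X β h (spl S w.1 w.2) n|)
      ((law d ρ).prod (law d ρ)) := (mp_spl S).integrable_comp_of_integrable hI
  have h1 : sp24 ρ β h n y = ∫ η, ∫ ξ, |X β h (sh 0 y (spl S η ξ)) n - X β h (spl S η ξ) n|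
      ∂(law d ρ) ∂(law d ρ) := by
    unfold sp24
    rw [← LawU_integral (mp_spl (ρ := ρ) S) (F := fun η : Env d =>
      |X β h (sh 0 y η) n - X β h η n|) hI.aestronglyMeasurable]
    exact integral_prod _ hI2
  rw [h1]
  refine integral_mono_of_nonneg (Eventually.of_forall fun _ => abs_nonneg _)
    hI2.integral_prod_left (Eventually.of_forall fun η => ?_)
  have h2 : X β h η n - A ρ β h n = -∫ ξ, (X β h (sh 0 y ξ) n - X β h η n) ∂(law d ρ) := by
    have h3 : ∫ ξ, X β h (sh 0 y ξ) n ∂(law d ρ) = A ρ β h n :=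
      integral_sh (ρ := ρ) 0 y (measurable_X β h n)
    rw [integral_sub hs (integrable_const _), h3, integral_const]
    simp
  simp only [hF, hG]
  rw [h2, abs_neg]
  exact abs_integral_le_integral_abs

/-- (B) The odd points. -/
theorem spodd24 (hd : 0 < d) (hρ : EM ρ) (hnc : ∀ c : ℝ, ρ {c} ≠ 1) {β : ℝ} (hβ : 0 < β)
    (h : Vec d) (hV : VSD ρ β h) (K : ℝ) : ∃ n₀ : ℕ, ∀ n : ℕ, n₀ ≤ n → ∀ y : Site d,
      ¬ Ev24 y → K < sp24 ρ β h n y := by
  have key : ∃ n₀ : ℕ, ∀ n : ℕ, n₀ ≤ n → K < ∫ η, |X β h η n - A ρ β h n| ∂(law d ρ) := by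
    by_contra hcon
    have hfr : ∃ᶠ n : ℕ in atTop, ∫ η, |X β h η n - A ρ β h n| ∂(law d ρ) ≤ K := by
      rw [frequently_atTop]
      intro n₀
      by_contra hc
      refine hcon ⟨n₀, fun n hn => ?_⟩
      by_contra hc2
      exact hc ⟨n, hn, not_lt.1 hc2⟩
    obtain ⟨φ, hφ, hφK⟩ := extraction_of_frequently_atTop hfr
    refine mainNT66 hd hρ hnc hβ h hV ⟨φ, fun j => A ρ β h (φ j), hφ, fun δ hδ => ?_⟩
    refine ⟨(|K| + 1) / δ, fun j => ?_⟩
    have hM : 0 < (|K| + 1) / δ := by positivity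
    have hi : Integrable (fun η : Env d => |X β h η (φ j) - A ρ β h (φ j)|) (law d ρ) :=
      ((intX24 hd hρ β h (φ j)).sub (integrable_const _)).abs
    have h1 := mul_meas_ge_le_integral_of_nonneg (μ := law d ρ)
      (Eventually.of_forall fun η : Env d => abs_nonneg (X β h η (φ j) - A ρ β h (φ j))) hi
      ((|K| + 1) / δ)
    have h2 : (law d ρ).real {η | (|K| + 1) / δ < |X β h η (φ j) - A ρ β h (φ j)|} ≤
        (law d ρ).real {η | (|K| + 1) / δ ≤ |X β h η (φ j) - A ρ β h (φ j)|} := by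
      refine measureReal_mono fun η hη => ?_
      have : (|K| + 1) / δ < |X β h η (φ j) - A ρ β h (φ j)| := hη
      exact this.le
    have h3 := hφK j
    have h4 : (|K| + 1) / δ * (law d ρ).real {η | (|K| + 1) / δ <
        |X β h η (φ j) - A ρ β h (φ j)|} ≤ (|K| + 1) / δ * δ := by
      have h5 : (|K| + 1) / δ * δ = |K| + 1 := by
        field_simp
      rw [h5]
      refine (mul_le_mul_of_nonneg_left h2 hM.le).trans (h1.trans ?_)
      linarith [le_abs_self K]
    exact le_of_mul_le_mul_left h4 hM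
  obtain ⟨n₀, hn₀⟩ := key
  exact ⟨n₀, fun n hn y hy => (hn₀ n hn).trans_le (odd24 hd hρ β h n hy)⟩

end Pool.Agent.W_7d29a1_NV24
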