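import Pool.Agent.W_7d29a1_NV24.Pack24

/-!
Spatial roughness: all but a small fraction of the points.
-/

set_option autoImplicit false

namespace Pool.Agent.W_7d29a1_NV24

open MeasureTheory ProbabilityTheory Filter Topology Pool.Agent.W_MP_7d29a1_pr
  Pool.Agent.W_7d29a1_h46 Pool.Agent.W_7d29a1_h46u Pool.Agent.W_7d29a1_D2.B35
  Pool.Agent.W_7d29a1_Q29 Pool.Agent.W_7d29a1_NV

variable {d : ℕ} {ρ : Measure ℝ} [IsProbabilityMeasure ρ]

lemma sp_zero24 (β : ℝ) (h : Vec d) (n : ℕ) : sp24 ρ β h n 0 = 0 := by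
  unfold sp24
  have h1 : ∀ η : Env d, sh 0 0 η = η := by
    intro η
    funext p
    unfold sh
    simp
  simp [h1]

lemma sp_symm24 (β : ℝ) (h : Vec d) (n : ℕ) (y : Site d) :
    sp24 ρ β h n (-y) = sp24 ρ β h n y := by
  have m1 : Measurable fun η : Env d => |X β h (sh 0 (-y) η) n - X β h η n| :=
    measurable_norm.comp (((measurable_X β h n).comp (measurable_sh 0 (-y))).sub
      (measurable_X β h n))
  have e1 : ∀ η : Env d, sh 0 (-y) (sh 0 y η) = η := by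
    intro η
    funext p
    unfold sh
    simp
  have h1 := integral_sh (ρ := ρ) 0 y m1
  simp only [e1] at h1
  unfold sp24
  rw [← h1]
  refine integral_congr_ae (Eventually.of_forall fun η => abs_sub_comm _ _)

lemma box_bigF24 (d r : ℕ) : ∃ R₀ : ℕ, ∀ R : ℕ, R₀ ≤ R →
    ((2 * (R + r) + 1 : ℕ) : ℝ) ^ d ≤ 2 * ((2 * R + 1 : ℕ) : ℝ) ^ d := by
  obtain ⟨R₀, hR₀⟩ := box_big24 d r
  refine ⟨R₀, fun R hR => ?_⟩
  obtain ⟨h1, h2⟩ := hR₀ (R + r) (by omega)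
  rw [Nat.add_sub_cancel] at h1
  have h3 : (2 * (2 * (R + r) + 1) ^ d : ℝ) ≤ 3 * (2 * R + 1) ^ d := by exact_mod_cast h1
  have h4 : (0 : ℝ) ≤ (2 * (R : ℝ) + 1) ^ d := by positivity
  push_cast
  linarith

open Classical in
/-- All but a small fraction of the points are rough, from the bound for the even unit steps and the
odd points. -/
theorem frac24 (hd : 0 < d) (hρ : EM ρ) (hnc : ∀ c : ℝ, ρ {c} ≠ 1) {β : ℝ} (hβ : 0 < β)
    (h : Vec d) (hV : VSD ρ β h)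
    (hA : ∃ C : ℝ, 0 ≤ C ∧ ∀ (n : ℕ) (e e' : Step d), sp24 ρ β h n (vec e - vec e') ≤ C)
    (hB : ∀ K : ℝ, ∃ n₀ : ℕ, ∀ n : ℕ, n₀ ≤ n → ∀ y : Site d, ¬ Ev24 y → K < sp24 ρ β h n y)
    (K : ℝ) {δ : ℝ} (hδ : 0 < δ) :
    ∃ R₀ n₀ : ℕ, ∀ R n : ℕ, R₀ ≤ R → n₀ ≤ n →
      (1 - δ) * (2 * (R : ℝ) + 1) ^ d ≤
        (((boxF d R).filter fun y => K < sp24 ρ β h n y).card : ℝ) := by
  obtain ⟨C, hC, hstep⟩ := hA
  obtain ⟨K', hK'⟩ : ∃ K' : ℝ, K' = max K 0 := ⟨_, rfl⟩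
  have hK'0 : 0 ≤ K' := by
    rw [hK']
    exact le_max_right _ _
  have hKK' : K ≤ K' := by
    rw [hK']
    exact le_max_left _ _
  obtain ⟨N, hN⟩ := exists_nat_gt (2 / δ)
  obtain ⟨r, n₁, H⟩ := sreAll24 hd hρ hnc hβ h hV (N * (2 * K' + C))
  obtain ⟨n₂, hn₂⟩ := hB K'
  obtain ⟨R₀, hR₀⟩ := box_bigF24 d (d * r)
  refine ⟨R₀, max n₁ n₂, fun R n hR hn => ?_⟩
  obtain ⟨y, hy, hye, hyK⟩ := H n ((le_max_left _ _).trans hn)
  have h1 := few24 (f := sp24 ρ β h n) (fun y z => sp_tri24 hd hρ β h n y z)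
    (fun y => sp_symm24 β h n y) (sp_zero24 β h n) hC hK'0 (fun e e' => hstep n e e')
    (R := R) (box_n1_24 hy) hye hyK
  obtain ⟨B, hBd⟩ : ∃ B : Finset (Site d), B = (boxF d R).filter fun z =>
    Ev24 z ∧ sp24 ρ β h n z ≤ K' := ⟨_, rfl⟩
  rw [← hBd] at h1
  have h2 : (boxF d R).card ≤ ((boxF d R).filter fun y => K < sp24 ρ β h n y).card + B.card := by
    rw [← Finset.card_filter_add_card_filter_not (s := boxF d R) (fun y => K < sp24 ρ β h n y)]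
    refine Nat.add_le_add_left (Finset.card_le_card fun z hz => ?_) _
    rw [Finset.mem_filter, not_lt] at hz
    rw [hBd, Finset.mem_filter]
    refine ⟨hz.1, ?_, hz.2.trans hKK'⟩
    by_contra hc
    have := hn₂ n ((le_max_right _ _).trans hn) z hc
    linarith [hz.2]
  rw [card_boxF] at h2
  have h3 : ((2 * R + 1 : ℕ) : ℝ) ^ d ≤
      (((boxF d R).filter fun y => K < sp24 ρ β h n y).card : ℝ) + B.card := by
    exact_mod_cast h2
  have h4 : ((N : ℝ) + 1) * B.card ≤ ((2 * (R + d * r) + 1 : ℕ) : ℝ) ^ d := by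
    exact_mod_cast h1
  have h5 := h4.trans (hR₀ R hR)
  obtain ⟨V, hVd⟩ : ∃ V : ℝ, V = ((2 * R + 1 : ℕ) : ℝ) ^ d := ⟨_, rfl⟩
  have hV0 : 0 ≤ V := by
    rw [hVd]
    positivity
  rw [← hVd] at h3 h5
  have h6 : (2 * (R : ℝ) + 1) ^ d = V := by
    rw [hVd]
    push_cast
    rfl
  rw [h6]
  have h7 : (2 : ℝ) < N * δ := by
    rw [div_lt_iff₀ hδ] at hN
    exact hN
  have h8 : (B.card : ℝ) ≤ δ * V := by
    have h9 : 0 < (N : ℝ) + 1 := by positivity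
    have h10 : ((N : ℝ) + 1) * B.card ≤ ((N : ℝ) + 1) * (δ * V) := by
      refine h5.trans ?_
      nlinarith [mul_nonneg hδ.le hV0, mul_le_mul_of_nonneg_right h7.le hV0]
    exact le_of_mul_le_mul_left h10 h9
  linarith

end Pool.Agent.W_7d29a1_NV24
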