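import Pool.Agent.W_7d29a1_NV24.Frac24
import Pool.Agent.W_7d29a1_NV24.A24
import Pool.Agent.W_7d29a1_NV24.B24

/-!
Spatial roughness: all but a small fraction of the points, no hypothesis left, and the transfer to
an arbitrary probability space.
-/

set_option autoImplicit false

namespace Pool.Agent.W_7d29a1_NV24

open MeasureTheory ProbabilityTheory Filter Topology Pool.Agent.W_MP_7d29a1_pr
  Pool.Agent.W_7d29a1_h46 Pool.Agent.W_7d29a1_h46u Pool.Agent.W_7d29a1_D2.B35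
  Pool.Agent.W_7d29a1_Q29 Pool.Agent.W_7d29a1_NV

variable {d : ℕ} {ρ : Measure ℝ} [IsProbabilityMeasure ρ]

open Classical in
/-- **Theorem SR.** In every dimension, for every law, at every tilt of very strong disorder: for
every `K` and every `δ > 0`, for all large `R` and `n`, all but a fraction `δ` of the points `y` of
the box of radius `R` have `E |log Z_n (y) - log Z_n (0)| > K`. -/
theorem fracAll24 (hd : 0 < d) (hρ : EM ρ) (hnc : ∀ c : ℝ, ρ {c} ≠ 1) {β : ℝ} (hβ : 0 < β)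
    (h : Vec d) (hV : VSD ρ β h) (K : ℝ) {δ : ℝ} (hδ : 0 < δ) :
    ∃ R₀ n₀ : ℕ, ∀ R n : ℕ, R₀ ≤ R → n₀ ≤ n →
      (1 - δ) * (2 * (R : ℝ) + 1) ^ d ≤
        (((boxF d R).filter fun y => K < sp24 ρ β h n y).card : ℝ) :=
  frac24 hd hρ hnc hβ h hV (spstep24 hd hρ β h) (spodd24 hd hρ hnc hβ h hV) K hδ

open Classical in
/-- **Theorem SR**, on an arbitrary probability space. -/
theorem fracTr24 {Ω : Type*} [MeasurableSpace Ω] {μ : Measure Ω} [IsProbabilityMeasure μ]
    {ω : ℕ × Site d → Ω → ℝ} (hd : 0 < d) (hω : IID μ ρ ω) (hρ : EM ρ)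
    (hnc : ∀ c : ℝ, ρ {c} ≠ 1) {β : ℝ} (hβ : 0 < β) (h : Vec d) (hV : VSD ρ β h) (K δ : ℝ)
    (hδ : 0 < δ) : ∃ R₀ n₀ : ℕ, ∀ R n : ℕ, R₀ ≤ R → n₀ ≤ n →
      (1 - δ) * (2 * (R : ℝ) + 1) ^ d ≤ ({y : Site d | (∀ i, |y i| ≤ R) ∧
        K < ∫ x, |Real.log (Zn β h (fun p => ω (p.1, p.2 + y) x) n) -
          Real.log (Zn β h (fun p => ω p x) n)| ∂μ}.ncard : ℝ) := by
  obtain ⟨R₀, n₀, H⟩ := fracAll24 hd hρ hnc hβ h hV K hδ
  refine ⟨R₀, n₀, fun R n hR hn => ?_⟩
  have key : ∀ y : Site d, ∫ x, |Real.log (Zn β h (fun p => ω (p.1, p.2 + y) x) n) -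
      Real.log (Zn β h (fun p => ω p x) n)| ∂μ = sp24 ρ β h n y := by
    intro y
    have m1 : Measurable fun η : Env d => |X β h (sh 0 y η) n - X β h η n| :=
      measurable_norm.comp (((measurable_X β h n).comp (measurable_sh 0 y)).sub
        (measurable_X β h n))
    unfold sp24
    rw [← StrA_int hω m1]
    refine integral_congr_ae (Filter.Eventually.of_forall fun x => ?_)
    have e1 : (fun p : ℕ × Site d => ω (p.1, p.2 + y) x) = sh 0 y (fun p => ω p x) := rfl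
    simp only [e1, StrA_log hd]
    congr 1
    ring
  have e2 : {y : Site d | (∀ i, |y i| ≤ R) ∧
        K < ∫ x, |Real.log (Zn β h (fun p => ω (p.1, p.2 + y) x) n) -
          Real.log (Zn β h (fun p => ω p x) n)| ∂μ} =
      (((boxF d R).filter fun y => K < sp24 ρ β h n y : Finset (Site d)) : Set (Site d)) := by
    ext y
    rw [Finset.mem_coe, Finset.mem_filter, mem_boxF, Set.mem_ofPred_eq, key]
  rw [e2, Set.ncard_coe_finset]
  exact H R n hR hn

end Pool.Agent.W_7d29a1_NV24
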