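import Pool.Agent.W_7d29a1_NV24.HR24
import Pool.Agent.W_7d29a1_NV.Ins79
import Pool.Agent.W_7d29a1_h46u.LamU

/-!
Spatial roughness: the gain of an insertion, with the spatial increments as the error.
-/

set_option autoImplicit false

namespace Pool.Agent.W_7d29a1_NV24

open MeasureTheory ProbabilityTheory Filter Topology Pool.Agent.W_MP_7d29a1_pr
  Pool.Agent.W_7d29a1_h46 Pool.Agent.W_7d29a1_h46u Pool.Agent.W_7d29a1_D2.B35
  Pool.Agent.W_7d29a1_Q29 Pool.Agent.W_7d29a1_NV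

variable {d : ℕ} {ρ : Measure ℝ} [IsProbabilityMeasure ρ]

/-- The mean with the weights of the first `m` steps of a function of the later rows. -/
lemma avg24 (hd : 0 < d) (β : ℝ) (h : Vec d) (m : ℕ) (G : (Fin m → Step d) → Env d → ℝ)
    (hGm : ∀ s, Measurable (G s)) (hGi : ∀ s, Integrable (G s) (law d ρ))
    (hGd : ∀ s, DependsOn (G s) {p : ℕ × Site d | 1 ≤ p.1}) :
    Integrable (fun η => ∑ s, FreeU_p β h m s η * G s (sh m 0 η)) (law d ρ) ∧
      ∫ η, ∑ s, FreeU_p β h m s η * G s (sh m 0 η) ∂(law d ρ) =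
        ∑ s, (∫ η, FreeU_p β h m s η ∂(law d ρ)) * ∫ η, G s η ∂(law d ρ) := by
  have hGs : ∀ s, Integrable (fun η => G s (sh m 0 η)) (law d ρ) := fun s =>
    (mp_sh m 0).integrable_comp_of_integrable (hGi s)
  have hpX : ∀ s : Fin m → Step d,
      Integrable (fun η => FreeU_p β h m s η * G s (sh m 0 η)) (law d ρ) := fun s => by
    refine (hGs s).bdd_mul (c := 1) (FreeU_meas β h m s).aestronglyMeasurable
      (Filter.Eventually.of_forall fun η => ?_)
    rw [Real.norm_eq_abs, abs_of_nonneg (FreeU_nonneg hd β h m s η)]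
    exact FreeU_le_one hd β h m s η
  refine ⟨integrable_finsetSum _ fun s _ => hpX s, ?_⟩
  rw [integral_finsetSum _ fun s _ => hpX s]
  refine Finset.sum_congr rfl fun s _ => ?_
  have hdep : DependsOn (fun η : Env d => G s (sh m 0 η)) {p : ℕ × Site d | p.1 ≤ m}ᶜ := by
    intro η η' hη
    refine hGd s fun p hp => ?_
    refine hη (p.1 + m, p.2 + 0) ?_
    have : 1 ≤ p.1 := hp
    change ¬ (p.1 + m ≤ m)
    omega
  have h2 := integral_indep (ρ := ρ) {p : ℕ × Site d | p.1 ≤ m} (F := FreeU_p β h m s)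
    (G := fun η => G s (sh m 0 η)) (FreeU_meas β h m s)
    ((hGm s).comp (measurable_sh m 0)) (FreeU_dep β h m s) hdep
  rw [h2, integral_sh m 0 (hGm s)]

lemma intp24 (hd : 0 < d) (β : ℝ) (h : Vec d) (m : ℕ) :
    (∀ s, 0 ≤ ∫ η, FreeU_p β h m s η ∂(law d ρ)) ∧
      ∑ s : Fin m → Step d, ∫ η, FreeU_p β h m s η ∂(law d ρ) = 1 := by
  have hp : ∀ s : Fin m → Step d, Integrable (FreeU_p β h m s) (law d ρ) := fun s => by
    refine (integrable_const (1 : ℝ)).mono' (FreeU_meas β h m s).aestronglyMeasurable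
      (Filter.Eventually.of_forall fun η => ?_)
    rw [Real.norm_eq_abs, abs_of_nonneg (FreeU_nonneg hd β h m s η)]
    exact FreeU_le_one hd β h m s η
  refine ⟨fun s => integral_nonneg fun η => FreeU_nonneg hd β h m s η, ?_⟩
  rw [← integral_finsetSum _ fun s _ => hp s]
  simp only [FreeU_sum hd]
  simp

lemma avg_le24 (hd : 0 < d) (β : ℝ) (h : Vec d) (m : ℕ) (G : (Fin m → Step d) → Env d → ℝ)
    (hGm : ∀ s, Measurable (G s)) (hGi : ∀ s, Integrable (G s) (law d ρ))
    (hGd : ∀ s, DependsOn (G s) {p : ℕ × Site d | 1 ≤ p.1}) {c : ℝ}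
    (hc : ∀ s, ∫ η, G s η ∂(law d ρ) ≤ c) :
    ∫ η, ∑ s, FreeU_p β h m s η * G s (sh m 0 η) ∂(law d ρ) ≤ c := by
  rw [(avg24 hd β h m G hGm hGi hGd).2]
  obtain ⟨h1, h2⟩ := intp24 (ρ := ρ) hd β h m
  calc ∑ s, (∫ η, FreeU_p β h m s η ∂(law d ρ)) * ∫ η, G s η ∂(law d ρ)
      ≤ ∑ s, (∫ η, FreeU_p β h m s η ∂(law d ρ)) * c :=
        Finset.sum_le_sum fun s _ => mul_le_mul_of_nonneg_left (hc s) (h1 s)
    _ = c := by rw [← Finset.sum_mul, h2, one_mul]

/-- The free energy given the rows `> τ`. -/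
noncomputable def U24 (ρ : Measure ℝ) (β : ℝ) (h : Vec d) (n τ : ℕ) (η : Env d) : ℝ :=
  cE ρ (Pa d τ)ᶜ (fun η => X β h η n) η

lemma U_meas24 (β : ℝ) (h : Vec d) (n τ : ℕ) : Measurable (U24 (d := d) ρ β h n τ) :=
  measurable_cE (measurable_X β h n) _

omit [IsProbabilityMeasure ρ] in
lemma U_dep24 (β : ℝ) (h : Vec d) (n τ : ℕ) :
    DependsOn (U24 (d := d) ρ β h n τ) (Pa d τ)ᶜ := cE_dep _ _

lemma X_spl_int24 (hd : 0 < d) (hρ : EM ρ) (β : ℝ) (h : Vec d) (n : ℕ)
    (S : Set (ℕ × Site d)) (v : Site d) :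
    Integrable (fun w : Env d × Env d => X β h (sh 0 v (spl S w.1 w.2)) n)
      ((law d ρ).prod (law d ρ)) :=
  (mp_spl S).integrable_comp_of_integrable (g := fun η : Env d => X β h (sh 0 v η) n)
    ((memSh24 hd hρ β h n 0 v).integrable one_le_two)

lemma X_spl_int24' (hd : 0 < d) (hρ : EM ρ) (β : ℝ) (h : Vec d) (n : ℕ)
    (S : Set (ℕ × Site d)) :
    Integrable (fun w : Env d × Env d => X β h (spl S w.1 w.2) n)
      ((law d ρ).prod (law d ρ)) :=
  (mp_spl S).integrable_comp_of_integrable (g := fun η : Env d => X β h η n)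
    (intX24 hd hρ β h n)

lemma U_int24 (hd : 0 < d) (hρ : EM ρ) (β : ℝ) (h : Vec d) (n τ : ℕ) :
    Integrable (U24 (d := d) ρ β h n τ) (law d ρ) :=
  (X_spl_int24' hd hρ β h n (Pa d τ)ᶜ).integral_prod_left

lemma U_shift24 (β : ℝ) (h : Vec d) (n τ : ℕ) (v : Site d) (η : Env d) :
    U24 ρ β h n τ (sh 0 v η) = ∫ ξ, X β h (sh 0 v (spl (Pa d τ)ᶜ η ξ)) n ∂(law d ρ) := by
  unfold U24 cE
  have h1 : Measurable fun ξ : Env d => X β h (spl (Pa d τ)ᶜ (sh 0 v η) ξ) n :=
    (measurable_X β h n).comp (measurable_spl_right _ _)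
  rw [← integral_sh (ρ := ρ) 0 v h1]
  refine integral_congr_ae (Eventually.of_forall fun ξ => ?_)
  have e0 : spl (Pa d τ)ᶜ (sh 0 v η) (sh 0 v ξ) = sh 0 v (spl (Pa d τ)ᶜ η ξ) := ?_
  · change X β h (spl (Pa d τ)ᶜ (sh 0 v η) (sh 0 v ξ)) n = X β h (sh 0 v (spl (Pa d τ)ᶜ η ξ)) n
    rw [e0]
  funext p
  have h2 : p ∈ (Pa d τ)ᶜ ↔ (p.1 + 0, p.2 + v) ∈ (Pa d τ)ᶜ := Iff.rfl
  by_cases hp : p ∈ (Pa d τ)ᶜ
  · rw [spl_mem _ _ hp]
    unfold sh
    rw [spl_mem _ _ (h2.1 hp)]
  · rw [spl_not_mem _ _ hp]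
    unfold sh
    rw [spl_not_mem _ _ (fun hc => hp (h2.2 hc))]

/-- The conditional expectation decreases the spatial increments. -/
lemma U_diff24 (hd : 0 < d) (hρ : EM ρ) (β : ℝ) (h : Vec d) (n τ : ℕ) (v w : Site d) :
    ∫ η, |U24 ρ β h n τ (sh 0 v η) - U24 ρ β h n τ (sh 0 w η)| ∂(law d ρ) ≤
      ∫ η, |X β h (sh 0 v η) n - X β h (sh 0 w η) n| ∂(law d ρ) := by
  set S := (Pa d τ)ᶜ with hS
  have iv := X_spl_int24 hd hρ β h n S v
  have iw := X_spl_int24 hd hρ β h n S w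
  have ivw := (iv.sub iw).abs
  have h1 : ∫ η, |X β h (sh 0 v η) n - X β h (sh 0 w η) n| ∂(law d ρ) =
      ∫ η, ∫ ξ, |X β h (sh 0 v (spl S η ξ)) n - X β h (sh 0 w (spl S η ξ)) n| ∂(law d ρ)
        ∂(law d ρ) := by
    have m1 : Measurable fun η : Env d => |X β h (sh 0 v η) n - X β h (sh 0 w η) n| :=
      measurable_norm.comp (((measurable_X β h n).comp (measurable_sh 0 v)).sub
        ((measurable_X β h n).comp (measurable_sh 0 w)))
    rw [← LawU_integral (mp_spl (ρ := ρ) S) (F := fun η : Env d =>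
      |X β h (sh 0 v η) n - X β h (sh 0 w η) n|) m1.aestronglyMeasurable]
    exact integral_prod _ ivw
  rw [h1]
  refine integral_mono_of_nonneg (Eventually.of_forall fun _ => abs_nonneg _)
    ivw.integral_prod_left ?_
  filter_upwards [iv.prod_right_ae, iw.prod_right_ae] with η hv hw
  rw [U_shift24, U_shift24, ← integral_sub hv hw]
  exact abs_integral_le_integral_abs

/-- The distance of the free energy to its conditional expectation. -/
lemma U_dist24 (hd : 0 < d) (hρ : EM ρ) (β : ℝ) (h : Vec d) (n τ : ℕ) :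
    ∫ η, |X β h η n - U24 ρ β h n τ η| ∂(law d ρ) ≤
      ∫ w : Env d × (Env d × Env d), |X β h (spl (Pa d τ)ᶜ w.1 w.2.1) n -
        X β h (spl (Pa d τ)ᶜ w.1 w.2.2) n| ∂((law d ρ).prod ((law d ρ).prod (law d ρ))) := by
  set S := (Pa d τ)ᶜ with hS
  have H := rs_spl24 (d := d) (ρ := ρ) τ
  have i0 := X_spl_int24' hd hρ β h n S
  have iW : Integrable (fun w : Env d × (Env d × Env d) => |X β h (spl S w.1 w.2.1) n -
      X β h (spl S w.1 w.2.2) n|) ((law d ρ).prod ((law d ρ).prod (law d ρ))) :=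
    (((mp1_24 H).integrable_comp_of_integrable (intX24 hd hρ β h n)).sub
      ((mp2_24 H).integrable_comp_of_integrable (intX24 hd hρ β h n))).abs
  have iXU : Integrable (fun η => |X β h η n - U24 ρ β h n τ η|) (law d ρ) :=
    ((intX24 hd hρ β h n).sub (U_int24 hd hρ β h n τ)).abs
  have iXU2 : Integrable (fun w : Env d × Env d => |X β h (spl S w.1 w.2) n -
      U24 ρ β h n τ (spl S w.1 w.2)|) ((law d ρ).prod (law d ρ)) :=
    (mp_spl S).integrable_comp_of_integrable iXU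
  have h1 : ∫ η, |X β h η n - U24 ρ β h n τ η| ∂(law d ρ) =
      ∫ η, ∫ ξ, |X β h (spl S η ξ) n - U24 ρ β h n τ (spl S η ξ)| ∂(law d ρ) ∂(law d ρ) := by
    rw [← LawU_integral (mp_spl (ρ := ρ) S) (F := fun η : Env d =>
      |X β h η n - U24 ρ β h n τ η|) iXU.aestronglyMeasurable]
    exact integral_prod _ iXU2
  rw [h1, integral_prod _ iW]
  refine integral_mono_of_nonneg (Eventually.of_forall fun _ => integral_nonneg fun _ =>
    abs_nonneg _) iW.integral_prod_left ?_
  filter_upwards [i0.prod_right_ae] with η hη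
  have i2 : Integrable (fun w : Env d × Env d => |X β h (spl S η w.1) n -
      X β h (spl S η w.2) n|) ((law d ρ).prod (law d ρ)) :=
    ((hη.comp_fst (law d ρ)).sub (hη.comp_snd (law d ρ))).abs
  rw [integral_prod _ i2]
  refine integral_mono_of_nonneg (Eventually.of_forall fun _ => abs_nonneg _)
    i2.integral_prod_left (Eventually.of_forall fun ξ => ?_)
  have h2 : U24 ρ β h n τ (spl S η ξ) = ∫ ξ', X β h (spl S η ξ') n ∂(law d ρ) := by
    have h3 : U24 ρ β h n τ (spl S η ξ) = U24 ρ β h n τ η :=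
      U_dep24 β h n τ (x := spl S η ξ) (y := η) fun p hp => spl_mem _ _ hp
    rw [h3]
    rfl
  have h4 : X β h (spl S η ξ) n - U24 ρ β h n τ (spl S η ξ) =
      ∫ ξ', (X β h (spl S η ξ) n - X β h (spl S η ξ') n) ∂(law d ρ) := by
    rw [integral_sub (integrable_const _) hη, h2, integral_const]
    simp
  change |X β h (spl S η ξ) n - U24 ρ β h n τ (spl S η ξ)| ≤
    ∫ ξ', |X β h (spl S η ξ) n - X β h (spl S η ξ') n| ∂(law d ρ)
  rw [h4]
  exact abs_integral_le_integral_abs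

/-- (HI) The gain of the insertion of `m` fresh rows. -/
theorem hi24 (hd : 0 < d) (hρ : EM ρ) (β : ℝ) (h : Vec d) {n m τ R : ℕ} (z0 : Site d)
    (hmR : m ≤ R) (hz0 : z0 ∈ boxF d R) {σ r : ℝ}
    (hr : ∫ η, |X β h η n - U24 ρ β h n τ η| ∂(law d ρ) ≤ r)
    (hs : ∀ v ∈ boxF d R, ∫ η, |X β h (sh 0 v η) n - X β h η n| ∂(law d ρ) ≤ σ) :
    ∫ w, |X β h (insE τ m z0 w.1 w.2) (n + m) - X β h w.1 n - A ρ β h m|
      ∂((law d ρ).prod (law d ρ)) ≤
      (A ρ β h (n + m) - A ρ β h n - A ρ β h m) +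
        ∫ η, |X β h η m - A ρ β h m| ∂(law d ρ) + 2 * r + 2 * σ := by
  set μ2 := (law d ρ).prod (law d ρ) with hμ2
  have hmp := mp_ins (d := d) (ρ := ρ) τ m z0
  have hX : ∀ k, Integrable (fun η => X β h η k) (law d ρ) := fun k => intX24 hd hρ β h k
  set U := U24 (d := d) ρ β h n τ with hU
  -- the four functions of the new environment
  set a1 : Env d → ℝ := fun η => X β h η (m + n) - (X β h η m + ∑ s : Fin m → Step d,
    FreeU_p β h m s η * X β h (sh m (pos s m) η) n) with ha1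
  set a2 : Env d → ℝ := fun η => |X β h η m - A ρ β h m| with ha2
  set G3 : (Fin m → Step d) → Env d → ℝ := fun s η =>
    |X β h (sh 0 (pos s m) η) n - U (sh 0 (pos s m) η)| with hG3
  set a3 : Env d → ℝ := fun η => ∑ s, FreeU_p β h m s η * G3 s (sh m 0 η) with ha3
  set G4 : (Fin m → Step d) → Env d → ℝ := fun s η =>
    |U (sh 0 (pos s m) η) - U (sh 0 z0 η)| with hG4
  set a4 : Env d → ℝ := fun η => ∑ s, FreeU_p β h m s η * G4 s (sh m 0 η) with ha4
  have hUi : Integrable U (law d ρ) := U_int24 hd hρ β h n τ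
  have hUm : Measurable U := U_meas24 β h n τ
  have hshi : ∀ v, Integrable (fun η : Env d => X β h (sh 0 v η) n) (law d ρ) := fun v =>
    (memSh24 hd hρ β h n 0 v).integrable one_le_two
  have hUshi : ∀ v, Integrable (fun η : Env d => U (sh 0 v η)) (law d ρ) := fun v =>
    (mp_sh 0 v).integrable_comp_of_integrable hUi
  have hUd : ∀ v : Site d, DependsOn (fun η : Env d => U (sh 0 v η)) {p : ℕ × Site d | 1 ≤ p.1} := by
    intro v η η' hη
    refine U_dep24 β h n τ fun p hp => ?_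
    refine hη (p.1 + 0, p.2 + v) ?_
    have : ¬ p.1 ≤ τ := hp
    change 1 ≤ p.1 + 0
    omega
  have hXd : ∀ v : Site d, DependsOn (fun η : Env d => X β h (sh 0 v η) n)
      {p : ℕ × Site d | 1 ≤ p.1} := by
    intro v η η' hη
    have h2 : Z β h (sh 0 v η) n = Z β h (sh 0 v η') n := by
      refine dependsOn_Z β h n fun p hp => ?_
      exact hη (p.1 + 0, p.2 + v) hp.1
    simp only
    unfold X
    rw [h2]
  -- integrals
  have hS := avg24 (ρ := ρ) hd β h m (fun s η => X β h (sh 0 (pos s m) η) n)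
    (fun s => (measurable_X β h n).comp (measurable_sh 0 _)) (fun s => hshi _) (fun s => hXd _)
  have esh : ∀ (x : Site d) (η : Env d), sh 0 x (sh m 0 η) = sh m x η := by
    intro x η
    funext p
    unfold sh
    simp
  simp only [esh] at hS
  have hSv : ∫ η, ∑ s : Fin m → Step d, FreeU_p β h m s η * X β h (sh m (pos s m) η) n
      ∂(law d ρ) = A ρ β h n := by
    rw [hS.2]
    obtain ⟨_, h2⟩ := intp24 (ρ := ρ) hd β h m
    have h3 : ∀ s : Fin m → Step d, ∫ η, X β h (sh 0 (pos s m) η) n ∂(law d ρ) = A ρ β h n :=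
      fun s => integral_sh 0 _ (measurable_X β h n)
    simp only [h3]
    rw [← Finset.sum_mul, h2, one_mul]
  have ia1 : Integrable a1 (law d ρ) := (hX (m + n)).sub ((hX m).add hS.1)
  have va1 : ∫ η, a1 η ∂(law d ρ) = A ρ β h (n + m) - A ρ β h n - A ρ β h m := by
    have h4 : ∫ η, (X β h η m + ∑ s : Fin m → Step d,
        FreeU_p β h m s η * X β h (sh m (pos s m) η) n) ∂(law d ρ) = A ρ β h m + A ρ β h n := by
      rw [integral_add (hX m) hS.1, hSv]
      rfl
    have i4 : Integrable (fun η => X β h η m + ∑ s : Fin m → Step d,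
        FreeU_p β h m s η * X β h (sh m (pos s m) η) n) (law d ρ) := (hX m).add hS.1
    have h5 : ∫ η, a1 η ∂(law d ρ) = ∫ η, X β h η (m + n) ∂(law d ρ) -
        ∫ η, (X β h η m + ∑ s : Fin m → Step d,
          FreeU_p β h m s η * X β h (sh m (pos s m) η) n) ∂(law d ρ) :=
      integral_sub (hX (m + n)) i4
    rw [h5, h4, add_comm n m]
    have h6 : ∫ η, X β h η (m + n) ∂(law d ρ) = A ρ β h (m + n) := rfl
    rw [h6]
    ring
  have a1nn : ∀ η, 0 ≤ a1 η := fun η => sub_nonneg.2 (FreeU_pt hd β h m n η)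
  have ia2 : Integrable a2 (law d ρ) := ((hX m).sub (integrable_const _)).abs
  have hG3i : ∀ s, Integrable (G3 s) (law d ρ) := fun s => ((hshi _).sub (hUshi _)).abs
  have hG3m : ∀ s, Measurable (G3 s) := fun s => measurable_norm.comp
    (((measurable_X β h n).comp (measurable_sh 0 _)).sub (hUm.comp (measurable_sh 0 _)))
  have hG3d : ∀ s, DependsOn (G3 s) {p : ℕ × Site d | 1 ≤ p.1} := by
    intro s η η' hη
    simp only [hG3]
    have h1 := hXd (pos s m) hη
    have h2 := hUd (pos s m) hη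
    simp only at h1 h2
    rw [h1, h2]
  have hG3v : ∀ s, ∫ η, G3 s η ∂(law d ρ) ≤ r := by
    intro s
    have h1 : Measurable fun η : Env d => |X β h η n - U η| :=
      measurable_norm.comp ((measurable_X β h n).sub hUm)
    have h2 := integral_sh (ρ := ρ) 0 (pos s m) h1
    calc ∫ η, G3 s η ∂(law d ρ) = ∫ η, |X β h η n - U η| ∂(law d ρ) := h2
      _ ≤ r := hr
  have ia3 := (avg24 (ρ := ρ) hd β h m G3 hG3m hG3i hG3d).1
  have va3 := avg_le24 (ρ := ρ) hd β h m G3 hG3m hG3i hG3d hG3v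
  have hG4i : ∀ s, Integrable (G4 s) (law d ρ) := fun s => ((hUshi _).sub (hUshi _)).abs
  have hG4m : ∀ s, Measurable (G4 s) := fun s => measurable_norm.comp
    ((hUm.comp (measurable_sh 0 _)).sub (hUm.comp (measurable_sh 0 _)))
  have hG4d : ∀ s, DependsOn (G4 s) {p : ℕ × Site d | 1 ≤ p.1} := by
    intro s η η' hη
    simp only [hG4]
    have h1 := hUd z0 hη
    have h2 := hUd (pos s m) hη
    simp only at h1 h2
    rw [h1, h2]
  have hG4v : ∀ s, ∫ η, G4 s η ∂(law d ρ) ≤ 2 * σ := by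
    intro s
    have hpos : pos s m ∈ boxF d R := by
      have h1 := pos_mem_box s m
      rw [mem_boxF] at h1 ⊢
      intro i
      refine (h1 i).trans ?_
      exact_mod_cast hmR
    have i1 : Integrable (fun η : Env d => |X β h (sh 0 (pos s m) η) n - X β h η n|) (law d ρ) :=
      ((hshi _).sub (hX n)).abs
    have i2 : Integrable (fun η : Env d => |X β h (sh 0 z0 η) n - X β h η n|) (law d ρ) :=
      ((hshi _).sub (hX n)).abs
    have h2 := U_diff24 hd hρ β h n τ (pos s m) z0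
    have h3 : ∫ η, |X β h (sh 0 (pos s m) η) n - X β h (sh 0 z0 η) n| ∂(law d ρ) ≤
        ∫ η, (|X β h (sh 0 (pos s m) η) n - X β h η n| + |X β h (sh 0 z0 η) n - X β h η n|)
          ∂(law d ρ) := by
      refine integral_mono_of_nonneg (Eventually.of_forall fun _ => abs_nonneg _) (i1.add i2)
        (Eventually.of_forall fun η => ?_)
      have e1 : X β h (sh 0 (pos s m) η) n - X β h (sh 0 z0 η) n =
          (X β h (sh 0 (pos s m) η) n - X β h η n) - (X β h (sh 0 z0 η) n - X β h η n) := by ring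
      simp only
      rw [e1]
      exact abs_sub _ _
    rw [integral_add i1 i2] at h3
    have h4 := hs _ hpos
    have h5 := hs _ hz0
    have h6 : ∫ η, G4 s η ∂(law d ρ) =
        ∫ η, |U24 ρ β h n τ (sh 0 (pos s m) η) - U24 ρ β h n τ (sh 0 z0 η)| ∂(law d ρ) := rfl
    rw [h6]
    linarith
  have ia4 := (avg24 (ρ := ρ) hd β h m G4 hG4m hG4i hG4d).1
  have va4 := avg_le24 (ρ := ρ) hd β h m G4 hG4m hG4i hG4d hG4v
  -- the pointwise inequality
  have hUins : ∀ η ξ : Env d, U (sh m z0 (insE τ m z0 η ξ)) = U η := by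
    intro η ξ
    refine U_dep24 β h n τ fun p hp => ?_
    have hp' : ¬ p.1 ≤ τ := hp
    unfold sh insE
    simp only
    rw [if_neg (by omega), if_neg (by omega)]
    congr 1
    refine Prod.ext ?_ ?_
    · change p.1 + m - m = p.1
      omega
    · change p.2 + z0 - z0 = p.2
      abel
  have hpt : ∀ w : Env d × Env d,
      |X β h (insE τ m z0 w.1 w.2) (n + m) - X β h w.1 n - A ρ β h m| ≤
        a1 (insE τ m z0 w.1 w.2) + a2 (insE τ m z0 w.1 w.2) + a3 (insE τ m z0 w.1 w.2) +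
          a4 (insE τ m z0 w.1 w.2) + |X β h w.1 n - U w.1| := by
    intro w
    set η' := insE τ m z0 w.1 w.2 with hη'
    have e1 : X β h η' (n + m) - X β h w.1 n - A ρ β h m =
        a1 η' + (X β h η' m - A ρ β h m) +
        (∑ s : Fin m → Step d, FreeU_p β h m s η' *
          (X β h (sh m (pos s m) η') n - U (sh m (pos s m) η'))) +
        (∑ s : Fin m → Step d, FreeU_p β h m s η' *
          (U (sh m (pos s m) η') - U (sh m z0 η'))) + (U w.1 - X β h w.1 n) := by
      have e2 := FreeU_sum hd β h m η'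
      have e3 : ∑ s : Fin m → Step d, FreeU_p β h m s η' *
          (U (sh m (pos s m) η') - U (sh m z0 η')) =
          ∑ s : Fin m → Step d, FreeU_p β h m s η' * U (sh m (pos s m) η') - U w.1 := by
        simp only [mul_sub]
        rw [Finset.sum_sub_distrib, ← Finset.sum_mul, e2, one_mul, hUins]
      have e4 : ∑ s : Fin m → Step d, FreeU_p β h m s η' *
          (X β h (sh m (pos s m) η') n - U (sh m (pos s m) η')) =
          ∑ s : Fin m → Step d, FreeU_p β h m s η' * X β h (sh m (pos s m) η') n -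
          ∑ s : Fin m → Step d, FreeU_p β h m s η' * U (sh m (pos s m) η') := by
        simp only [mul_sub]
        rw [Finset.sum_sub_distrib]
      rw [e3, e4, add_comm n m]
      simp only [ha1]
      ring
    rw [e1]
    have b1 : |a1 η'| = a1 η' := abs_of_nonneg (a1nn η')
    have b3 : |∑ s : Fin m → Step d, FreeU_p β h m s η' *
          (X β h (sh m (pos s m) η') n - U (sh m (pos s m) η'))| ≤ a3 η' := by
      refine (Finset.abs_sum_le_sum_abs _ _).trans (le_of_eq ?_)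
      refine Finset.sum_congr rfl fun s _ => ?_
      rw [abs_mul, abs_of_nonneg (FreeU_nonneg hd β h m s η')]
      simp only [hG3, esh]
    have b4 : |∑ s : Fin m → Step d, FreeU_p β h m s η' *
          (U (sh m (pos s m) η') - U (sh m z0 η'))| ≤ a4 η' := by
      refine (Finset.abs_sum_le_sum_abs _ _).trans (le_of_eq ?_)
      refine Finset.sum_congr rfl fun s _ => ?_
      rw [abs_mul, abs_of_nonneg (FreeU_nonneg hd β h m s η')]
      simp only [hG4, esh]
    have b5 : |U w.1 - X β h w.1 n| = |X β h w.1 n - U w.1| := abs_sub_comm _ _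
    refine (abs_add_le _ _).trans ?_
    rw [b5]
    refine add_le_add ?_ le_rfl
    refine (abs_add_le _ _).trans (add_le_add ?_ b4)
    refine (abs_add_le _ _).trans (add_le_add ?_ b3)
    refine (abs_add_le _ _).trans (add_le_add b1.le le_rfl)
  -- integrate
  have j1 : Integrable (fun w : Env d × Env d => a1 (insE τ m z0 w.1 w.2)) μ2 :=
    hmp.integrable_comp_of_integrable ia1
  have j2 : Integrable (fun w : Env d × Env d => a2 (insE τ m z0 w.1 w.2)) μ2 :=
    hmp.integrable_comp_of_integrable ia2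
  have j3 : Integrable (fun w : Env d × Env d => a3 (insE τ m z0 w.1 w.2)) μ2 :=
    hmp.integrable_comp_of_integrable ia3
  have j4 : Integrable (fun w : Env d × Env d => a4 (insE τ m z0 w.1 w.2)) μ2 :=
    hmp.integrable_comp_of_integrable ia4
  have i5 : Integrable (fun η : Env d => |X β h η n - U η|) (law d ρ) := ((hX n).sub hUi).abs
  have j5 : Integrable (fun w : Env d × Env d => |X β h w.1 n - U w.1|) μ2 :=
    i5.comp_fst (law d ρ)
  have v1 : ∫ w : Env d × Env d, a1 (insE τ m z0 w.1 w.2) ∂μ2 = ∫ η, a1 η ∂(law d ρ) :=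
    LawU_integral hmp (F := a1) ia1.aestronglyMeasurable
  have v2 : ∫ w : Env d × Env d, a2 (insE τ m z0 w.1 w.2) ∂μ2 = ∫ η, a2 η ∂(law d ρ) :=
    LawU_integral hmp (F := a2) ia2.aestronglyMeasurable
  have v3 : ∫ w : Env d × Env d, a3 (insE τ m z0 w.1 w.2) ∂μ2 = ∫ η, a3 η ∂(law d ρ) :=
    LawU_integral hmp (F := a3) ia3.aestronglyMeasurable
  have v4 : ∫ w : Env d × Env d, a4 (insE τ m z0 w.1 w.2) ∂μ2 = ∫ η, a4 η ∂(law d ρ) :=
    LawU_integral hmp (F := a4) ia4.aestronglyMeasurable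
  have v5 : ∫ w : Env d × Env d, |X β h w.1 n - U w.1| ∂μ2 =
      ∫ η, |X β h η n - U η| ∂(law d ρ) :=
    LawU_integral (measurePreserving_fst (μ := law d ρ) (ν := law d ρ))
      (F := fun η => |X β h η n - U η|) i5.aestronglyMeasurable
  have j12 : Integrable (fun w : Env d × Env d => a1 (insE τ m z0 w.1 w.2) +
      a2 (insE τ m z0 w.1 w.2)) μ2 := j1.add j2
  have j123 : Integrable (fun w : Env d × Env d => a1 (insE τ m z0 w.1 w.2) +
      a2 (insE τ m z0 w.1 w.2) + a3 (insE τ m z0 w.1 w.2)) μ2 := j12.add j3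
  have j1234 : Integrable (fun w : Env d × Env d => a1 (insE τ m z0 w.1 w.2) +
      a2 (insE τ m z0 w.1 w.2) + a3 (insE τ m z0 w.1 w.2) + a4 (insE τ m z0 w.1 w.2)) μ2 :=
    j123.add j4
  have h7 := integral_mono_of_nonneg (μ := μ2) (Eventually.of_forall fun w => abs_nonneg _)
    (j1234.add j5) (Eventually.of_forall hpt)
  refine h7.trans ?_
  have h8 : ∫ w : Env d × Env d, (a1 (insE τ m z0 w.1 w.2) +
      a2 (insE τ m z0 w.1 w.2) + a3 (insE τ m z0 w.1 w.2) + a4 (insE τ m z0 w.1 w.2) +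
      |X β h w.1 n - U w.1|) ∂μ2 = ∫ η, a1 η ∂(law d ρ) + ∫ η, a2 η ∂(law d ρ) +
        ∫ η, a3 η ∂(law d ρ) + ∫ η, a4 η ∂(law d ρ) + ∫ η, |X β h η n - U η| ∂(law d ρ) := by
    rw [integral_add j1234 j5, integral_add j123 j4, integral_add j12 j3, integral_add j1 j2,
      v1, v2, v3, v4, v5]
  have h9 : ∫ η, a3 η ∂(law d ρ) ≤ r := va3
  have h10 : ∫ η, a4 η ∂(law d ρ) ≤ 2 * σ := va4
  have h11 : ∫ η, a2 η ∂(law d ρ) = ∫ η, |X β h η m - A ρ β h m| ∂(law d ρ) := rfl
  simp only [Pi.add_apply]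
  rw [h8, va1]
  linarith

end Pool.Agent.W_7d29a1_NV24
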