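import Pool.Agent.W_7d29a1_NV.Inc34

/-!
Spatial roughness: the increments of the mean free energy at a length with small spatial increments
(the proofs are those of `W_7d29a1_NV/Inc34.lean`).
-/

namespace Pool.Agent.W_7d29a1_NV24

open MeasureTheory ProbabilityTheory Filter Topology Pool.Agent.W_MP_7d29a1_pr
  Pool.Agent.W_7d29a1_h46 Pool.Agent.W_7d29a1_h46u Pool.Agent.W_7d29a1_D2
  Pool.Agent.W_7d29a1_D2.B35 Pool.Agent.W_7d29a1_V.Law2 Pool.Agent.W_7d29a1_Q29
  Pool.Agent.W_7d29a1_NV.I34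

variable {d : ℕ} {ρ : Measure ℝ} [IsProbabilityMeasure ρ]

/-- **The increments at a length with small spatial increments.** -/
theorem incS24 (hd : 0 < d) (hρ : EM ρ) (β : ℝ) (h : Vec d) (n s m : ℕ) (hm : s * d ≤ m)
    (hn : s * d ≤ n) {σ : ℝ}
    (hσ : ∀ x ∈ boxF d (m + s * d), ∫ η, |X β h (sh 0 x η) n - X β h η n| ∂(law d ρ) ≤ σ) :
    A ρ β h (m + (n - s * d)) ≤ A ρ β h m + A ρ β h n +
      (‖h‖ + |β| * ∫ t, |t| ∂ρ) * ((s * d : ℕ) : ℝ) +
      ((2 * ((m + s * d : ℕ) : ℝ) + 1) / (s + 1)) ^ d * σ := by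
  classical
  obtain ⟨r, hr⟩ : ∃ r, r = s * d := ⟨_, rfl⟩
  obtain ⟨E1, hE1⟩ : ∃ E1, E1 = ∫ t, |t| ∂ρ := ⟨_, rfl⟩
  have hE0 : 0 ≤ E1 := by
    rw [hE1]
    exact integral_nonneg fun t => abs_nonneg t
  rw [← hr] at hm hn hσ ⊢
  rw [← hE1]
  set S : Set (ℕ × Site d) := {p | m < p.1} with hS
  set k := n - r with hk
  -- the values at the sites of the time `m`
  have hdep : ∀ x : Site d, DependsOn (fun η : Env d => X β h (sh m x η) k) S := by
    intro x η η' hη
    show X β h (sh m x η) k = X β h (sh m x η') k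
    unfold X
    congr 1
    refine dependsOn_Z β h k fun p hp => ?_
    refine hη _ ?_
    show m < p.1 + m
    have := hp.1
    omega
  have hne : (boxF d m).Nonempty := ⟨0, by
    rw [mem_boxF]
    intro i
    simp⟩
  have hmax : ∀ η : Env d, ∃ x ∈ boxF d m, ∀ x' ∈ boxF d m,
      X β h (sh m x' η) k ≤ X β h (sh m x η) k := fun η =>
    Finset.exists_max_image (boxF d m) (fun x => X β h (sh m x η) k) hne
  choose xs hxs hxm using hmax
  -- the cost of the last steps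
  let co : (Fin d → Fin (s + 1)) → Site d → Env d → ℝ := fun a x ξ =>
    ‖h‖ * r + |β| * ∑ i : Fin (s * d), |ξ ((i : ℕ) + 1 + (m - r),
      pos (wk s a) ((i : ℕ) + 1) + (x - pos (wk s a) (s * d)))|
  have hcoI : ∀ a x, Integrable (co a x) (law d ρ) ∧
      ∫ ξ, co a x ξ ∂(law d ρ) = (‖h‖ + |β| * E1) * r := by
    intro a x
    have i1 : Integrable (fun ξ : Env d => ∑ i : Fin (s * d), |ξ ((i : ℕ) + 1 + (m - r),
        pos (wk s a) ((i : ℕ) + 1) + (x - pos (wk s a) (s * d)))|) (law d ρ) :=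
      integrable_finsetSum _ fun i _ => (coord_int hρ _).1
    refine ⟨(integrable_const _).add (i1.const_mul _), ?_⟩
    show ∫ ξ, (‖h‖ * r + |β| * ∑ i : Fin (s * d), |ξ ((i : ℕ) + 1 + (m - r),
      pos (wk s a) ((i : ℕ) + 1) + (x - pos (wk s a) (s * d)))|) ∂(law d ρ) = _
    rw [integral_add (integrable_const _) (i1.const_mul |β|), integral_const_mul |β|,
      integral_finsetSum _ fun i _ => (coord_int hρ _).1]
    simp only [(coord_int hρ _).2, ← hE1]
    rw [Finset.sum_const, Finset.card_univ, Fintype.card_fin, integral_const]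
    simp only [probReal_univ, nsmul_eq_mul, smul_eq_mul, one_mul]
    rw [← hr]
    ring
  -- one walk into the best site
  have hone : ∀ (η ξ : Env d) (a : Fin d → Fin (s + 1)), X β h (sh m (xs η) η) k ≤
      X β h (sh (m - r) (xs η - pos (wk s a) (s * d)) (sp S η ξ)) n + co a (xs η) ξ := by
    intro η ξ a
    obtain ⟨ζ, hζ⟩ : ∃ ζ, ζ = sh (m - r) (xs η - pos (wk s a) (s * d)) (sp S η ξ) := ⟨_, rfl⟩
    have h1 := one_walk hd β h ζ (wk s a) k
    have h2 := log_wgt_ge β h ζ (wk s a)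
    have h3 : sh (s * d) (pos (wk s a) (s * d)) ζ = sh m (xs η) (sp S η ξ) := by
      rw [hζ, sh_sh34]
      congr 1
      · omega
      · abel
    have h4 : X β h (sh m (xs η) (sp S η ξ)) k = X β h (sh m (xs η) η) k :=
      sp_dep (hdep (xs η)) η ξ
    have h5 : ∀ i : Fin (s * d), ζ ((i : ℕ) + 1, pos (wk s a) ((i : ℕ) + 1)) =
        ξ ((i : ℕ) + 1 + (m - r),
          pos (wk s a) ((i : ℕ) + 1) + (xs η - pos (wk s a) (s * d))) := by
      intro i
      rw [hζ]
      unfold sh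
      refine sp_not ?_
      show ¬ (m < (i : ℕ) + 1 + (m - r))
      have := i.2
      omega
    have h6 : s * d + k = n := by omega
    rw [h3, h4, h6] at h1
    simp only [h5] at h2
    rw [← hζ]
    show _ ≤ _ + (‖h‖ * r + |β| * ∑ i : Fin (s * d), |ξ ((i : ℕ) + 1 + (m - r),
      pos (wk s a) ((i : ℕ) + 1) + (xs η - pos (wk s a) (s * d)))|)
    have h7 : ((s * d : ℕ) : ℝ) = r := by rw [hr]
    rw [h7] at h2
    linarith
  -- the average over the walks
  obtain ⟨N, hN⟩ : ∃ N : ℝ, N = ((s : ℝ) + 1) ^ d := ⟨_, rfl⟩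
  have hN0 : 0 < N := by
    rw [hN]
    positivity
  have hcard : (Fintype.card (Fin d → Fin (s + 1)) : ℝ) = N := by
    rw [hN, Fintype.card_fun, Fintype.card_fin, Fintype.card_fin]
    push_cast
    rfl
  obtain ⟨c1, hc1⟩ : ∃ c1, c1 = (‖h‖ + |β| * E1) * r := ⟨_, rfl⟩
  set C0 : Env d × Env d → ℝ := fun z => X β h (sh (m - r) 0 (sp S z.1 z.2)) n with hC0
  set W : Site d → Env d × Env d → ℝ := fun x' z =>
    |X β h (sh (m - r) x' (sp S z.1 z.2)) n - C0 z| with hW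
  have hsum : ∀ η ξ : Env d, N * X β h (sh m (xs η) η) k ≤
      N * C0 (η, ξ) + ∑ x' ∈ boxF d (m + r), W x' (η, ξ) + ∑ a, co a (xs η) ξ := by
    intro η ξ
    have h1 : ∑ _a : Fin d → Fin (s + 1), X β h (sh m (xs η) η) k ≤
        ∑ a : Fin d → Fin (s + 1), (C0 (η, ξ) + W (xs η - pos (wk s a) (s * d)) (η, ξ) +
          co a (xs η) ξ) := by
      refine Finset.sum_le_sum fun a _ => (hone η ξ a).trans ?_
      have h2 := le_abs_self (X β h (sh (m - r) (xs η - pos (wk s a) (s * d)) (sp S η ξ)) n -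
        C0 (η, ξ))
      simp only [hW]
      linarith
    rw [Finset.sum_add_distrib, Finset.sum_add_distrib, Finset.sum_const, Finset.sum_const,
      Finset.card_univ, nsmul_eq_mul, nsmul_eq_mul, hcard] at h1
    have h3 : ∑ a : Fin d → Fin (s + 1), W (xs η - pos (wk s a) (s * d)) (η, ξ) ≤
        ∑ x' ∈ boxF d (m + r), W x' (η, ξ) := by
      have hinj : Function.Injective fun a : Fin d → Fin (s + 1) =>
          xs η - pos (wk s a) (s * d) := fun a b hab => wk_inj s (sub_right_injective hab)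
      rw [← Finset.sum_image (f := fun x' => W x' (η, ξ))
        (g := fun a : Fin d → Fin (s + 1) => xs η - pos (wk s a) (s * d))
        (fun a _ b _ hab => hinj hab)]
      refine Finset.sum_le_sum_of_subset_of_nonneg ?_ fun x' _ _ => abs_nonneg _
      intro x' hx'
      obtain ⟨a, _, rfl⟩ := Finset.mem_image.1 hx'
      rw [mem_boxF]
      intro i
      have h4 := mem_boxF.1 (hxs η) i
      have h5 := mem_boxF.1 (pos_mem_box (wk s a) (s * d)) i
      rw [Pi.sub_apply]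
      refine (abs_sub _ _).trans ?_
      have h6 : ((s * d : ℕ) : ℤ) = r := by rw [hr]
      rw [h6] at h5
      push_cast
      linarith
    linarith
  have hmp : MeasurePreserving (fun z : Env d × Env d => sp S z.1 z.2)
      ((law d ρ).prod (law d ρ)) (law d ρ) := mp_sp (ρ := ρ) S
  have iC0 : Integrable C0 ((law d ρ).prod (law d ρ)) ∧
      ∫ z, C0 z ∂((law d ρ).prod (law d ρ)) = A ρ β h n := by
    have h1 := (mp_sh (ρ := ρ) (m - r) 0).comp hmp
    have h2 := (concU (ρ := ρ) hd hρ β h n).1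
    refine ⟨h1.integrable_comp_of_integrable h2, ?_⟩
    exact LawU_integral h1 (F := fun η : Env d => X β h η n) h2.aestronglyMeasurable
  have iW : ∀ x', Integrable (W x') ((law d ρ).prod (law d ρ)) ∧
      ∫ z, W x' z ∂((law d ρ).prod (law d ρ)) =
        ∫ η, |X β h (sh 0 x' η) n - X β h η n| ∂(law d ρ) := by
    intro x'
    have h1 := (mp_sh (ρ := ρ) (m - r) 0).comp hmp
    have h2 : Integrable (fun η : Env d => |X β h (sh 0 x' η) n - X β h η n|) (law d ρ) :=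
      (((mp_sh (ρ := ρ) 0 x').integrable_comp_of_integrable
        (concU (ρ := ρ) hd hρ β h n).1).sub (concU (ρ := ρ) hd hρ β h n).1).abs
    have e0 : W x' = (fun η : Env d => |X β h (sh 0 x' η) n - X β h η n|) ∘
        (sh (m - r) 0 ∘ fun z : Env d × Env d => sp S z.1 z.2) := by
      funext z
      simp only [hW, hC0, Function.comp]
      rw [sh_sh34, Nat.zero_add, add_zero]
    rw [e0]
    refine ⟨h1.integrable_comp_of_integrable h2, ?_⟩
    exact LawU_integral h1 (F := fun η : Env d => |X β h (sh 0 x' η) n - X β h η n|)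
      h2.aestronglyMeasurable
  have iX : ∀ l, Integrable (fun z : Env d × Env d => X β h (sp S z.1 z.2) l)
      ((law d ρ).prod (law d ρ)) ∧ ∫ z : Env d × Env d, X β h (sp S z.1 z.2) l
        ∂((law d ρ).prod (law d ρ)) = A ρ β h l := by
    intro l
    have h2 := (concU (ρ := ρ) hd hρ β h l).1
    exact ⟨hmp.integrable_comp_of_integrable h2, LawU_integral hmp
      (F := fun η : Env d => X β h η l) h2.aestronglyMeasurable⟩
  -- the bound for almost every future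
  have iWs : Integrable (fun z => ∑ x' ∈ boxF d (m + r), W x' z)
      ((law d ρ).prod (law d ρ)) := integrable_finsetSum _ fun x' _ => (iW x').1
  have hae : ∀ᵐ η ∂(law d ρ), ∫ ξ, X β h (sp S η ξ) (m + k) ∂(law d ρ) ≤
      (∫ ξ, X β h (sp S η ξ) m ∂(law d ρ)) + ((∫ ξ, C0 (η, ξ) ∂(law d ρ)) + c1 +
        (∫ ξ, ∑ x' ∈ boxF d (m + r), W x' (η, ξ) ∂(law d ρ)) / N) := by
    filter_upwards [iWs.prod_right_ae, (iX (m + k)).1.prod_right_ae, (iX m).1.prod_right_ae,
      iC0.1.prod_right_ae] with η h1 h2 h3 hc0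
    obtain ⟨M, hM⟩ : ∃ M, M = X β h (sh m (xs η) η) k := ⟨_, rfl⟩
    have i1 : Integrable (fun ξ => ∑ a, co a (xs η) ξ) (law d ρ) :=
      integrable_finsetSum _ fun a _ => (hcoI a _).1
    have hc0' : Integrable (fun ξ => N * C0 (η, ξ)) (law d ρ) := hc0.const_mul N
    have h4 : N * M ≤ N * (∫ ξ, C0 (η, ξ) ∂(law d ρ)) +
        (∫ ξ, ∑ x' ∈ boxF d (m + r), W x' (η, ξ) ∂(law d ρ)) + N * c1 := by
      have h5 : ∫ _ξ : Env d, N * M ∂(law d ρ) ≤ ∫ ξ, (N * C0 (η, ξ) +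
          ∑ x' ∈ boxF d (m + r), W x' (η, ξ) + ∑ a, co a (xs η) ξ) ∂(law d ρ) :=
        integral_mono (integrable_const _) ((hc0'.add h1).add i1) fun ξ => by
          rw [hM]
          exact hsum η ξ
      have i2 : Integrable (fun ξ => N * C0 (η, ξ) + ∑ x' ∈ boxF d (m + r), W x' (η, ξ))
          (law d ρ) := hc0'.add h1
      have hcm : ∫ ξ, N * C0 (η, ξ) ∂(law d ρ) = N * ∫ ξ, C0 (η, ξ) ∂(law d ρ) :=
        integral_const_mul N _
      rw [integral_add i2 i1, integral_add hc0' h1, hcm,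
        integral_finsetSum _ fun a _ => (hcoI a _).1] at h5
      simp only [(hcoI _ _).2, ← hc1] at h5
      rw [Finset.sum_const, Finset.card_univ, nsmul_eq_mul, hcard] at h5
      simp only [integral_const, probReal_univ, smul_eq_mul, one_mul] at h5
      exact h5
    have h6 : M ≤ (∫ ξ, C0 (η, ξ) ∂(law d ρ)) + c1 +
        (∫ ξ, ∑ x' ∈ boxF d (m + r), W x' (η, ξ) ∂(law d ρ)) / N := by
      rw [← sub_le_iff_le_add', le_div_iff₀ hN0]
      linarith
    have h7 : ∫ ξ, X β h (sp S η ξ) (m + k) ∂(law d ρ) ≤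
        ∫ ξ, (X β h (sp S η ξ) m + M) ∂(law d ρ) := by
      refine integral_mono h2 (h3.add (integrable_const _)) fun ξ => ?_
      refine X_le_max hd β h (sp S η ξ) m k fun x hx => ?_
      rw [hM]
      have h8 : X β h (sh m x (sp S η ξ)) k = X β h (sh m x η) k := sp_dep (hdep x) η ξ
      rw [h8]
      exact hxm η x hx
    rw [integral_add h3 (integrable_const _)] at h7
    simp only [integral_const, probReal_univ, smul_eq_mul, one_mul] at h7
    linarith
  have j0 : Integrable (fun η : Env d => ∫ ξ, C0 (η, ξ) ∂(law d ρ)) (law d ρ) :=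
    iC0.1.integral_prod_left
  have j1 : Integrable (fun η : Env d => ∫ ξ, X β h (sp S η ξ) m ∂(law d ρ)) (law d ρ) :=
    (iX m).1.integral_prod_left
  have j2 : Integrable (fun η : Env d =>
      (∫ ξ, ∑ x' ∈ boxF d (m + r), W x' (η, ξ) ∂(law d ρ)) / N) (law d ρ) :=
    iWs.integral_prod_left.div_const N
  have j02 : Integrable (fun η : Env d => (∫ ξ, C0 (η, ξ) ∂(law d ρ)) + c1) (law d ρ) :=
    j0.add (integrable_const c1)
  have j3 : Integrable (fun η : Env d => (∫ ξ, C0 (η, ξ) ∂(law d ρ)) + c1 +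
      (∫ ξ, ∑ x' ∈ boxF d (m + r), W x' (η, ξ) ∂(law d ρ)) / N) (law d ρ) := j02.add j2
  have hfin := integral_mono_ae (iX (m + k)).1.integral_prod_left (j1.add j3) hae
  have e1 : ∫ η, (∫ ξ, X β h (sp S η ξ) (m + k) ∂(law d ρ)) ∂(law d ρ) = A ρ β h (m + k) := by
    rw [← integral_prod _ (iX (m + k)).1]
    exact (iX (m + k)).2
  have e2 : ∫ η, (∫ ξ, X β h (sp S η ξ) m ∂(law d ρ)) ∂(law d ρ) = A ρ β h m := by
    rw [← integral_prod _ (iX m).1]
    exact (iX m).2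
  have e0 : ∫ η, (∫ ξ, C0 (η, ξ) ∂(law d ρ)) ∂(law d ρ) = A ρ β h n := by
    rw [← integral_prod _ iC0.1]
    exact iC0.2
  have e3 : ∫ η, (∫ ξ, ∑ x' ∈ boxF d (m + r), W x' (η, ξ) ∂(law d ρ)) ∂(law d ρ) ≤
      (2 * ((m + r : ℕ) : ℝ) + 1) ^ d * σ := by
    rw [← integral_prod _ iWs, integral_finsetSum _ fun x' _ => (iW x').1]
    refine (Finset.sum_le_sum fun x' hx' => (iW x').2.le.trans (hσ x' hx')).trans (le_of_eq ?_)
    rw [Finset.sum_const, Pool.Agent.W_7d29a1_V.card_boxF58, nsmul_eq_mul]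
    push_cast
    rfl
  have e4 : ∫ η, ((∫ ξ, X β h (sp S η ξ) m ∂(law d ρ)) + ((∫ ξ, C0 (η, ξ) ∂(law d ρ)) + c1 +
      (∫ ξ, ∑ x' ∈ boxF d (m + r), W x' (η, ξ) ∂(law d ρ)) / N)) ∂(law d ρ) =
      A ρ β h m + (A ρ β h n + c1 +
        (∫ η, (∫ ξ, ∑ x' ∈ boxF d (m + r), W x' (η, ξ) ∂(law d ρ)) ∂(law d ρ)) / N) := by
    rw [integral_add j1 j3, integral_add j02 j2, integral_add j0 (integrable_const c1),
      integral_div, e2, e0]
    simp only [integral_const, probReal_univ, smul_eq_mul, one_mul]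
  have h9 : A ρ β h (m + k) ≤ A ρ β h m + (A ρ β h n + c1 +
        (∫ η, (∫ ξ, ∑ x' ∈ boxF d (m + r), W x' (η, ξ) ∂(law d ρ)) ∂(law d ρ)) / N) := by
    rw [← e1, ← e4]
    exact hfin
  have h10 : (∫ η, (∫ ξ, ∑ x' ∈ boxF d (m + r), W x' (η, ξ) ∂(law d ρ)) ∂(law d ρ)) / N ≤
      ((2 * ((m + r : ℕ) : ℝ) + 1) / (s + 1)) ^ d * σ := by
    rw [div_pow, ← hN, div_mul_eq_mul_div]
    exact div_le_div_of_nonneg_right e3 hN0.le
  linarith

/-- **Small spatial increments at the length `n` force small increments behind `n`.** -/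
theorem incCS24 (hd : 0 < d) (hρ : EM ρ) (β : ℝ) (h : Vec d) (K : ℝ) (hK : 0 ≤ K) {ε : ℝ}
    (hε : 0 < ε) :
    ∃ m₁ : ℕ, ∀ m n : ℕ, m₁ ≤ m → m ≤ n →
      (∀ x ∈ boxF d (3 * m), ∫ η, |X β h (sh 0 x η) n - X β h η n| ∂(law d ρ) ≤ K) →
      A ρ β h (n + m) - A ρ β h n ≤ (lam ρ β h + ε) * m := by
  obtain ⟨C1, hC1⟩ : ∃ C1, C1 = ‖h‖ + |β| * ∫ t, |t| ∂ρ := ⟨_, rfl⟩
  have hC10 : 0 ≤ C1 := by
    rw [hC1]
    have : 0 ≤ ∫ t, |t| ∂ρ := integral_nonneg fun t => abs_nonneg t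
    positivity
  obtain ⟨C0, hC0⟩ : ∃ C0, C0 = C1 + |lam ρ β h| := ⟨_, rfl⟩
  have hC00 : 0 ≤ C0 := by
    rw [hC0]
    positivity
  obtain ⟨q, hq⟩ := exists_nat_ge (max (2 * d * C0 / ε) d)
  have hq1 : 2 * d * C0 / ε ≤ q := (le_max_left _ _).trans hq
  have hqd : d ≤ q := by exact_mod_cast (le_max_right (2 * d * C0 / ε) (d : ℝ)).trans hq
  have hq0 : 0 < q := by omega
  have hq0' : (0 : ℝ) < q := by exact_mod_cast hq0
  have hd' : (0 : ℝ) < d := by exact_mod_cast hd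
  obtain ⟨m₁, hm₁⟩ := exists_nat_ge (max 1 (2 * ((7 * q : ℝ) ^ d * K) / ε))
  refine ⟨m₁, fun m n hm hmn hV => ?_⟩
  have hm' : max 1 (2 * ((7 * q : ℝ) ^ d * K) / ε) ≤ (m : ℝ) :=
    hm₁.trans (by exact_mod_cast hm)
  have hm1 : (1 : ℝ) ≤ m := (le_max_left _ _).trans hm'
  have hmK : 2 * ((7 * q : ℝ) ^ d * K) / ε ≤ m := (le_max_right _ _).trans hm'
  obtain ⟨s, hs⟩ : ∃ s, s = m / q := ⟨_, rfl⟩
  have hsq : s * q ≤ m := by
    rw [hs]
    exact Nat.div_mul_le_self m q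
  have hsq' : m < (s + 1) * q := by
    rw [hs]
    have := Nat.lt_div_mul_add (a := m) hq0
    nlinarith
  have hr : s * d ≤ m := (Nat.mul_le_mul_left s hqd).trans hsq
  have h1 := incS24 (ρ := ρ) hd hρ β h n s (m + s * d) (by omega) (hr.trans hmn) (σ := K)
    (fun x hx => hV x (by
      rw [mem_boxF] at hx ⊢
      intro i
      refine (hx i).trans ?_
      exact_mod_cast (by omega : m + s * d + s * d ≤ 3 * m)))
  have h2 : m + s * d + (n - s * d) = n + m := by omega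
  rw [h2, ← hC1] at h1
  have h3 := A_le_lam (ρ := ρ) hd hρ β h (m + s * d)
  obtain ⟨r, hrr⟩ : ∃ r : ℝ, r = ((s * d : ℕ) : ℝ) := ⟨_, rfl⟩
  have hr0 : 0 ≤ r := by
    rw [hrr]
    exact Nat.cast_nonneg _
  have hrm : r ≤ m := by
    rw [hrr]
    exact_mod_cast hr
  have hrq : r * q ≤ m * d := by
    rw [hrr]
    have : s * d * q ≤ m * d := by nlinarith
    exact_mod_cast this
  have e1 : ((m + s * d : ℕ) : ℝ) = m + r := by
    rw [hrr]
    push_cast
    ring
  have e2 : ((m + s * d + s * d : ℕ) : ℝ) = m + r + r := by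
    rw [hrr]
    push_cast
    ring
  rw [e1] at h3
  rw [e2, ← hrr] at h1
  -- the volume factor
  have h4 : (2 * ((m : ℝ) + r + r) + 1) / (s + 1) ≤ 7 * q := by
    rw [div_le_iff₀ (by positivity)]
    have h5 : (m : ℝ) ≤ (s + 1) * q := by
      have : m ≤ (s + 1) * q := hsq'.le
      exact_mod_cast this
    nlinarith
  have h5 : ((2 * ((m : ℝ) + r + r) + 1) / (s + 1)) ^ d * K ≤ (7 * q : ℝ) ^ d * K :=
    mul_le_mul_of_nonneg_right (pow_le_pow_left₀ (by positivity) h4 d) hK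
  have h6 : (7 * q : ℝ) ^ d * K ≤ ε * m / 2 := by
    rw [div_le_iff₀ hε] at hmK
    linarith
  have h7 : C0 * r ≤ ε * m / 2 := by
    have h8 : 2 * d * C0 ≤ q * ε := by
      rw [div_le_iff₀ hε] at hq1
      exact hq1
    have h9 : C0 * (r * q) ≤ C0 * (m * d) := mul_le_mul_of_nonneg_left hrq hC00
    have h10 : (2 * d * C0) * m ≤ (q * ε) * m := mul_le_mul_of_nonneg_right h8 (by linarith)
    have h11 : (C0 * r) * q ≤ (ε * m / 2) * q := by nlinarith
    exact le_of_mul_le_mul_right h11 hq0'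
  have h8 : lam ρ β h * r ≤ |lam ρ β h| * r := mul_le_mul_of_nonneg_right (le_abs_self _) hr0
  have h9 : C0 * r = C1 * r + |lam ρ β h| * r := by
    rw [hC0]
    ring
  nlinarith


end Pool.Agent.W_7d29a1_NV24
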