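import Pool.Agent.W_7d29a1_NV24.CoreT24
import Pool.Agent.W_7d29a1_NV24.Mul24
import Pool.Agent.W_7d29a1_NV24.HI24
import Pool.Agent.W_7d29a1_NV24.IncS24
import Pool.Agent.W_7d29a1_NV.Lim34

/-!
Spatial roughness: in very strong disorder the spatial increments of the free energy are unbounded,
uniformly in all large lengths.
-/

set_option autoImplicit false

namespace Pool.Agent.W_7d29a1_NV24

open MeasureTheory ProbabilityTheory Filter Topology Pool.Agent.W_MP_7d29a1_pr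
  Pool.Agent.W_7d29a1_h46 Pool.Agent.W_7d29a1_h46u Pool.Agent.W_7d29a1_D2.B35
  Pool.Agent.W_7d29a1_Q29 Pool.Agent.W_7d29a1_NV

variable {d : ℕ} {ρ : Measure ℝ} [IsProbabilityMeasure ρ]

omit [IsProbabilityMeasure ρ] in
lemma rs_mono24 {Ω : Type} [MeasurableSpace Ω] {P : Measure Ω} {Θ : Env d → Ω → Env d}
    {k k' : ℕ} (H : Rs24 ρ k P Θ) (hk : k ≤ k') : Rs24 ρ k' P Θ :=
  ⟨H.meas, H.mp, fun η ξ p hp => H.row η ξ p (by omega), H.sw⟩

lemma yy_mem24 (hd : 0 < d) (k : ℕ) {j M : ℕ} (hj : j < M) :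
    yy24 hd k j ∈ boxF d (M * (2 * k + 1)) := by
  rw [mem_boxF]
  intro i
  unfold yy24
  rw [Pi.single_apply]
  split_ifs
  · rw [abs_of_nonneg (by positivity)]
    push_cast
    have h1 : (j : ℤ) + 1 ≤ M := by exact_mod_cast hj
    exact mul_le_mul_of_nonneg_right h1 (by positivity)
  · rw [abs_zero]
    positivity

lemma box_mono24 {r s : ℕ} (h : r ≤ s) {y : Site d} (hy : y ∈ boxF d r) : y ∈ boxF d s := by
  rw [mem_boxF] at hy ⊢
  intro i
  exact (hy i).trans (by exact_mod_cast h)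

lemma box_ex24 (z : Site d) : ∃ r : ℕ, z ∈ boxF d r := by
  refine ⟨∑ i, (z i).natAbs, ?_⟩
  rw [mem_boxF]
  intro i
  have h1 : (z i).natAbs ≤ ∑ i, (z i).natAbs :=
    Finset.single_le_sum (f := fun i => (z i).natAbs) (fun _ _ => Nat.zero_le _)
      (Finset.mem_univ i)
  have h2 : |z i| = ((z i).natAbs : ℤ) := Int.abs_eq_natAbs (z i)
  rw [h2]
  exact_mod_cast h1

/-- The mean spatial increment of the free energy. -/
noncomputable def sp24 (ρ : Measure ℝ) (β : ℝ) (h : Vec d) (n : ℕ) (y : Site d) : ℝ :=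
  ∫ η, |X β h (sh 0 y η) n - X β h η n| ∂(law d ρ)

lemma sp_step24 (hd : 0 < d) (hρ : EM ρ) (β : ℝ) (h : Vec d) (n j : ℕ) (y : Site d) {C : ℝ}
    (hC : ∫ η, (X β h η (n + j) - X β h η n) ^ 2 ∂(law d ρ) ≤ C) :
    sp24 ρ β h (n + j) y ≤ sp24 ρ β h n y + 2 * Real.sqrt C := by
  have hi : ∀ k, Integrable (fun η : Env d => X β h η k) (law d ρ) := fun k => intX24 hd hρ β h k
  have hs : ∀ k, Integrable (fun η : Env d => X β h (sh 0 y η) k) (law d ρ) := fun k =>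
    (memSh24 hd hρ β h k 0 y).integrable one_le_two
  have h1 : ∫ η, |X β h η (n + j) - X β h η n| ∂(law d ρ) ≤ Real.sqrt C := by
    have hm := ((memX24 (ρ := ρ) hd hρ β h (n + j)).sub (memX24 hd hρ β h n))
    refine (I34.abs_le_sqrt ((hi _).sub (hi _)) hm.integrable_sq).trans (Real.sqrt_le_sqrt hC)
  have m1 : Measurable fun η : Env d => |X β h η (n + j) - X β h η n| :=
    measurable_norm.comp ((measurable_X β h (n + j)).sub (measurable_X β h n))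
  have h2 : ∫ η, |X β h (sh 0 y η) (n + j) - X β h (sh 0 y η) n| ∂(law d ρ) ≤ Real.sqrt C := by
    rw [integral_sh (ρ := ρ) 0 y m1]
    exact h1
  have i1 : Integrable (fun η : Env d => |X β h (sh 0 y η) (n + j) - X β h (sh 0 y η) n|)
      (law d ρ) := ((hs _).sub (hs _)).abs
  have i2 : Integrable (fun η : Env d => |X β h (sh 0 y η) n - X β h η n|) (law d ρ) :=
    ((hs _).sub (hi _)).abs
  have i3 : Integrable (fun η : Env d => |X β h η (n + j) - X β h η n|) (law d ρ) :=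
    ((hi _).sub (hi _)).abs
  have i12 : Integrable (fun η : Env d => |X β h (sh 0 y η) (n + j) - X β h (sh 0 y η) n| +
      |X β h (sh 0 y η) n - X β h η n|) (law d ρ) := i1.add i2
  have h3 : sp24 ρ β h (n + j) y ≤ ∫ η, (|X β h (sh 0 y η) (n + j) - X β h (sh 0 y η) n| +
      |X β h (sh 0 y η) n - X β h η n| + |X β h η (n + j) - X β h η n|) ∂(law d ρ) := by
    refine integral_mono_of_nonneg (Eventually.of_forall fun _ => abs_nonneg _)
      (i12.add i3) (Eventually.of_forall fun η => ?_)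
    have e1 : X β h (sh 0 y η) (n + j) - X β h η (n + j) =
        (X β h (sh 0 y η) (n + j) - X β h (sh 0 y η) n) +
        (X β h (sh 0 y η) n - X β h η n) - (X β h η (n + j) - X β h η n) := by ring
    simp only
    rw [e1]
    refine (abs_sub _ _).trans (add_le_add (abs_add_le _ _) le_rfl)
  rw [integral_add i12 i3, integral_add i1 i2] at h3
  unfold sp24 at h3 ⊢
  linarith

/-- **Theorem SR (spatial roughness).** -/
theorem sr24 (hd : 0 < d) (hρ : EM ρ) {β b : ℝ} (hb : HB ρ b) (hW : MixT d ρ b)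
    (hC : CoreT24 d ρ β b) (hM : Mul24 d ρ β) (h : Vec d) (hV : VSD ρ β h) (K : ℝ) :
    ∃ R n₀ : ℕ, ∀ n : ℕ, n₀ ≤ n → ∃ y ∈ boxF d R, K < sp24 ρ β h n y := by
  by_contra hcon
  have hfr : ∀ R n₀ : ℕ, ∃ n : ℕ, n₀ ≤ n ∧ ∀ y ∈ boxF d R, sp24 ρ β h n y ≤ K := by
    intro R n₀
    by_contra hc
    refine hcon ⟨R, n₀, fun n hn => ?_⟩
    by_contra hc2
    refine hc ⟨n, hn, fun y hy => ?_⟩
    by_contra hc3
    exact hc2 ⟨y, hy, not_le.1 hc3⟩
  have hK0 : 0 ≤ K := by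
    obtain ⟨n, _, hn⟩ := hfr 0 0
    exact (integral_nonneg fun _ => abs_nonneg _).trans (hn 0 (zero_mem_boxF 0))
  -- the gap
  obtain ⟨g, hg⟩ : ∃ g : ℝ, g = Real.log (Phi h) + Real.log (∫ t, Real.exp (β * t) ∂ρ) -
    lam ρ β h := ⟨_, rfl⟩
  have hg0 : 0 < g := by
    have h1 : lam ρ β h < Real.log (Phi h) + Real.log (∫ t, Real.exp (β * t) ∂ρ) := hV
    rw [hg]
    linarith
  -- a nearby length with a small increment
  obtain ⟨J₁, hJ₁⟩ := incCS24 (ρ := ρ) hd hρ β h K hK0 (ε := g / 4) (by linarith)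
  obtain ⟨J, hJ⟩ : ∃ J, J = max J₁ 1 := ⟨_, rfl⟩
  have hJ1 : 1 ≤ J := by
    rw [hJ]
    exact le_max_right _ _
  obtain ⟨C2, hC2⟩ : ∃ C2 : ℝ, C2 = 2 * Real.log (Phi h) ^ 2 +
        2 * ((∫ r, Real.exp (β * r) ∂ρ) + ∫ r, Real.exp (-β * r) ∂ρ) := ⟨_, rfl⟩
  have hC20 : 0 ≤ C2 := by
    rw [hC2]
    have h1 : 0 ≤ ∫ r, Real.exp (β * r) ∂ρ := integral_nonneg fun r => (Real.exp_pos _).le
    have h2 : 0 ≤ ∫ r, Real.exp (-β * r) ∂ρ := integral_nonneg fun r => (Real.exp_pos _).le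
    positivity
  obtain ⟨K', hK'⟩ : ∃ K' : ℝ, K' = K + 2 * Real.sqrt (C2 * (J : ℝ) ^ 2) := ⟨_, rfl⟩
  have hKK' : K ≤ K' := by
    rw [hK']
    have := Real.sqrt_nonneg (C2 * (J : ℝ) ^ 2)
    linarith
  have hK'0 : 0 ≤ K' := hK0.trans hKK'
  have hnear : ∀ R n : ℕ, 3 * J ≤ R → J ≤ n → (∀ y ∈ boxF d R, sp24 ρ β h n y ≤ K) →
      ∃ n' : ℕ, n ≤ n' ∧ 1 ≤ n' ∧ A ρ β h n' - A ρ β h (n' - 1) ≤ lam ρ β h + g / 2 ∧
        ∀ y ∈ boxF d R, sp24 ρ β h n' y ≤ K' := by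
    intro R n hR hn hVn
    have h1 := hJ₁ J n (by rw [hJ]; exact le_max_left _ _) hn
      (fun x hx => hVn x (box_mono24 hR hx))
    obtain ⟨j, hj1, hjJ, hj⟩ := I34.exists_inc (fun n => A ρ β h n) n hJ1 h1
    refine ⟨n + j, by omega, by omega, ?_, fun y hy => ?_⟩
    · linarith
    · have h2 := Inc27.steps27 (ρ := ρ) hd hρ β h n j
      rw [← hC2] at h2
      have h3 : (j : ℝ) ^ 2 ≤ (J : ℝ) ^ 2 :=
        pow_le_pow_left₀ (Nat.cast_nonneg j) (by exact_mod_cast hjJ) 2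
      have h4 := mul_le_mul_of_nonneg_left h3 hC20
      have h5 := sp_step24 hd hρ β h n j y (h2.trans h4)
      have h6 := hVn y hy
      rw [hK']
      linarith
  -- the core and the multiplicity
  obtain ⟨ε, δ, b₂, hε, hδ, hcor⟩ := hC h g (2 * K' + 1) hg0 (by rw [hg]; linarith)
  obtain ⟨k₁, u, b₁, hk₁, hu, hmul⟩ := hM h hV ε hε
  have hk0 : (0 : ℝ) < k₁ := by exact_mod_cast hk₁
  obtain ⟨ε₂, hε₂⟩ : ∃ ε₂ : ℝ, ε₂ = δ * u / (16 * k₁) := ⟨_, rfl⟩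
  have hε₂0 : 0 < ε₂ := by
    rw [hε₂]
    positivity
  obtain ⟨m₁, hm₁⟩ := incCS24 (ρ := ρ) hd hρ β h K' hK'0 hε₂0
  obtain ⟨m₂, hm₂⟩ := I34.small_m (ρ := ρ) hd hρ β h ((6 * K' + 2) ^ 2) hε₂0
  obtain ⟨b₀, hb₀⟩ : ∃ b₀ : ℝ, b₀ = max (max b₂ b₁) (max u (u * (max m₁ m₂ : ℕ))) := ⟨_, rfl⟩
  have hb2 : b₂ ≤ b₀ := by
    rw [hb₀]
    exact (le_max_left _ _).trans (le_max_left _ _)
  have hb1 : b₁ ≤ b₀ := by
    rw [hb₀]
    exact (le_max_right _ _).trans (le_max_left _ _)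
  have hbu : u ≤ b₀ := by
    rw [hb₀]
    exact (le_max_left _ _).trans (le_max_right _ _)
  have hbm : u * (max m₁ m₂ : ℕ) ≤ b₀ := by
    rw [hb₀]
    exact (le_max_right _ _).trans (le_max_right _ _)
  have hb0 : 0 < b₀ := hu.trans_le hbu
  obtain ⟨T₀, n₀, hn₀⟩ := hcor b₀ hb2
  obtain ⟨z0, hz0⟩ := hmul b₀ hb1
  obtain ⟨m, hm⟩ : ∃ m, m = k₁ * ⌈b₀ / u⌉₊ := ⟨_, rfl⟩
  rw [← hm] at hz0
  have hmm : max m₁ m₂ ≤ m := by
    have h1 : ((max m₁ m₂ : ℕ) : ℝ) ≤ b₀ / u := by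
      rw [le_div_iff₀ hu]
      linarith
    have h2 : max m₁ m₂ ≤ ⌈b₀ / u⌉₊ := by exact_mod_cast h1.trans (Nat.le_ceil _)
    rw [hm]
    exact h2.trans (Nat.le_mul_of_pos_left _ hk₁)
  have hmu : (m : ℝ) ≤ 2 * k₁ * b₀ / u := by
    have h1 : (⌈b₀ / u⌉₊ : ℝ) ≤ b₀ / u + 1 := (Nat.ceil_lt_add_one (by positivity)).le
    have h2 : 1 ≤ b₀ / u := by
      rw [le_div_iff₀ hu]
      linarith
    rw [hm]
    push_cast
    calc (k₁ : ℝ) * ⌈b₀ / u⌉₊ ≤ k₁ * (2 * (b₀ / u)) :=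
          mul_le_mul_of_nonneg_left (by linarith) hk0.le
      _ = 2 * k₁ * b₀ / u := by ring
  -- the number of columns
  obtain ⟨M, hMM⟩ := exists_nat_ge (max 1 (Ck24 d ρ β T₀))
  have hM1 : 0 < M := by
    have h1 : (1 : ℝ) ≤ M := (le_max_left _ _).trans hMM
    have : (0 : ℝ) < M := by linarith
    exact_mod_cast this
  have hMC : Real.sqrt (Ck24 d ρ β T₀ / M) ≤ 1 := by
    have hM0 : (0 : ℝ) < M := by exact_mod_cast hM1
    rw [Real.sqrt_le_left one_pos.le, one_pow, div_le_one hM0]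
    exact (le_max_right _ _).trans hMM
  obtain ⟨Rz, hRz⟩ := box_ex24 z0
  obtain ⟨R, hR⟩ : ∃ R, R = max (max (3 * J) (3 * m)) (max Rz (M * (2 * T₀ + 1))) := ⟨_, rfl⟩
  have hR1 : 3 * J ≤ R := by rw [hR]; exact (le_max_left _ _).trans (le_max_left _ _)
  have hR2 : 3 * m ≤ R := by rw [hR]; exact (le_max_right _ _).trans (le_max_left _ _)
  have hR3 : Rz ≤ R := by rw [hR]; exact (le_max_left _ _).trans (le_max_right _ _)
  have hR4 : M * (2 * T₀ + 1) ≤ R := by rw [hR]; exact (le_max_right _ _).trans (le_max_right _ _)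
  -- the length
  obtain ⟨n, hnN, hnV⟩ := hfr R (max (max n₀ J) (max m T₀))
  obtain ⟨n', hnn', hn1, hinc, hVn'⟩ := hnear R n hR1
    (((le_max_right n₀ J).trans (le_max_left _ _)).trans hnN) hnV
  have hn'0 : n₀ ≤ n' := (((le_max_left n₀ J).trans (le_max_left _ _)).trans hnN).trans hnn'
  have hn'm : m ≤ n' := (((le_max_left _ _).trans (le_max_right _ _)).trans hnN).trans hnn'
  have hn'T : T₀ ≤ n' := (((le_max_right _ _).trans (le_max_right _ _)).trans hnN).trans hnn'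
  -- any resampling of the rows `≤ T₀`
  have hres : ∀ {Ω : Type} [MeasurableSpace Ω] {P : Measure Ω} [IsProbabilityMeasure P]
      {Θ : Env d → Ω → Env d}, Rs24 ρ T₀ P Θ →
      ∫ w, |X β h (Θ w.1 w.2.1) n' - X β h (Θ w.1 w.2.2) n'| ∂((law d ρ).prod (P.prod P)) ≤
        2 * K' + 1 := by
    intro Ω _ P _ Θ H
    refine (hr24 hd hρ H β h n' hM1 (s := K') fun j hj => ?_).trans (by linarith)
    exact hVn' _ (box_mono24 hR4 (yy_mem24 hd T₀ hj))
  obtain ⟨q, T, hTi, hTT, hlt⟩ := hn₀ n' hn'0 (fun τ hτ1 hτT => by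
    have h1 := hz0 n' τ (hτT.trans hn'T)
    have hr1 := (U_dist24 hd hρ β h n' τ).trans (hres (rs_mono24 (rs_spl24 τ) hτT))
    have h2 := hi24 hd hρ β h (n := n') (m := m) (τ := τ) (R := R) z0 (by omega)
      (box_mono24 hR3 hRz) hr1 (fun v hv => hVn' v hv)
    obtain ⟨h3, h4, h5⟩ := hm₂ m ((le_max_right _ _).trans hmm)
    rw [Real.sqrt_sq (by linarith)] at h5
    have h6 := hm₁ m n' ((le_max_left _ _).trans hmm) hn'm
      (fun x hx => hVn' x (box_mono24 hR2 hx))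
    have h7 : b₀ * (law d ρ).real {η | ¬ GoodN β h n' τ b₀ ε η} ≤ 8 * (ε₂ * m) := by
      refine h1.trans ?_
      linarith
    have h8 : 8 * (ε₂ * m) ≤ b₀ * δ := by
      have h9 : 8 * (ε₂ * m) ≤ 8 * (ε₂ * (2 * k₁ * b₀ / u)) := by
        refine mul_le_mul_of_nonneg_left ?_ (by norm_num)
        exact mul_le_mul_of_nonneg_left hmu hε₂0.le
      refine h9.trans (le_of_eq ?_)
      rw [hε₂]
      field_simp
      ring
    exact le_of_mul_le_mul_left (h7.trans h8) hb0) hinc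
  haveI := M66.prob_rb hb
  exact absurd (hres (rs_mxJ24 hb hW hTi hTT)) (not_le.2 hlt)

end Pool.Agent.W_7d29a1_NV24
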