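import Pool.Agent.W_7d29a1_NV24.HR24
import Pool.Agent.W_7d29a1_NV24.SR24

/-!
Spatial roughness: one far column is enough; the parity of the walks.
-/

set_option autoImplicit false

namespace Pool.Agent.W_7d29a1_NV24

open MeasureTheory ProbabilityTheory Filter Topology Pool.Agent.W_MP_7d29a1_pr
  Pool.Agent.W_7d29a1_h46 Pool.Agent.W_7d29a1_h46u Pool.Agent.W_7d29a1_D2.B35
  Pool.Agent.W_7d29a1_Q29 Pool.Agent.W_7d29a1_NV

variable {d : ℕ} {ρ : Measure ℝ}

/-- The sites which a walk from the origin can reach at the even times. -/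
def Ev24 (y : Site d) : Prop := Even (∑ i, y i)

lemma ev_sub24 {x y : Site d} (hx : Ev24 x) (hy : Ev24 y) : Ev24 (x - y) := by
  unfold Ev24 at *
  simp only [Pi.sub_apply, Finset.sum_sub_distrib]
  exact hx.sub hy

/-- The parity of the position of a walk. -/
lemma pos_par24 {m : ℕ} (s : Fin m → Step d) (t : ℕ) (ht : t ≤ m) :
    Even ((∑ i, pos s t i) - (t : ℤ)) := by
  induction t with
  | zero =>
    have h1 : pos s 0 = 0 := by
      unfold pos
      simp
    rw [h1]
    simp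
  | succ t ih =>
    have h1 : pos s (t + 1) = pos s t + vec (s ⟨t, by omega⟩) := by
      unfold pos
      have e1 : ∀ i : Fin m, (if (i : ℕ) < t + 1 then vec (s i) else 0) =
          (if (i : ℕ) < t then vec (s i) else 0) +
            (if i = (⟨t, by omega⟩ : Fin m) then vec (s i) else 0) := by
        intro i
        by_cases h2 : (i : ℕ) < t
        · rw [if_pos (by omega), if_pos h2, if_neg (by
            intro h3
            rw [h3] at h2
            simp at h2), add_zero]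
        · by_cases h3 : i = (⟨t, by omega⟩ : Fin m)
          · rw [if_neg h2, if_pos h3, if_pos (by rw [h3]; simp), zero_add]
          · rw [if_neg h2, if_neg h3, if_neg (by
              intro h4
              apply h3
              apply Fin.ext
              simp only
              omega), zero_add]
      rw [Finset.sum_congr rfl fun i _ => e1 i, Finset.sum_add_distrib,
        Finset.sum_ite_eq' Finset.univ (⟨t, by omega⟩ : Fin m) (fun i => vec (s i))]
      simp
    have h2 : ∀ e : Step d, Odd (∑ i, vec e i) := by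
      intro e
      have h3 : ∑ i, vec e i = vec e e.1 := by
        refine Finset.sum_eq_single e.1 (fun j _ hj => ?_) (fun h => absurd (Finset.mem_univ _) h)
        unfold vec
        exact Pi.single_eq_of_ne hj _
      rw [h3]
      unfold vec
      rw [Pi.single_eq_same]
      split_ifs
      · exact odd_one
      · exact ⟨-1, by norm_num⟩
    have h3 := ih (by omega)
    rw [h1]
    simp only [Pi.add_apply, Finset.sum_add_distrib]
    have h4 := h2 (s ⟨t, by omega⟩)
    obtain ⟨a, ha⟩ := h3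
    obtain ⟨c, hc⟩ := h4
    refine ⟨a + c, ?_⟩
    push_cast
    linarith

lemma ev_pos24 {m m' : ℕ} (s : Fin m → Step d) (s' : Fin m' → Step d) {t t' : ℕ} (ht : t ≤ m)
    (ht' : t' ≤ m') (h : Even ((t : ℤ) - t')) : Ev24 (pos s t - pos s' t') := by
  obtain ⟨a, ha⟩ := pos_par24 s t ht
  obtain ⟨c, hc⟩ := pos_par24 s' t' ht'
  obtain ⟨e, he⟩ := h
  unfold Ev24
  simp only [Pi.sub_apply, Finset.sum_sub_distrib]
  exact ⟨a - c + e, by linarith⟩

/-- The far even column. -/
def yc24 (hd : 0 < d) (k : ℕ) : Site d := Pi.single ⟨0, hd⟩ (2 * k + 2 : ℤ)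

lemma yc_ev24 (hd : 0 < d) (k : ℕ) : Ev24 (yc24 hd k) := by
  unfold Ev24 yc24
  rw [Finset.sum_eq_single (⟨0, hd⟩ : Fin d) (fun j _ hj => Pi.single_eq_of_ne hj _)
    (fun h => absurd (Finset.mem_univ _) h), Pi.single_eq_same]
  exact ⟨k + 1, by ring⟩

lemma yc_box24 (hd : 0 < d) (k : ℕ) : yc24 hd k ∈ boxF d (2 * k + 2) := by
  rw [mem_boxF]
  intro i
  unfold yc24
  rw [Pi.single_apply]
  split_ifs
  · rw [abs_of_nonneg (by positivity)]
    push_cast
    exact le_rfl
  · rw [abs_zero]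
    positivity

variable [IsProbabilityMeasure ρ]

section Rs

variable {Ω : Type} [MeasurableSpace Ω] {P : Measure Ω} [IsProbabilityMeasure P]
  {Θ : Env d → Ω → Env d} {k : ℕ}

/-- (HR) Two resamplings of the first rows: the free energies differ as little as those of one far
column. -/
theorem hre24 (hd : 0 < d) (hρ : EM ρ) (H : Rs24 ρ k P Θ) (β : ℝ) (h : Vec d) (n : ℕ)
    {y : Site d} (hy : ∃ c, (2 * k : ℤ) < |y c|) :
    ∫ w, |X β h (Θ w.1 w.2.1) n - X β h (Θ w.1 w.2.2) n| ∂((law d ρ).prod (P.prod P)) ≤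
      2 * sp24 ρ β h n y := by
  obtain ⟨c, hc⟩ := hy
  set μW := (law d ρ).prod (P.prod P) with hμW
  obtain ⟨f, hf, hfe⟩ := H.sw {x | x - y ∈ boxF d k}
  have hmp : MeasurePreserving (fun w : Env d × (Ω × Ω) => (w.1, f w.2)) μW μW :=
    (MeasurePreserving.id (law d ρ)).prod hf
  have hm : ∀ y, Measurable (Df24 β h n Θ y) := fun y =>
    (((measurable_X β h n).comp (measurable_sh 0 y)).comp (mp1_24 H).measurable).sub
      (((measurable_X β h n).comp (measurable_sh 0 y)).comp (mp2_24 H).measurable)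
  have hI : ∀ y, Integrable (Df24 β h n Θ y) μW := fun y =>
    (memDf24 hd hρ H β h n y).integrable one_le_two
  have hnear : ∀ p : ℕ × Site d, p.2 ∈ boxF d p.1 → p.1 ≤ k →
      p.2 + y ∈ ({x | x - y ∈ boxF d k} : Set (Site d)) := by
    intro p hp hk
    change p.2 + y - y ∈ boxF d k
    rw [add_sub_cancel_right]
    rw [mem_boxF] at hp ⊢
    intro i
    refine (hp i).trans ?_
    exact_mod_cast hk
  have hfar : ∀ p : ℕ × Site d, p.2 ∈ boxF d p.1 → p.1 ≤ k →
      p.2 + 0 ∉ ({x | x - y ∈ boxF d k} : Set (Site d)) := by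
    intro p hp hk hmem
    change p.2 + 0 - y ∈ boxF d k at hmem
    rw [add_zero] at hmem
    rw [mem_boxF] at hp hmem
    have h2 := hp c
    have h3 := hmem c
    have h4 : (p.1 : ℤ) ≤ k := by exact_mod_cast hk
    rw [Pi.sub_apply] at h3
    have h6 : |y c| ≤ |p.2 c| + |p.2 c - y c| := by
      have := abs_sub (p.2 c) (p.2 c - y c)
      rwa [sub_sub_cancel] at this
    omega
  have ey : ∀ w : Env d × (Ω × Ω), Df24 β h n Θ y (w.1, f w.2) = -Df24 β h n Θ y w := by
    intro w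
    unfold Df24
    have a1 : X β h (sh 0 y (Θ w.1 (f w.2).1)) n = X β h (sh 0 y (Θ w.1 w.2.2)) n := by
      refine X_congr24 β h n fun p hp => ?_
      unfold sh
      by_cases hk : p.1 ≤ k
      · exact ((hfe w.1 w.2 (p.1 + 0, p.2 + y)).1 (hnear p hp hk)).1
      · rw [H.row _ _ _ (by simpa using hk), H.row _ _ _ (by simpa using hk)]
    have a2 : X β h (sh 0 y (Θ w.1 (f w.2).2)) n = X β h (sh 0 y (Θ w.1 w.2.1)) n := by
      refine X_congr24 β h n fun p hp => ?_
      unfold sh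
      by_cases hk : p.1 ≤ k
      · exact ((hfe w.1 w.2 (p.1 + 0, p.2 + y)).1 (hnear p hp hk)).2
      · rw [H.row _ _ _ (by simpa using hk), H.row _ _ _ (by simpa using hk)]
    simp only [a1, a2]
    ring
  have ez : ∀ w : Env d × (Ω × Ω), Df24 β h n Θ 0 (w.1, f w.2) = Df24 β h n Θ 0 w := by
    intro w
    unfold Df24
    have a1 : X β h (sh 0 0 (Θ w.1 (f w.2).1)) n = X β h (sh 0 0 (Θ w.1 w.2.1)) n := by
      refine X_congr24 β h n fun p hp => ?_
      unfold sh
      by_cases hk : p.1 ≤ k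
      · exact ((hfe w.1 w.2 (p.1 + 0, p.2 + 0)).2 (hfar p hp hk)).1
      · rw [H.row _ _ _ (by simpa using hk), H.row _ _ _ (by simpa using hk)]
    have a2 : X β h (sh 0 0 (Θ w.1 (f w.2).2)) n = X β h (sh 0 0 (Θ w.1 w.2.2)) n := by
      refine X_congr24 β h n fun p hp => ?_
      unfold sh
      by_cases hk : p.1 ≤ k
      · exact ((hfe w.1 w.2 (p.1 + 0, p.2 + 0)).2 (hfar p hp hk)).2
      · rw [H.row _ _ _ (by simpa using hk), H.row _ _ _ (by simpa using hk)]
    simp only [a1, a2]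
  have mM : Measurable fun w => |Df24 β h n Θ 0 w - Df24 β h n Θ y w| :=
    measurable_norm.comp ((hm 0).sub (hm y))
  have h1 : ∫ w, |Df24 β h n Θ 0 w + Df24 β h n Θ y w| ∂μW =
      ∫ w, |Df24 β h n Θ 0 w - Df24 β h n Θ y w| ∂μW := by
    have h2 := LawU_integral hmp (F := fun w => |Df24 β h n Θ 0 w - Df24 β h n Θ y w|)
      mM.aestronglyMeasurable
    simp only [ey, ez, sub_neg_eq_add] at h2
    exact h2
  have g1 : Integrable (fun η : Env d => |X β h (sh 0 y η) n - X β h η n|) (law d ρ) :=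
    (((memSh24 hd hρ β h n 0 y).integrable one_le_two).sub (intX24 hd hρ β h n)).abs
  have g2 := (mp1_24 H).integrable_comp_of_integrable g1
  have g3 := (mp2_24 H).integrable_comp_of_integrable g1
  have sh00 : ∀ η : Env d, sh 0 0 η = η := by
    intro η
    funext p
    unfold sh
    simp
  have h2 : ∫ w, |Df24 β h n Θ 0 w - Df24 β h n Θ y w| ∂μW ≤ 2 * sp24 ρ β h n y := by
    have e2 : ∫ w : Env d × (Ω × Ω), |X β h (sh 0 y (Θ w.1 w.2.1)) n - X β h (Θ w.1 w.2.1) n|
        ∂μW = sp24 ρ β h n y := LawU_integral (mp1_24 H)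
      (F := fun η : Env d => |X β h (sh 0 y η) n - X β h η n|) g1.aestronglyMeasurable
    have e3 : ∫ w : Env d × (Ω × Ω), |X β h (sh 0 y (Θ w.1 w.2.2)) n - X β h (Θ w.1 w.2.2) n|
        ∂μW = sp24 ρ β h n y := LawU_integral (mp2_24 H)
      (F := fun η : Env d => |X β h (sh 0 y η) n - X β h η n|) g1.aestronglyMeasurable
    have h3 := integral_mono (μ := μW) ((hI 0).sub (hI y)).abs (g2.add g3) fun w => by
      show |Df24 β h n Θ 0 w - Df24 β h n Θ y w| ≤
        |X β h (sh 0 y (Θ w.1 w.2.1)) n - X β h (Θ w.1 w.2.1) n| +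
        |X β h (sh 0 y (Θ w.1 w.2.2)) n - X β h (Θ w.1 w.2.2) n|
      unfold Df24
      rw [sh00, sh00]
      have e4 : X β h (Θ w.1 w.2.1) n - X β h (Θ w.1 w.2.2) n -
          (X β h (sh 0 y (Θ w.1 w.2.1)) n - X β h (sh 0 y (Θ w.1 w.2.2)) n) =
          (X β h (sh 0 y (Θ w.1 w.2.2)) n - X β h (Θ w.1 w.2.2) n) -
          (X β h (sh 0 y (Θ w.1 w.2.1)) n - X β h (Θ w.1 w.2.1) n) := by ring
      rw [e4, add_comm]
      exact abs_sub _ _
    have h4 : ∫ w : Env d × (Ω × Ω),
        ((fun η : Env d => |X β h (sh 0 y η) n - X β h η n|) ∘ fun w => Θ w.1 w.2.1) w +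
        ((fun η : Env d => |X β h (sh 0 y η) n - X β h η n|) ∘ fun w => Θ w.1 w.2.2) w ∂μW =
        sp24 ρ β h n y + sp24 ρ β h n y := by
      rw [integral_add g2 g3]
      exact congrArg₂ (· + ·) e2 e3
    have h5 := h3.trans (le_of_eq h4)
    have h6 : ∫ w, |Df24 β h n Θ 0 w - Df24 β h n Θ y w| ∂μW ≤
        sp24 ρ β h n y + sp24 ρ β h n y := h5
    linarith
  have i1 : Integrable (fun w => |Df24 β h n Θ 0 w - Df24 β h n Θ y w|) μW :=
    ((hI 0).sub (hI y)).abs
  have i2 : Integrable (fun w => |Df24 β h n Θ 0 w + Df24 β h n Θ y w|) μW :=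
    ((hI 0).add (hI y)).abs
  have i3 : Integrable (fun w => 2 * |Df24 β h n Θ 0 w|) μW := (hI 0).abs.const_mul 2
  have h3 := integral_mono (μ := μW) i3 (i1.add i2) fun w => by
    show 2 * |Df24 β h n Θ 0 w| ≤ |Df24 β h n Θ 0 w - Df24 β h n Θ y w| +
      |Df24 β h n Θ 0 w + Df24 β h n Θ y w|
    have h4 := abs_add_le (Df24 β h n Θ 0 w - Df24 β h n Θ y w)
      (Df24 β h n Θ 0 w + Df24 β h n Θ y w)
    have h5 : Df24 β h n Θ 0 w - Df24 β h n Θ y w + (Df24 β h n Θ 0 w + Df24 β h n Θ y w) =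
        2 * Df24 β h n Θ 0 w := by ring
    rw [h5, abs_mul, abs_two] at h4
    exact h4
  have h4 : ∫ w, 2 * |Df24 β h n Θ 0 w| ∂μW = 2 * ∫ w, |Df24 β h n Θ 0 w| ∂μW :=
    integral_const_mul 2 _
  have h5 : ∫ w, ((fun w => |Df24 β h n Θ 0 w - Df24 β h n Θ y w|) +
      fun w => |Df24 β h n Θ 0 w + Df24 β h n Θ y w|) w ∂μW =
      (∫ w, |Df24 β h n Θ 0 w - Df24 β h n Θ y w| ∂μW) +
        ∫ w, |Df24 β h n Θ 0 w + Df24 β h n Θ y w| ∂μW := integral_add i1 i2
  have h6 : ∫ w, |Df24 β h n Θ 0 w| ∂μW =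
      ∫ w, |X β h (Θ w.1 w.2.1) n - X β h (Θ w.1 w.2.2) n| ∂μW := by
    refine integral_congr_ae (Eventually.of_forall fun w => ?_)
    unfold Df24
    simp only [sh00]
  rw [h4] at h3
  rw [h5, h1] at h3
  rw [← h6]
  linarith

end Rs

end Pool.Agent.W_7d29a1_NV24
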