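import Pool.Agent.W_7d29a1_NV24.Sw24
import Pool.Agent.W_7d29a1_NV.TwoP66

/-!
Spatial roughness: a resampling of the first rows moves the free energy as little as a spatial
shift.
-/

namespace Pool.Agent.W_7d29a1_NV24

open MeasureTheory ProbabilityTheory Filter Topology Pool.Agent.W_MP_7d29a1_pr
  Pool.Agent.W_7d29a1_h46 Pool.Agent.W_7d29a1_h46u Pool.Agent.W_7d29a1_D2.B35
  Pool.Agent.W_7d29a1_Q29 Pool.Agent.W_7d29a1_NV

variable {d : ℕ} {ρ : Measure ℝ} [IsProbabilityMeasure ρ]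

lemma intX24 (hd : 0 < d) (hρ : EM ρ) (β : ℝ) (h : Vec d) (n : ℕ) :
    Integrable (fun η : Env d => X β h η n) (law d ρ) := (concU hd hρ β h n).1

lemma memX24 (hd : 0 < d) (hρ : EM ρ) (β : ℝ) (h : Vec d) (n : ℕ) :
    MemLp (fun η : Env d => X β h η n) 2 (law d ρ) := by
  have h1 : MemLp (fun η : Env d => X β h η n - A ρ β h n) 2 (law d ρ) := by
    rw [memLp_two_iff_integrable_sq ((measurable_X β h n).sub_const _).aestronglyMeasurable]
    rcases Nat.eq_zero_or_pos n with hn | hn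
    · have h7 : ∀ η : Env d, X β h η n = 0 := by
        intro η
        rw [hn]
        unfold X
        rw [Z_zero, Real.log_one]
      simp only [h7]
      exact integrable_const _
    · obtain ⟨C, _, hC⟩ := momU (ρ := ρ) hd hρ β 2
      have := (hC h n hn).1
      simpa only [sq_abs] using this
  have h2 := h1.add (memLp_const (A ρ β h n))
  refine h2.congr_norm (measurable_X β h n).aestronglyMeasurable (Eventually.of_forall fun η => ?_)
  simp

lemma memSh24 (hd : 0 < d) (hρ : EM ρ) (β : ℝ) (h : Vec d) (n t : ℕ) (y : Site d) :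
    MemLp (fun η : Env d => X β h (sh t y η) n) 2 (law d ρ) :=
  (memX24 hd hρ β h n).comp_measurePreserving (mp_sh t y)

/-- The column `j` of the comparison. -/
def yy24 (hd : 0 < d) (k j : ℕ) : Site d := Pi.single ⟨0, hd⟩ (((j : ℤ) + 1) * (2 * k + 1))

omit [IsProbabilityMeasure ρ] in
/-- The mean square of a value of the environment. -/
lemma int_sq24 (hρ : EM ρ) : Integrable (fun x : ℝ => x ^ 2) ρ := by
  have h1 := (hρ 1).add (hρ (-1))
  refine Integrable.mono' (h1.const_mul 2) (by fun_prop) (Eventually.of_forall fun x => ?_)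
  rw [Real.norm_eq_abs, abs_of_nonneg (sq_nonneg x)]
  have h2 := Real.quadratic_le_exp_of_nonneg (abs_nonneg x)
  have h3 : Real.exp |x| ≤ Real.exp x + Real.exp (-x) := by
    rcases abs_cases x with ⟨h, _⟩ | ⟨h, _⟩ <;> rw [h] <;> linarith [Real.exp_pos x, Real.exp_pos (-x)]
  rw [sq_abs] at h2
  simp only [Pi.add_apply, one_mul, neg_mul]
  nlinarith [abs_nonneg x]

lemma int_site24 (hρ : EM ρ) (p : ℕ × Site d) :
    Integrable (fun η : Env d => (η p) ^ 2) (law d ρ) ∧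
      ∫ η : Env d, (η p) ^ 2 ∂(law d ρ) = ∫ x, x ^ 2 ∂ρ := by
  have hmp : MeasurePreserving (fun η : Env d => η p) (law d ρ) ρ := by
    unfold law
    exact measurePreserving_eval_infinitePi (fun _ => ρ) p
  exact ⟨hmp.integrable_comp_of_integrable (int_sq24 hρ),
    LawU_integral hmp (F := fun x : ℝ => x ^ 2) (by fun_prop)⟩

section Rs

variable {Ω : Type} [MeasurableSpace Ω] {P : Measure Ω} [IsProbabilityMeasure P]
  {Θ : Env d → Ω → Env d} {k : ℕ}

lemma mp1_24 (H : Rs24 ρ k P Θ) :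
    MeasurePreserving (fun w : Env d × (Ω × Ω) => Θ w.1 w.2.1)
      ((law d ρ).prod (P.prod P)) (law d ρ) :=
  H.mp.comp ((MeasurePreserving.id (law d ρ)).prod (measurePreserving_fst (μ := P) (ν := P)))

lemma mp2_24 (H : Rs24 ρ k P Θ) :
    MeasurePreserving (fun w : Env d × (Ω × Ω) => Θ w.1 w.2.2)
      ((law d ρ).prod (P.prod P)) (law d ρ) :=
  H.mp.comp ((MeasurePreserving.id (law d ρ)).prod (measurePreserving_snd (μ := P) (ν := P)))

/-- The difference of the free energies from `(0, y)` in the two resampled environments. -/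
noncomputable def Df24 (β : ℝ) (h : Vec d) (n : ℕ) (Θ : Env d → Ω → Env d) (y : Site d)
    (w : Env d × (Ω × Ω)) : ℝ :=
  X β h (sh 0 y (Θ w.1 w.2.1)) n - X β h (sh 0 y (Θ w.1 w.2.2)) n

lemma memDf24 (hd : 0 < d) (hρ : EM ρ) (H : Rs24 ρ k P Θ) (β : ℝ) (h : Vec d) (n : ℕ)
    (y : Site d) : MemLp (Df24 β h n Θ y) 2 ((law d ρ).prod (P.prod P)) :=
  ((memSh24 hd hρ β h n 0 y).comp_measurePreserving (mp1_24 H)).sub
    ((memSh24 hd hρ β h n 0 y).comp_measurePreserving (mp2_24 H))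

/-- The constant of the comparison. -/
noncomputable def Ck24 (d : ℕ) (ρ : Measure ℝ) (β : ℝ) (k : ℕ) : ℝ :=
  4 * β ^ 2 * ((Finset.range (k + 1) ×ˢ boxF d k).card : ℝ) ^ 2 * ∫ x, x ^ 2 ∂ρ

omit [IsProbabilityMeasure ρ] in
lemma Ck_nonneg24 (β : ℝ) (k : ℕ) : 0 ≤ Ck24 d ρ β k := by
  unfold Ck24
  have : 0 ≤ ∫ x, x ^ 2 ∂ρ := integral_nonneg fun x => sq_nonneg x
  positivity

lemma Df_sq24 (hd : 0 < d) (hρ : EM ρ) (H : Rs24 ρ k P Θ) (β : ℝ) (h : Vec d) (n : ℕ)
    (y : Site d) :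
    ∫ w, (Df24 β h n Θ y w) ^ 2 ∂((law d ρ).prod (P.prod P)) ≤ Ck24 d ρ β k := by
  set μW := (law d ρ).prod (P.prod P) with hμW
  set B := Finset.range (k + 1) ×ˢ boxF d k with hB
  set v : ℕ × Site d → ℕ × Site d := fun p => (p.1 + 0, p.2 + y) with hv
  -- pointwise bound
  have hpt : ∀ w : Env d × (Ω × Ω), (Df24 β h n Θ y w) ^ 2 ≤ β ^ 2 * (B.card : ℝ) *
      ∑ p ∈ B, 2 * ((Θ w.1 w.2.1 (v p)) ^ 2 + (Θ w.1 w.2.2 (v p)) ^ 2) := by
    intro w
    have h1 := X_lip_abs24 hd β h n k (η := sh 0 y (Θ w.1 w.2.1)) (η' := sh 0 y (Θ w.1 w.2.2))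
      (fun p hp => by
        unfold sh
        rw [H.row _ _ _ (by simpa using hp), H.row _ _ _ (by simpa using hp)])
    have h2 : (Df24 β h n Θ y w) ^ 2 ≤ (|β| * ∑ p ∈ B, |Θ w.1 w.2.1 (v p) - Θ w.1 w.2.2 (v p)|) ^ 2 := by
      rw [← sq_abs (Df24 β h n Θ y w)]
      exact pow_le_pow_left₀ (abs_nonneg _) h1 2
    refine h2.trans ?_
    rw [mul_pow, sq_abs, mul_assoc]
    refine mul_le_mul_of_nonneg_left ?_ (sq_nonneg _)
    refine (sq_sum_le_card_mul_sum_sq (s := B)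
      (f := fun p => |Θ w.1 w.2.1 (v p) - Θ w.1 w.2.2 (v p)|)).trans ?_
    refine mul_le_mul_of_nonneg_left (Finset.sum_le_sum fun p _ => ?_) (Nat.cast_nonneg _)
    rw [sq_abs]
    nlinarith [sq_nonneg (Θ w.1 w.2.1 (v p) + Θ w.1 w.2.2 (v p))]
  have i1 : ∀ p, Integrable (fun w : Env d × (Ω × Ω) => (Θ w.1 w.2.1 (v p)) ^ 2) μW := fun p =>
    (mp1_24 H).integrable_comp_of_integrable (int_site24 hρ (v p)).1
  have i2 : ∀ p, Integrable (fun w : Env d × (Ω × Ω) => (Θ w.1 w.2.2 (v p)) ^ 2) μW := fun p =>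
    (mp2_24 H).integrable_comp_of_integrable (int_site24 hρ (v p)).1
  have e1 : ∀ p, ∫ w : Env d × (Ω × Ω), (Θ w.1 w.2.1 (v p)) ^ 2 ∂μW = ∫ x, x ^ 2 ∂ρ := fun p => by
    rw [← (int_site24 (d := d) hρ (v p)).2]
    exact LawU_integral (mp1_24 H) (F := fun η : Env d => (η (v p)) ^ 2)
      (int_site24 hρ (v p)).1.aestronglyMeasurable
  have e2 : ∀ p, ∫ w : Env d × (Ω × Ω), (Θ w.1 w.2.2 (v p)) ^ 2 ∂μW = ∫ x, x ^ 2 ∂ρ := fun p => by
    rw [← (int_site24 (d := d) hρ (v p)).2]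
    exact LawU_integral (mp2_24 H) (F := fun η : Env d => (η (v p)) ^ 2)
      (int_site24 hρ (v p)).1.aestronglyMeasurable
  have i3 : ∀ p ∈ B, Integrable (fun w : Env d × (Ω × Ω) =>
      2 * ((Θ w.1 w.2.1 (v p)) ^ 2 + (Θ w.1 w.2.2 (v p)) ^ 2)) μW := fun p _ =>
    ((i1 p).add (i2 p)).const_mul 2
  have h3 := integral_mono_of_nonneg (μ := μW)
    (Eventually.of_forall fun w => sq_nonneg (Df24 β h n Θ y w))
    ((integrable_finsetSum B i3).const_mul (β ^ 2 * (B.card : ℝ)))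
    (Eventually.of_forall hpt)
  refine h3.trans (le_of_eq ?_)
  rw [integral_const_mul, integral_finsetSum B i3]
  have e3 : ∀ p ∈ B, ∫ w : Env d × (Ω × Ω), 2 * ((Θ w.1 w.2.1 (v p)) ^ 2 +
      (Θ w.1 w.2.2 (v p)) ^ 2) ∂μW = 4 * ∫ x, x ^ 2 ∂ρ := by
    intro p _
    rw [integral_const_mul, integral_add (i1 p) (i2 p), e1, e2]
    ring
  rw [Finset.sum_congr rfl e3, Finset.sum_const, nsmul_eq_mul]
  unfold Ck24
  ring

/-- Far columns are uncorrelated. -/
lemma Df_cross24 (H : Rs24 ρ k P Θ) (β : ℝ) (h : Vec d) (n : ℕ)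
    {y z : Site d} (hyz : ∃ c, (2 * k : ℤ) < |z c - y c|) :
    ∫ w, Df24 β h n Θ y w * Df24 β h n Θ z w ∂((law d ρ).prod (P.prod P)) = 0 := by
  obtain ⟨c, hc⟩ := hyz
  obtain ⟨f, hf, hfe⟩ := H.sw {x | x - y ∈ boxF d k}
  have hmp : MeasurePreserving (fun w : Env d × (Ω × Ω) => (w.1, f w.2))
      ((law d ρ).prod (P.prod P)) ((law d ρ).prod (P.prod P)) :=
    (MeasurePreserving.id (law d ρ)).prod hf
  have hm : ∀ y, Measurable (Df24 β h n Θ y) := fun y =>
    (((measurable_X β h n).comp (measurable_sh 0 y)).comp (mp1_24 H).measurable).sub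
      (((measurable_X β h n).comp (measurable_sh 0 y)).comp (mp2_24 H).measurable)
  have h1 := LawU_integral hmp (F := fun w => Df24 β h n Θ y w * Df24 β h n Θ z w)
    ((hm y).mul (hm z)).aestronglyMeasurable
  have hnear : ∀ p : ℕ × Site d, p.2 ∈ boxF d p.1 → p.1 ≤ k →
      p.2 + y ∈ ({x | x - y ∈ boxF d k} : Set (Site d)) := by
    intro p hp hk
    change p.2 + y - y ∈ boxF d k
    rw [add_sub_cancel_right]
    rw [mem_boxF] at hp ⊢
    intro i
    refine (hp i).trans ?_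
    exact_mod_cast hk
  have hfar : ∀ p : ℕ × Site d, p.2 ∈ boxF d p.1 → p.1 ≤ k →
      p.2 + z ∉ ({x | x - y ∈ boxF d k} : Set (Site d)) := by
    intro p hp hk hmem
    change p.2 + z - y ∈ boxF d k at hmem
    rw [mem_boxF] at hp hmem
    have h2 := hp c
    have h3 := hmem c
    have h4 : (p.1 : ℤ) ≤ k := by exact_mod_cast hk
    have h5 : (p.2 + z - y) c = p.2 c + (z c - y c) := by
      simp only [Pi.sub_apply, Pi.add_apply]
      ring
    rw [h5] at h3
    have h6 : |z c - y c| ≤ |p.2 c + (z c - y c)| + |p.2 c| := by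
      have := abs_sub (p.2 c + (z c - y c)) (p.2 c)
      rwa [add_sub_cancel_left] at this
    omega
  have ey : ∀ w : Env d × (Ω × Ω), Df24 β h n Θ y (w.1, f w.2) = -Df24 β h n Θ y w := by
    intro w
    unfold Df24
    have a1 : X β h (sh 0 y (Θ w.1 (f w.2).1)) n = X β h (sh 0 y (Θ w.1 w.2.2)) n := by
      refine X_congr24 β h n fun p hp => ?_
      unfold sh
      by_cases hk : p.1 ≤ k
      · exact ((hfe w.1 w.2 (p.1 + 0, p.2 + y)).1 (hnear p hp hk)).1
      · rw [H.row _ _ _ (by simpa using hk), H.row _ _ _ (by simpa using hk)]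
    have a2 : X β h (sh 0 y (Θ w.1 (f w.2).2)) n = X β h (sh 0 y (Θ w.1 w.2.1)) n := by
      refine X_congr24 β h n fun p hp => ?_
      unfold sh
      by_cases hk : p.1 ≤ k
      · exact ((hfe w.1 w.2 (p.1 + 0, p.2 + y)).1 (hnear p hp hk)).2
      · rw [H.row _ _ _ (by simpa using hk), H.row _ _ _ (by simpa using hk)]
    simp only [a1, a2]
    ring
  have ez : ∀ w : Env d × (Ω × Ω), Df24 β h n Θ z (w.1, f w.2) = Df24 β h n Θ z w := by
    intro w
    unfold Df24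
    have a1 : X β h (sh 0 z (Θ w.1 (f w.2).1)) n = X β h (sh 0 z (Θ w.1 w.2.1)) n := by
      refine X_congr24 β h n fun p hp => ?_
      unfold sh
      by_cases hk : p.1 ≤ k
      · exact ((hfe w.1 w.2 (p.1 + 0, p.2 + z)).2 (hfar p hp hk)).1
      · rw [H.row _ _ _ (by simpa using hk), H.row _ _ _ (by simpa using hk)]
    have a2 : X β h (sh 0 z (Θ w.1 (f w.2).2)) n = X β h (sh 0 z (Θ w.1 w.2.2)) n := by
      refine X_congr24 β h n fun p hp => ?_
      unfold sh
      by_cases hk : p.1 ≤ k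
      · exact ((hfe w.1 w.2 (p.1 + 0, p.2 + z)).2 (hfar p hp hk)).2
      · rw [H.row _ _ _ (by simpa using hk), H.row _ _ _ (by simpa using hk)]
    simp only [a1, a2]
  simp only [ey, ez, neg_mul] at h1
  rw [integral_neg] at h1
  linarith

lemma yy_far24 (hd : 0 < d) (k : ℕ) {i j : ℕ} (hij : i ≠ j) :
    ∃ c, (2 * k : ℤ) < |yy24 hd k j c - yy24 hd k i c| := by
  refine ⟨⟨0, hd⟩, ?_⟩
  unfold yy24
  rw [Pi.single_eq_same, Pi.single_eq_same]
  have h1 : ((j : ℤ) + 1) * (2 * k + 1) - ((i : ℤ) + 1) * (2 * k + 1) =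
      ((j : ℤ) - i) * (2 * k + 1) := by ring
  have h2 : (1 : ℤ) ≤ |(j : ℤ) - i| := by
    refine Int.one_le_abs ?_
    intro h3
    exact hij (by omega)
  rw [h1, abs_mul, abs_of_nonneg (by positivity : (0 : ℤ) ≤ 2 * k + 1)]
  nlinarith

/-- The mean of the differences over `M` far columns. -/
lemma avg_Df24 (hd : 0 < d) (hρ : EM ρ) (H : Rs24 ρ k P Θ) (β : ℝ) (h : Vec d) (n : ℕ) {M : ℕ}
    (hM : 0 < M) :
    ∫ w, |(∑ j ∈ Finset.range M, Df24 β h n Θ (yy24 hd k j) w) / M|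
      ∂((law d ρ).prod (P.prod P)) ≤ Real.sqrt (Ck24 d ρ β k / M) := by
  set μW := (law d ρ).prod (P.prod P) with hμW
  set F : ℕ → Env d × (Ω × Ω) → ℝ := fun j => Df24 β h n Θ (yy24 hd k j) with hF
  have hMr : (0 : ℝ) < M := by exact_mod_cast hM
  have hmem : ∀ j, MemLp (F j) 2 μW := fun j => memDf24 hd hρ H β h n _
  have hS : MemLp (fun w => ∑ j ∈ Finset.range M, F j w) 2 μW :=
    memLp_finsetSum _ fun j _ => hmem j
  have hSq : ∫ w, (∑ j ∈ Finset.range M, F j w) ^ 2 ∂μW ≤ M * Ck24 d ρ β k := by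
    have e1 : ∀ w, (∑ j ∈ Finset.range M, F j w) ^ 2 =
        ∑ i ∈ Finset.range M, ∑ j ∈ Finset.range M, F i w * F j w := by
      intro w
      rw [sq, Finset.sum_mul_sum]
    have hi : ∀ i j, Integrable (fun w => F i w * F j w) μW := fun i j =>
      (hmem i).integrable_mul (hmem j)
    simp only [e1]
    rw [integral_finsetSum _ fun i _ => integrable_finsetSum _ fun j _ => hi i j]
    have e2 : ∀ i ∈ Finset.range M, ∫ w, ∑ j ∈ Finset.range M, F i w * F j w ∂μW ≤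
        Ck24 d ρ β k := by
      intro i hiM
      rw [integral_finsetSum _ fun j _ => hi i j]
      rw [Finset.sum_eq_single_of_mem i hiM fun j _ hji => Df_cross24 H β h n
        (yy_far24 hd k hji.symm)]
      have := Df_sq24 hd hρ H β h n (yy24 hd k i)
      simpa only [sq] using this
    refine (Finset.sum_le_sum e2).trans ?_
    rw [Finset.sum_const, Finset.card_range, nsmul_eq_mul]
  have hi1 : Integrable (fun w => |(∑ j ∈ Finset.range M, F j w) / M|) μW :=
    ((hS.integrable one_le_two).div_const _).abs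
  refine Real.le_sqrt_of_sq_le ?_
  have hSq2 : Integrable (fun w => |(∑ j ∈ Finset.range M, F j w) / M| ^ 2) μW := by
    have := hS.integrable_sq.div_const ((M : ℝ) ^ 2)
    refine this.congr (Eventually.of_forall fun w => ?_)
    simp only [sq_abs]
    ring
  refine (M66.sq_int hi1 hSq2).trans ?_
  have e3 : ∀ w, |(∑ j ∈ Finset.range M, F j w) / M| ^ 2 =
      (∑ j ∈ Finset.range M, F j w) ^ 2 / (M : ℝ) ^ 2 := by
    intro w
    rw [sq_abs, div_pow]
  simp only [e3]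
  rw [integral_div]
  rw [div_le_div_iff₀ (by positivity) hMr]
  calc (∫ w, (∑ j ∈ Finset.range M, F j w) ^ 2 ∂μW) * M ≤ (M * Ck24 d ρ β k) * M :=
        mul_le_mul_of_nonneg_right hSq hMr.le
    _ = Ck24 d ρ β k * (M : ℝ) ^ 2 := by ring

/-- (HR) Two resamplings of the first rows: the free energies differ as little as those of far
columns. -/
theorem hr24 (hd : 0 < d) (hρ : EM ρ) (H : Rs24 ρ k P Θ) (β : ℝ) (h : Vec d) (n : ℕ) {M : ℕ}
    (hM : 0 < M) {s : ℝ}
    (hs : ∀ j < M, ∫ η, |X β h (sh 0 (yy24 hd k j) η) n - X β h η n| ∂(law d ρ) ≤ s) :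
    ∫ w, |X β h (Θ w.1 w.2.1) n - X β h (Θ w.1 w.2.2) n| ∂((law d ρ).prod (P.prod P)) ≤
      2 * s + Real.sqrt (Ck24 d ρ β k / M) := by
  set μW := (law d ρ).prod (P.prod P) with hμW
  have hMr : (0 : ℝ) < M := by exact_mod_cast hM
  set g : Env d → ℝ := fun η => (∑ j ∈ Finset.range M,
    (X β h η n - X β h (sh 0 (yy24 hd k j) η) n)) / M with hg
  have hgi' : ∀ j, Integrable (fun η : Env d => X β h η n - X β h (sh 0 (yy24 hd k j) η) n)
      (law d ρ) := fun j => (intX24 hd hρ β h n).sub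
        ((memSh24 hd hρ β h n 0 _).integrable one_le_two)
  have hgi : Integrable g (law d ρ) :=
    (integrable_finsetSum _ fun j _ => hgi' j).div_const _
  have hgs : ∫ η, |g η| ∂(law d ρ) ≤ s := by
    have h1 : ∀ η, |g η| ≤ (∑ j ∈ Finset.range M,
        |X β h (sh 0 (yy24 hd k j) η) n - X β h η n|) / M := by
      intro η
      rw [hg]
      simp only
      rw [abs_div, abs_of_pos hMr]
      refine div_le_div_of_nonneg_right ?_ hMr.le
      refine (Finset.abs_sum_le_sum_abs _ _).trans (le_of_eq ?_)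
      exact Finset.sum_congr rfl fun j _ => abs_sub_comm _ _
    have hi : ∀ j, Integrable (fun η : Env d => |X β h (sh 0 (yy24 hd k j) η) n - X β h η n|)
        (law d ρ) := fun j => ((hgi' j).abs.congr (Eventually.of_forall fun η => abs_sub_comm _ _))
    have h2 := integral_mono hgi.abs ((integrable_finsetSum (Finset.range M)
      fun j _ => hi j).div_const (M : ℝ)) h1
    refine h2.trans ?_
    rw [integral_div, integral_finsetSum _ fun j _ => hi j, div_le_iff₀ hMr]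
    refine (Finset.sum_le_sum fun j hj => hs j (Finset.mem_range.1 hj)).trans ?_
    rw [Finset.sum_const, Finset.card_range, nsmul_eq_mul, mul_comm]
  have g1 : Integrable (fun w : Env d × (Ω × Ω) => |g (Θ w.1 w.2.1)|) μW :=
    (mp1_24 H).integrable_comp_of_integrable hgi.abs
  have g2 : Integrable (fun w : Env d × (Ω × Ω) => |g (Θ w.1 w.2.2)|) μW :=
    (mp2_24 H).integrable_comp_of_integrable hgi.abs
  have e1 : ∫ w : Env d × (Ω × Ω), |g (Θ w.1 w.2.1)| ∂μW = ∫ η, |g η| ∂(law d ρ) :=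
    LawU_integral (mp1_24 H) (F := fun η => |g η|) hgi.abs.aestronglyMeasurable
  have e2 : ∫ w : Env d × (Ω × Ω), |g (Θ w.1 w.2.2)| ∂μW = ∫ η, |g η| ∂(law d ρ) :=
    LawU_integral (mp2_24 H) (F := fun η => |g η|) hgi.abs.aestronglyMeasurable
  have hav : Integrable (fun w : Env d × (Ω × Ω) =>
      |(∑ j ∈ Finset.range M, Df24 β h n Θ (yy24 hd k j) w) / M|) μW :=
    (((memLp_finsetSum (Finset.range M) fun j _ => memDf24 hd hρ H β h n
      (yy24 hd k j)).integrable one_le_two).div_const _).abs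
  have hpt : ∀ w : Env d × (Ω × Ω), |X β h (Θ w.1 w.2.1) n - X β h (Θ w.1 w.2.2) n| ≤
      |g (Θ w.1 w.2.1)| + |g (Θ w.1 w.2.2)| +
        |(∑ j ∈ Finset.range M, Df24 β h n Θ (yy24 hd k j) w) / M| := by
    intro w
    have e3 : X β h (Θ w.1 w.2.1) n - X β h (Θ w.1 w.2.2) n =
        g (Θ w.1 w.2.1) - g (Θ w.1 w.2.2) +
          (∑ j ∈ Finset.range M, Df24 β h n Θ (yy24 hd k j) w) / M := by
      simp only [hg, Df24, Finset.sum_sub_distrib, Finset.sum_const, Finset.card_range,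
        nsmul_eq_mul]
      field_simp
      ring
    rw [e3]
    refine (abs_add_le _ _).trans (add_le_add (abs_sub _ _) le_rfl)
  have h3 := integral_mono_of_nonneg (μ := μW) (Eventually.of_forall fun w => abs_nonneg _)
    ((g1.add g2).add hav) (Eventually.of_forall hpt)
  refine h3.trans ?_
  have e4 : ∫ w : Env d × (Ω × Ω), (|g (Θ w.1 w.2.1)| + |g (Θ w.1 w.2.2)| +
        |(∑ j ∈ Finset.range M, Df24 β h n Θ (yy24 hd k j) w) / M|) ∂μW =
      ∫ w : Env d × (Ω × Ω), |g (Θ w.1 w.2.1)| ∂μW + ∫ w : Env d × (Ω × Ω), |g (Θ w.1 w.2.2)| ∂μW +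
      ∫ w, |(∑ j ∈ Finset.range M, Df24 β h n Θ (yy24 hd k j) w) / M| ∂μW := by
    have g12 : Integrable (fun w : Env d × (Ω × Ω) => |g (Θ w.1 w.2.1)| + |g (Θ w.1 w.2.2)|) μW :=
      g1.add g2
    rw [integral_add g12 hav, integral_add g1 g2]
  have h5 := avg_Df24 hd hρ H β h n hM
  simp only [Pi.add_apply]
  rw [e4, e1, e2]
  linarith

end Rs

end Pool.Agent.W_7d29a1_NV24
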