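import Pool.Agent.W_7d29a1_Q29.Ce39
import Pool.Agent.W_7d29a1_h46u.ConcV

/-!
Spatial roughness: the free energy under a change of the first rows.
-/

namespace Pool.Agent.W_7d29a1_NV24

open MeasureTheory ProbabilityTheory Filter Topology Pool.Agent.W_MP_7d29a1_pr
  Pool.Agent.W_7d29a1_h46 Pool.Agent.W_7d29a1_h46u Pool.Agent.W_7d29a1_D2.B35
  Pool.Agent.W_7d29a1_Q29

variable {d : ℕ}

lemma abs_vec_le24 (e : Step d) (c : Fin d) : |vec e c| ≤ 1 := by
  unfold vec
  rw [Pi.single_apply]
  split_ifs <;> simp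

lemma pos_box24 {n : ℕ} (s : Fin n → Step d) (i : ℕ) : pos s i ∈ boxF d i := by
  rw [mem_boxF]
  intro c
  unfold pos
  rw [Finset.sum_apply]
  refine (Finset.abs_sum_le_sum_abs _ _).trans ?_
  have h1 : ∀ j : Fin n, |(if (j : ℕ) < i then vec (s j) else 0) c| ≤
      if (j : ℕ) < i then 1 else 0 := by
    intro j
    split_ifs
    · exact abs_vec_le24 _ _
    · simp
  refine (Finset.sum_le_sum fun j _ => h1 j).trans ?_
  rw [Finset.sum_boole]
  have h2 : (Finset.univ.filter fun j : Fin n => (j : ℕ) < i).card ≤ i := by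
    have h3 : ((Finset.univ.filter fun j : Fin n => (j : ℕ) < i).image fun j : Fin n => (j : ℕ)) ⊆
        Finset.range i := by
      intro x hx
      rw [Finset.mem_image] at hx
      obtain ⟨j, hj, rfl⟩ := hx
      exact Finset.mem_range.2 (Finset.mem_filter.1 hj).2
    have h4 := Finset.card_le_card h3
    rwa [Finset.card_image_of_injective _ Fin.val_injective, Finset.card_range] at h4
  exact_mod_cast h2

/-- The free energy depends on the cone of the sites `(t, z)`, `|z| ≤ t`. -/
lemma X_congr24 (β : ℝ) (h : Vec d) (n : ℕ) {η η' : Env d}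
    (hη : ∀ p : ℕ × Site d, p.2 ∈ boxF d p.1 → η p = η' p) : X β h η n = X β h η' n := by
  unfold X
  rw [Z_eq, Z_eq]
  congr 1
  refine Finset.sum_congr rfl fun s _ => ?_
  have h1 : energy η s = energy η' s := by
    unfold energy
    exact Finset.sum_congr rfl fun i _ => hη _ (pos_box24 s _)
  unfold wgt
  rw [h1]

/-- The free energy is a Lipschitz function of the first `k` rows. -/
lemma X_lip24 (hd : 0 < d) (β : ℝ) (h : Vec d) (n k : ℕ) {η η' : Env d}
    (hη : ∀ p : ℕ × Site d, k < p.1 → η p = η' p) :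
    X β h η n ≤ X β h η' n + |β| * ∑ p ∈ Finset.range (k + 1) ×ˢ boxF d k, |η p - η' p| := by
  set D : ℝ := ∑ p ∈ Finset.range (k + 1) ×ˢ boxF d k, |η p - η' p| with hD
  have hE : ∀ s : Fin n → Step d, |energy η s - energy η' s| ≤ D := by
    intro s
    unfold energy
    rw [← Finset.sum_sub_distrib]
    refine (Finset.abs_sum_le_sum_abs _ _).trans ?_
    set φ : Fin n → ℕ × Site d := fun i => ((i : ℕ) + 1, pos s (i + 1)) with hφ
    have hinj : Function.Injective φ := by
      intro i j hij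
      have := congrArg Prod.fst hij
      simp only [hφ] at this
      exact Fin.ext (by omega)
    have e1 : ∑ i : Fin n, |η ((i : ℕ) + 1, pos s (i + 1)) - η' ((i : ℕ) + 1, pos s (i + 1))| =
        ∑ i ∈ Finset.univ.filter (fun i : Fin n => (i : ℕ) + 1 ≤ k), |η (φ i) - η' (φ i)| := by
      rw [Finset.sum_filter]
      refine Finset.sum_congr rfl fun i _ => ?_
      split_ifs with hi
      · rfl
      · rw [hη _ (by simp only; omega)]
        simp
    rw [e1, ← Finset.sum_image (f := fun p => |η p - η' p|) (g := φ)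
      (fun i _ j _ hij => hinj hij)]
    refine Finset.sum_le_sum_of_subset_of_nonneg ?_ fun _ _ _ => abs_nonneg _
    intro p hp
    rw [Finset.mem_image] at hp
    obtain ⟨i, hi, rfl⟩ := hp
    have hi' := (Finset.mem_filter.1 hi).2
    rw [Finset.mem_product]
    refine ⟨Finset.mem_range.2 (by simp only [hφ]; omega), ?_⟩
    have h3 := pos_box24 s ((i : ℕ) + 1)
    rw [mem_boxF] at h3 ⊢
    intro c
    refine (h3 c).trans ?_
    exact_mod_cast hi'
  have hZ : Z β h η n ≤ Z β h η' n * Real.exp (|β| * D) := by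
    rw [Z_eq, Z_eq, Finset.sum_mul]
    refine Finset.sum_le_sum fun s _ => ?_
    unfold wgt
    rw [← Real.exp_add]
    refine Real.exp_le_exp.2 ?_
    have h1 : β * (energy η s - energy η' s) ≤ |β| * D :=
      (le_abs_self _).trans (by
        rw [abs_mul]
        exact mul_le_mul_of_nonneg_left (hE s) (abs_nonneg _))
    nlinarith [h1]
  unfold X
  have h2 := Real.log_le_log (Z_pos hd β h η n) hZ
  rwa [Real.log_mul (Z_pos hd β h η' n).ne' (Real.exp_pos _).ne', Real.log_exp] at h2

lemma X_lip_abs24 (hd : 0 < d) (β : ℝ) (h : Vec d) (n k : ℕ) {η η' : Env d}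
    (hη : ∀ p : ℕ × Site d, k < p.1 → η p = η' p) :
    |X β h η n - X β h η' n| ≤
      |β| * ∑ p ∈ Finset.range (k + 1) ×ˢ boxF d k, |η p - η' p| := by
  rw [abs_le]
  have h1 := X_lip24 hd β h n k hη
  have h2 := X_lip24 hd β h n k (η := η') (η' := η) fun p hp => (hη p hp).symm
  have h3 : ∑ p ∈ Finset.range (k + 1) ×ˢ boxF d k, |η' p - η p| =
      ∑ p ∈ Finset.range (k + 1) ×ˢ boxF d k, |η p - η' p| :=
    Finset.sum_congr rfl fun p _ => abs_sub_comm _ _
  rw [h3] at h2
  constructor <;> linarith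

end Pool.Agent.W_7d29a1_NV24
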