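import Pool.Agent.W_7d29a1_NV24.TrE24

/-!
Spatial roughness: all but a small fraction of the points; the combinatorial part.
-/

set_option autoImplicit false

namespace Pool.Agent.W_7d29a1_NV24

open MeasureTheory ProbabilityTheory Filter Topology Pool.Agent.W_MP_7d29a1_pr
  Pool.Agent.W_7d29a1_h46 Pool.Agent.W_7d29a1_h46u Pool.Agent.W_7d29a1_D2.B35
  Pool.Agent.W_7d29a1_Q29 Pool.Agent.W_7d29a1_NV

variable {d : ℕ}

/-- The sum of the moduli of the coordinates. -/
def n1_24 (y : Site d) : ℕ := ∑ i, (y i).natAbs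

lemma n1_zero24 {y : Site d} (h : n1_24 y = 0) : y = 0 := by
  funext i
  unfold n1_24 at h
  have h1 := (Finset.sum_eq_zero_iff.1 h) i (Finset.mem_univ i)
  simpa using h1

lemma n1_box24 {y : Site d} {r : ℕ} (h : n1_24 y ≤ r) : y ∈ boxF d r := by
  rw [mem_boxF]
  intro i
  have h1 : (y i).natAbs ≤ n1_24 y := Finset.single_le_sum (f := fun i => (y i).natAbs)
    (fun _ _ => Nat.zero_le _) (Finset.mem_univ i)
  rw [Int.abs_eq_natAbs]
  exact_mod_cast h1.trans h

lemma box_n1_24 {y : Site d} {r : ℕ} (h : y ∈ boxF d r) : n1_24 y ≤ d * r := by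
  rw [mem_boxF] at h
  unfold n1_24
  calc ∑ i, (y i).natAbs ≤ ∑ _i : Fin d, r := Finset.sum_le_sum fun i _ => by
        have := h i
        rw [Int.abs_eq_natAbs] at this
        exact_mod_cast this
    _ = d * r := by simp

/-- A site different from the origin has a neighbour closer to the origin. -/
lemma n1_step24 {y : Site d} (hy : y ≠ 0) : ∃ e : Step d, n1_24 (y - vec e) + 1 = n1_24 y := by
  obtain ⟨i, hi⟩ : ∃ i, y i ≠ 0 := by
    by_contra hc
    push Not at hc
    exact hy (funext hc)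
  refine ⟨(i, decide (0 < y i)), ?_⟩
  unfold n1_24
  rw [← Finset.add_sum_erase _ _ (Finset.mem_univ i), ← Finset.add_sum_erase
    (Finset.univ : Finset (Fin d)) (fun j => (y j).natAbs) (Finset.mem_univ i)]
  have h1 : ∑ j ∈ Finset.univ.erase i, ((y - vec ((i, decide (0 < y i)) : Step d)) j).natAbs =
      ∑ j ∈ Finset.univ.erase i, (y j).natAbs := by
    refine Finset.sum_congr rfl fun j hj => ?_
    have h2 : j ≠ i := Finset.ne_of_mem_erase hj
    rw [Pi.sub_apply]
    unfold vec
    simp only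
    rw [Pi.single_eq_of_ne h2, sub_zero]
  rw [h1, Pi.sub_apply]
  unfold vec
  simp only [Pi.single_eq_same, decide_eq_true_eq]
  have h3 : (y i - if 0 < y i then 1 else -1).natAbs + 1 = (y i).natAbs := by
    split_ifs with h4
    · omega
    · omega
  omega

lemma vec_par24 (e : Step d) : Odd (∑ i, vec e i) := by
  have h3 : ∑ i, vec e i = vec e e.1 := by
    refine Finset.sum_eq_single e.1 (fun j _ hj => ?_) (fun h => absurd (Finset.mem_univ _) h)
    unfold vec
    exact Pi.single_eq_of_ne hj _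
  rw [h3]
  unfold vec
  rw [Pi.single_eq_same]
  split_ifs
  · exact odd_one
  · exact ⟨-1, by norm_num⟩

lemma vec_neg24 (e : Step d) : vec ((e.1, !e.2) : Step d) = -vec e := by
  unfold vec
  rw [← Pi.single_neg]
  congr 1
  cases e.2 <;> simp

/-- An even site different from the origin is two steps closer to the origin after an even unit
step. -/
lemma n1_even24 {y : Site d} (hy : y ≠ 0) (hye : Ev24 y) :
    ∃ e e' : Step d, n1_24 (y - (vec e - vec e')) + 2 = n1_24 y ∧
      Ev24 (y - (vec e - vec e')) := by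
  obtain ⟨e, he⟩ := n1_step24 hy
  have h1 : y - vec e ≠ 0 := by
    intro h2
    have h3 : y = vec e := sub_eq_zero.1 h2
    have h4 := vec_par24 e
    rw [← h3] at h4
    exact (Int.not_even_iff_odd.2 h4) hye
  obtain ⟨e2, he2⟩ := n1_step24 h1
  have h5 : y - (vec e - vec ((e2.1, !e2.2) : Step d)) = y - vec e - vec e2 := by
    rw [vec_neg24]
    abel
  refine ⟨e, (e2.1, !e2.2), ?_, ?_⟩
  · rw [h5]
    omega
  · rw [h5]
    unfold Ev24 at *
    simp only [Pi.sub_apply, Finset.sum_sub_distrib]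
    have h6 := vec_par24 e
    have h7 := vec_par24 e2
    obtain ⟨a, ha⟩ := hye
    obtain ⟨b, hb⟩ := h6
    obtain ⟨c, hc⟩ := h7
    exact ⟨a - b - c - 1, by linarith⟩

section Abs

variable {f : Site d → ℝ}

/-- The levels of `f` are attained up to `C`. -/
lemma level24 (hsub : ∀ y z, f y ≤ f z + f (y - z)) (f0 : f 0 = 0) {C : ℝ}
    (hstep : ∀ e e' : Step d, f (vec e - vec e') ≤ C) {c : ℝ} (hc : 0 ≤ c) :
    ∀ (k : ℕ) (y : Site d), n1_24 y ≤ k → Ev24 y → c < f y →
      ∃ x : Site d, Ev24 x ∧ n1_24 x ≤ k ∧ c < f x ∧ f x ≤ c + C := by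
  intro k
  induction k using Nat.strong_induction_on with
  | _ k ih =>
    intro y hk hye hy
    by_cases h1 : f y ≤ c + C
    · exact ⟨y, hye, hk, hy, h1⟩
    · push Not at h1
      have h0 : y ≠ 0 := by
        intro h2
        rw [h2, f0] at hy
        linarith
      obtain ⟨e, e', h2, h3⟩ := n1_even24 h0 hye
      have h4 := hsub y (y - (vec e - vec e'))
      have h5 : y - (y - (vec e - vec e')) = vec e - vec e' := by abel
      rw [h5] at h4
      have h6 := hstep e e'
      obtain ⟨x, hx1, hx2, hx3, hx4⟩ := ih (k - 2) (by omega) (y - (vec e - vec e'))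
        (by omega) h3 (by linarith)
      exact ⟨x, hx1, by omega, hx3, hx4⟩

open Classical in
/-- The set where `f` is small has few points. -/
lemma few24 (hsub : ∀ y z, f y ≤ f z + f (y - z)) (hsym : ∀ y, f (-y) = f y) (f0 : f 0 = 0)
    {C K : ℝ} (hC : 0 ≤ C) (hK : 0 ≤ K) (hstep : ∀ e e' : Step d, f (vec e - vec e') ≤ C)
    {y : Site d} {r N R : ℕ} (hy : n1_24 y ≤ r) (hye : Ev24 y) (hN : N * (2 * K + C) < f y) :
    (N + 1) * ((boxF d R).filter fun z => Ev24 z ∧ f z ≤ K).card ≤ (2 * (R + r) + 1) ^ d := by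
  have hlev : ∀ i : Fin (N + 1), ∃ x : Site d, Ev24 x ∧ n1_24 x ≤ r ∧
      (i : ℕ) * (2 * K + C) < f x ∧ f x ≤ (i : ℕ) * (2 * K + C) + C := by
    intro i
    refine level24 hsub f0 hstep (c := (i : ℕ) * (2 * K + C)) (by positivity) r y hy hye ?_
    refine lt_of_le_of_lt ?_ hN
    refine mul_le_mul_of_nonneg_right ?_ (by positivity)
    exact_mod_cast Nat.lt_succ_iff.1 i.2
  choose p hp1 hp2 hp3 hp4 using hlev
  set B := (boxF d R).filter fun z => Ev24 z ∧ f z ≤ K with hB
  have hfar : ∀ i j : Fin (N + 1), j < i → 2 * K < f (p i - p j) := by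
    intro i j hij
    have h1 := hsub (p i) (p j)
    have h2 := hp3 i
    have h3 := hp4 j
    have h4 : ((j : ℕ) : ℝ) + 1 ≤ (i : ℕ) := by exact_mod_cast hij
    have h5 := mul_le_mul_of_nonneg_right h4 (by positivity : 0 ≤ 2 * K + C)
    nlinarith
  have hfar' : ∀ i j : Fin (N + 1), i ≠ j → 2 * K < f (p i - p j) := by
    intro i j hij
    rcases lt_or_gt_of_ne hij with h1 | h1
    · have h2 := hfar j i h1
      rw [← neg_sub, hsym]
      exact h2
    · exact hfar i j h1
  set T : Fin (N + 1) → Finset (Site d) := fun i => B.image fun z => p i + z with hT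
  have hcardT : ∀ i, (T i).card = B.card := fun i =>
    Finset.card_image_of_injective _ (add_right_injective _)
  have hdisj : ∀ i ∈ (Finset.univ : Finset (Fin (N + 1))), ∀ j ∈ (Finset.univ : Finset _),
      i ≠ j → Disjoint (T i) (T j) := by
    intro i _ j _ hij
    rw [Finset.disjoint_left]
    intro x hx hx'
    obtain ⟨z, hz, hzx⟩ := Finset.mem_image.1 hx
    obtain ⟨z', hz', hzx'⟩ := Finset.mem_image.1 hx'
    rw [hB, Finset.mem_filter] at hz hz'
    have h1 := hfar' i j hij
    have h2 : p i - p j = z' - z := by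
      have h3 : p i + z = p j + z' := hzx.trans hzx'.symm
      have h4 : p i - p j = (p i + z) - p j - z := by abel
      rw [h4, h3]
      abel
    rw [h2] at h1
    have h3 := hsub (z' - z) z'
    have h4 : z' - z - z' = -z := by abel
    rw [h4, hsym] at h3
    linarith [hz.2.2, hz'.2.2]
  have h1 := Finset.card_biUnion hdisj
  have h2 : (Finset.univ.biUnion T) ⊆ boxF d (R + r) := by
    intro x hx
    obtain ⟨i, _, hx⟩ := Finset.mem_biUnion.1 hx
    obtain ⟨z, hz, rfl⟩ := Finset.mem_image.1 hx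
    rw [hB, Finset.mem_filter] at hz
    have h3 := mem_boxF.1 hz.1
    have h4 := mem_boxF.1 (n1_box24 (hp2 i))
    rw [mem_boxF]
    intro c
    rw [Pi.add_apply]
    refine (abs_add_le _ _).trans ?_
    have h5 := h3 c
    have h6 := h4 c
    push_cast
    linarith
  have h3 := Finset.card_le_card h2
  rw [h1, card_boxF] at h3
  rw [Finset.sum_congr rfl fun i _ => hcardT i, Finset.sum_const, Finset.card_univ,
    Fintype.card_fin, smul_eq_mul] at h3
  exact h3

end Abs

end Pool.Agent.W_7d29a1_NV24
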