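import Pool.Agent.W_7d29a1_NV24.Lip24
import Pool.Agent.W_7d29a1_NV.MeasN66

/-!
Spatial roughness: resamplings of the first rows.
-/

namespace Pool.Agent.W_7d29a1_NV24

open MeasureTheory ProbabilityTheory Filter Topology Pool.Agent.W_MP_7d29a1_pr
  Pool.Agent.W_7d29a1_h46 Pool.Agent.W_7d29a1_h46u Pool.Agent.W_7d29a1_D2.B35
  Pool.Agent.W_7d29a1_Q29 Pool.Agent.W_7d29a1_NV Pool.Agent.W_7d29a1_NV.M66

/-- A resampling `Θ η ξ` of sites in the first `k` rows of the environment `η` with the noise `ξ`;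
the noises of two disjoint sets of columns can be exchanged. -/
structure Rs24 {d : ℕ} (ρ : Measure ℝ) (k : ℕ) {Ω : Type} [MeasurableSpace Ω] (P : Measure Ω)
    (Θ : Env d → Ω → Env d) : Prop where
  meas : Measurable fun w : Env d × Ω => Θ w.1 w.2
  mp : MeasurePreserving (fun w : Env d × Ω => Θ w.1 w.2) ((law d ρ).prod P) (law d ρ)
  row : ∀ (η : Env d) (ξ : Ω) (p : ℕ × Site d), k < p.1 → Θ η ξ p = η p
  sw : ∀ S : Set (Site d), ∃ f : Ω × Ω → Ω × Ω, MeasurePreserving f (P.prod P) (P.prod P) ∧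
    ∀ (η : Env d) (w : Ω × Ω) (p : ℕ × Site d),
      (p.2 ∈ S → Θ η (f w).1 p = Θ η w.2 p ∧ Θ η (f w).2 p = Θ η w.1 p) ∧
      (p.2 ∉ S → Θ η (f w).1 p = Θ η w.1 p ∧ Θ η (f w).2 p = Θ η w.2 p)

variable {d : ℕ} {ρ : Measure ℝ}

open Classical in
/-- Two independent families, exchanged on the sites of `S`. -/
lemma mp_swi24 [IsProbabilityMeasure ρ] {ι : Type*} (S : Set ι) :
    MeasurePreserving (fun w : (ι → ℝ) × (ι → ℝ) =>
      ((fun p => if p ∈ S then w.2 p else w.1 p, fun p => if p ∈ S then w.1 p else w.2 p) :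
        (ι → ℝ) × (ι → ℝ)))
      ((Measure.infinitePi fun _ : ι => ρ).prod (Measure.infinitePi fun _ : ι => ρ))
      ((Measure.infinitePi fun _ : ι => ρ).prod (Measure.infinitePi fun _ : ι => ρ)) := by
  set σ : ι ⊕ ι → ι ⊕ ι := fun q => match q with
    | Sum.inl p => if p ∈ S then Sum.inr p else Sum.inl p
    | Sum.inr p => if p ∈ S then Sum.inl p else Sum.inr p with hσ
  have hinj : Function.Injective σ := by
    rintro (p | p) (q | q) h <;> simp only [hσ] at h <;> split_ifs at h <;> simp_all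
  have hT : MeasurePreserving (fun (w : (ι → ℝ) × (ι → ℝ)) (p : ι ⊕ ι) => Sum.elim w.1 w.2 p)
      ((Measure.infinitePi fun _ : ι => ρ).prod (Measure.infinitePi fun _ : ι => ρ))
      (Measure.infinitePi fun _ : ι ⊕ ι => ρ) := ⟨LawU_meas, LawU_map_elim⟩
  have hR := LawU_reindex (ρ := ρ) hinj
  have mT' : Measurable (fun g : ι ⊕ ι → ℝ =>
      ((fun p => g (Sum.inl p), fun p => g (Sum.inr p)) : (ι → ℝ) × (ι → ℝ))) :=
    (measurable_pi_iff.2 fun p => measurable_pi_apply _).prodMk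
      (measurable_pi_iff.2 fun p => measurable_pi_apply _)
  have hT' : MeasurePreserving (fun g : ι ⊕ ι → ℝ =>
      ((fun p => g (Sum.inl p), fun p => g (Sum.inr p)) : (ι → ℝ) × (ι → ℝ)))
      (Measure.infinitePi fun _ : ι ⊕ ι => ρ)
      ((Measure.infinitePi fun _ : ι => ρ).prod (Measure.infinitePi fun _ : ι => ρ)) := by
    refine ⟨mT', ?_⟩
    rw [← hT.map_eq, Measure.map_map mT' hT.measurable]
    exact Measure.map_id
  have h1 := hT'.comp (hR.comp hT)
  have e1 : ((fun g : ι ⊕ ι → ℝ =>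
      ((fun p => g (Sum.inl p), fun p => g (Sum.inr p)) : (ι → ℝ) × (ι → ℝ))) ∘
      ((fun (g : ι ⊕ ι → ℝ) (p : ι ⊕ ι) => g (σ p)) ∘
        (fun (w : (ι → ℝ) × (ι → ℝ)) (p : ι ⊕ ι) => Sum.elim w.1 w.2 p))) =
      fun w : (ι → ℝ) × (ι → ℝ) =>
      ((fun p => if p ∈ S then w.2 p else w.1 p, fun p => if p ∈ S then w.1 p else w.2 p) :
        (ι → ℝ) × (ι → ℝ)) := by
    funext w
    refine Prod.ext ?_ ?_
    · funext p
      by_cases hp : p ∈ S
      · simp [Function.comp, hσ, hp]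
      · simp [Function.comp, hσ, hp]
    · funext p
      by_cases hp : p ∈ S
      · simp [Function.comp, hσ, hp]
      · simp [Function.comp, hσ, hp]
  rw [e1] at h1
  exact h1

/-- Two independent environments, exchanged on the sites of `S`. -/
lemma mp_sw24 [IsProbabilityMeasure ρ] (S : Set (ℕ × Site d)) :
    MeasurePreserving (fun w : Env d × Env d => (spl S w.2 w.1, spl S w.1 w.2))
      ((law d ρ).prod (law d ρ)) ((law d ρ).prod (law d ρ)) := mp_swi24 S

/-- The resampling of all the sites of the first `k` rows. -/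
lemma rs_spl24 [IsProbabilityMeasure ρ] (k : ℕ) :
    Rs24 (d := d) ρ k (law d ρ) (fun η ξ => spl (Pa d k)ᶜ η ξ) where
  meas := measurable_spl _
  mp := mp_spl _
  row := fun η ξ p hp => spl_mem _ _ (show p ∈ (Pa d k)ᶜ from fun h => by
    exact absurd (show p.1 ≤ k from h) (by omega))
  sw := by
    intro S
    refine ⟨fun w => (spl {p | p.2 ∈ S} w.2 w.1, spl {p | p.2 ∈ S} w.1 w.2), mp_sw24 _, ?_⟩
    intro η w p
    constructor
    · intro hp
      by_cases hk : p ∈ (Pa d k)ᶜ
      · simp only [spl_mem _ _ hk, and_self]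
      · simp only [spl_not_mem _ _ hk]
        exact ⟨spl_mem _ _ hp, spl_mem _ _ hp⟩
    · intro hp
      by_cases hk : p ∈ (Pa d k)ᶜ
      · simp only [spl_mem _ _ hk, and_self]
      · simp only [spl_not_mem _ _ hk]
        exact ⟨spl_not_mem _ _ hp, spl_not_mem _ _ hp⟩

/-- The resampling of the bounded sites of the rows `T i`. -/
lemma rs_mxJ24 [IsProbabilityMeasure ρ] {b : ℝ} (hb : HB ρ b) (hW : MixT d ρ b) {q : ℕ}
    {T : Fin q → ℕ} (hT : Function.Injective T) {k : ℕ} (hk : ∀ i, T i ≤ k) :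
    Rs24 (d := d) ρ k (Measure.pi fun _ : Fin q => law d (rb ρ b)) (fun η ξ => mxJ b T η ξ) where
  meas := mxJ_meas b T measurable_fst measurable_snd
  mp := hW q T hT
  row := by
    intro η ξ p hp
    unfold mxJ
    rw [dif_neg]
    rintro ⟨⟨i, hi⟩, _⟩
    have := hk i
    omega
  sw := by
    intro S
    haveI := prob_rb hb
    set P : Measure (Env d) := law d (rb ρ b) with hP
    set g : Env d × Env d → Env d × Env d := fun w =>
      (spl {p | p.2 ∈ S} w.2 w.1, spl {p | p.2 ∈ S} w.1 w.2) with hg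
    have hgm : MeasurePreserving g (P.prod P) (P.prod P) := mp_sw24 _
    have h1 : MeasurePreserving (fun (w : Fin q → Env d × Env d) i => g (w i))
        (Measure.pi fun _ : Fin q => P.prod P) (Measure.pi fun _ : Fin q => P.prod P) :=
      measurePreserving_pi _ _ fun _ => hgm
    have h2 := measurePreserving_arrowProdEquivProdArrow (Env d) (Env d) (Fin q)
      (fun _ => P) (fun _ => P)
    have h3 := h2.comp (h1.comp h2.symm)
    refine ⟨_, h3, ?_⟩
    intro η w p
    have e1 : ∀ i, (((MeasurableEquiv.arrowProdEquivProdArrow (Env d) (Env d) (Fin q)) ∘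
        (fun (w : Fin q → Env d × Env d) i => g (w i)) ∘
        (MeasurableEquiv.arrowProdEquivProdArrow (Env d) (Env d) (Fin q)).symm) w).1 i =
        spl {p | p.2 ∈ S} (w.2 i) (w.1 i) := fun i => rfl
    have e2 : ∀ i, (((MeasurableEquiv.arrowProdEquivProdArrow (Env d) (Env d) (Fin q)) ∘
        (fun (w : Fin q → Env d × Env d) i => g (w i)) ∘
        (MeasurableEquiv.arrowProdEquivProdArrow (Env d) (Env d) (Fin q)).symm) w).2 i =
        spl {p | p.2 ∈ S} (w.1 i) (w.2 i) := fun i => rfl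
    have e3 : ∀ ξ ξ' : Fin q → Env d, (∀ i, ξ i p = ξ' i p) → mxJ b T η ξ p = mxJ b T η ξ' p := by
      intro ξ ξ' hξ
      unfold mxJ
      split_ifs with hh
      · rw [hξ]
      · rfl
    constructor
    · intro hp
      refine ⟨e3 _ _ fun i => ?_, e3 _ _ fun i => ?_⟩
      · rw [e1]
        exact spl_mem _ _ hp
      · rw [e2]
        exact spl_mem _ _ hp
    · intro hp
      refine ⟨e3 _ _ fun i => ?_, e3 _ _ fun i => ?_⟩
      · rw [e1]
        exact spl_not_mem _ _ hp
      · rw [e2]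
        exact spl_not_mem _ _ hp

end Pool.Agent.W_7d29a1_NV24
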