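import Pool.Agent.W_7d29a1_NV24.Tr24
import Pool.Agent.W_7d29a1_NV24.SRe24

/-!
Spatial roughness at the even sites: no hypothesis left, one third of all even points of every large
box, and the transfer to an arbitrary probability space.
-/

set_option autoImplicit false

namespace Pool.Agent.W_7d29a1_NV24

open MeasureTheory ProbabilityTheory Filter Topology Pool.Agent.W_MP_7d29a1_pr
  Pool.Agent.W_7d29a1_h46 Pool.Agent.W_7d29a1_h46u Pool.Agent.W_7d29a1_D2.B35
  Pool.Agent.W_7d29a1_Q29 Pool.Agent.W_7d29a1_NV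

variable {d : ℕ} {ρ : Measure ℝ} [IsProbabilityMeasure ρ]

/-- **Theorem SR**, even sites. In every dimension, for every law, at every tilt of very strong
disorder: for every `K` there are `R` and `n₀` such that for every `n ≥ n₀` some even `y` of the box
of radius `R` has `E |log Z_n (y) - log Z_n (0)| > K`. -/
theorem sreAll24 (hd : 0 < d) (hρ : EM ρ) (hnc : ∀ c : ℝ, ρ {c} ≠ 1) {β : ℝ} (hβ : 0 < β)
    (h : Vec d) (hV : VSD ρ β h) (K : ℝ) :
    ∃ R n₀ : ℕ, ∀ n : ℕ, n₀ ≤ n → ∃ y ∈ boxF d R, Ev24 y ∧ K < sp24 ρ β h n y := by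
  obtain ⟨b, hb⟩ := (eventually_HB21 hnc).exists
  have hE := Eq41.eqT41 (ρ := ρ) hd hβ hb
  have hK := kapTm77 (ρ := ρ) hd hb hE
  have hO := O72.onep72 hb oneT hE (M53.marT53 d) hK
  have hT := twoR24 hd hρ hb oneT twoT6 hE hK (mix96 hb)
  have hC := coreT24 hb hO hT (monT31 hd ρ hb) (varL42 hd hρ hβ.ne' hb)
  exact sre24 hd hρ hb (mix96 hb) hC (mule24 hd hρ β) h hV K

/-- Half of the points of a box are even. -/
lemma card_ev24 (hd : 0 < d) (r : ℕ) [DecidablePred fun y : Site d => Ev24 y] :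
    (2 * r + 1) ^ d ≤ 2 * ((boxF d r).filter fun y => Ev24 y).card + (2 * r + 1) ^ (d - 1) := by
  classical
  obtain ⟨e, rfl⟩ : ∃ e, d = e + 1 := ⟨d - 1, by omega⟩
  set c : Fin (e + 1) := ⟨0, hd⟩ with hc
  set E := (boxF (e + 1) r).filter fun y => Ev24 y with hE
  set O := (boxF (e + 1) r).filter fun y => ¬ Ev24 y with hO
  have h1 : E.card + O.card = (2 * r + 1) ^ (e + 1) := by
    rw [← card_boxF, hE, hO]
    exact Finset.card_filter_add_card_filter_not _
  -- the odd points with `y c < r` are moved to even points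
  set O' := O.filter fun y => y c < (r : ℤ) with hO'
  have h2 : O'.card ≤ E.card := by
    refine Finset.card_le_card_of_injOn (fun y => y + Pi.single c 1) ?_ ?_
    · intro y hy
      rw [Finset.mem_coe, hO', Finset.mem_filter, hO, Finset.mem_filter] at hy
      obtain ⟨⟨hy1, hy2⟩, hy3⟩ := hy
      rw [Finset.mem_coe, hE, Finset.mem_filter]
      constructor
      · rw [mem_boxF] at hy1 ⊢
        intro i
        beta_reduce
        rw [Pi.add_apply, Pi.single_apply]
        have h3 := abs_le.1 (hy1 i)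
        split_ifs with hi
        · rw [hi] at h3 ⊢
          rw [abs_le]
          constructor <;> linarith
        · rw [add_zero]
          exact hy1 i
      · unfold Ev24 at hy2 ⊢
        simp only [Pi.add_apply, Finset.sum_add_distrib]
        have h3 : ∑ i, (Pi.single c (1 : ℤ) : Fin (e + 1) → ℤ) i = 1 := by
          rw [Finset.sum_pi_single']
          simp
        rw [h3]
        exact (Int.not_even_iff_odd.1 hy2).add_odd odd_one
    · intro y _ y' _ h3
      exact add_right_cancel h3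
  set O'' := O.filter fun y => ¬ y c < (r : ℤ) with hO''
  have h3 : O'.card + O''.card = O.card := Finset.card_filter_add_card_filter_not _
  have h4 : O''.card ≤ (2 * r + 1) ^ e := by
    rw [← card_boxF (d := e) r]
    refine Finset.card_le_card_of_injOn (fun y i => y (c.succAbove i)) ?_ ?_
    · intro y hy
      rw [Finset.mem_coe, hO'', Finset.mem_filter, hO, Finset.mem_filter, mem_boxF] at hy
      rw [Finset.mem_coe, mem_boxF]
      intro i
      exact hy.1.1 _
    · intro y hy y' hy' h5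
      rw [Finset.mem_coe, hO'', Finset.mem_filter, hO, Finset.mem_filter, mem_boxF] at hy hy'
      funext i
      rcases Fin.eq_self_or_eq_succAbove c i with h6 | ⟨j, h6⟩
      · have h7 := abs_le.1 (hy.1.1 c)
        have h8 := abs_le.1 (hy'.1.1 c)
        have h9 := hy.2
        have h10 := hy'.2
        rw [h6]
        omega
      · rw [h6]
        exact congrFun h5 j
  have h5 : e + 1 - 1 = e := rfl
  rw [h5]
  omega

lemma box_bigE24 (hd : 0 < d) (r : ℕ) : ∃ R₀ : ℕ, ∀ R, R₀ ≤ R →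
    2 * (2 * R + 1) ^ d + 3 * (2 * (R - r) + 1) ^ (d - 1) ≤ 3 * (2 * (R - r) + 1) ^ d ∧
      r ≤ R := by
  refine ⟨max (6 * d * r + r) (r + 2), fun R hR => ?_⟩
  have hR1 := (le_max_left _ _).trans hR
  have hR2 := (le_max_right _ _).trans hR
  have hr : r ≤ R := by omega
  refine ⟨?_, hr⟩
  have h0 : (0 : ℝ) < 2 * R + 1 := by positivity
  obtain ⟨y, hy⟩ : ∃ y, y = 2 * (R - r) + 1 := ⟨_, rfl⟩
  have hy5 : 5 ≤ y := by omega
  have h1 : (y : ℝ) = (2 * R + 1) * (1 + -(2 * r / (2 * R + 1))) := by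
    rw [hy]
    push_cast [Nat.cast_sub hr]
    field_simp
    ring
  have hRr : (6 * d * r + r : ℝ) ≤ R := by exact_mod_cast hR1
  have h2 : (2 * r / (2 * R + 1) : ℝ) ≤ 1 := by
    rw [div_le_one h0]
    have : (r : ℝ) ≤ R := by exact_mod_cast hr
    linarith
  have h3 := one_add_mul_le_pow (a := -(2 * r / (2 * R + 1) : ℝ)) (by linarith) d
  have h4 : (d : ℝ) * (2 * r / (2 * R + 1)) ≤ 1 / 6 := by
    rw [← mul_div_assoc, div_le_iff₀ h0]
    have hr0 : (0 : ℝ) ≤ r := Nat.cast_nonneg r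
    nlinarith
  have h5 : (5 * (2 * R + 1) ^ d : ℝ) ≤ 6 * (y : ℝ) ^ d := by
    rw [h1, mul_pow]
    have h6 : (5 / 6 : ℝ) ≤ (1 + -(2 * r / (2 * R + 1))) ^ d := by
      refine le_trans ?_ h3
      linarith
    have h7 : (0 : ℝ) ≤ (2 * R + 1) ^ d := by positivity
    nlinarith
  have h6 : 5 * (2 * R + 1) ^ d ≤ 6 * y ^ d := by exact_mod_cast h5
  rw [← hy]
  obtain ⟨e, rfl⟩ : ∃ e, d = e + 1 := ⟨d - 1, by omega⟩
  have h7 : e + 1 - 1 = e := rfl
  rw [h7]
  have h8 : y ^ (e + 1) = y ^ e * y := pow_succ _ _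
  have h9 : y ^ e * 5 ≤ y ^ e * y := Nat.mul_le_mul_left _ hy5
  rw [← h8] at h9
  omega

open Classical in
/-- One third of the even points of every large box are rough. -/
theorem sreCnt24 (hd : 0 < d) (hρ : EM ρ) (hnc : ∀ c : ℝ, ρ {c} ≠ 1) {β : ℝ} (hβ : 0 < β)
    (h : Vec d) (hV : VSD ρ β h) (K : ℝ) :
    ∃ R₀ n₀ : ℕ, ∀ R n : ℕ, R₀ ≤ R → n₀ ≤ n →
      (2 * R + 1) ^ d ≤ 6 * ((boxF d R).filter fun y => Ev24 y ∧ K < sp24 ρ β h n y).card := by
  obtain ⟨r, n₀, H⟩ := sreAll24 hd hρ hnc hβ h hV (2 * K)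
  obtain ⟨R₀, hR₀⟩ := box_bigE24 hd r
  refine ⟨R₀, n₀, fun R n hR hn => ?_⟩
  obtain ⟨y, hy, hye, hK⟩ := H n hn
  obtain ⟨h1, h2⟩ := hR₀ R hR
  set G := (boxF d R).filter fun y => Ev24 y ∧ K < sp24 ρ β h n y with hG
  have hsub : ((boxF d (R - r)).filter fun z => Ev24 z) ⊆ G ∪ G.image (fun z => y - z) := by
    intro z hz
    rw [Finset.mem_filter] at hz
    obtain ⟨hz, hze⟩ := hz
    rw [mem_boxF] at hz hy
    have hz1 : z ∈ boxF d R := by
      rw [mem_boxF]
      intro i
      refine (hz i).trans ?_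
      exact_mod_cast Nat.sub_le R r
    have hz2 : y - z ∈ boxF d R := by
      rw [mem_boxF]
      intro i
      have h3 := abs_sub (y i) (z i)
      have h4 := hz i
      have h5 := hy i
      rw [Pi.sub_apply]
      have h6 : ((R - r : ℕ) : ℤ) = (R : ℤ) - r := by
        rw [Nat.cast_sub h2]
      rw [h6] at h4
      linarith
    have h7 := sp_tri24 hd hρ β h n y z
    rw [Finset.mem_union]
    by_cases h8 : K < sp24 ρ β h n z
    · exact Or.inl (Finset.mem_filter.2 ⟨hz1, hze, h8⟩)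
    · refine Or.inr (Finset.mem_image.2 ⟨y - z, Finset.mem_filter.2 ⟨hz2, ev_sub24 hye hze, ?_⟩, ?_⟩)
      · push Not at h8
        linarith
      · simp
  have h3 := Finset.card_le_card hsub
  have h4 := Finset.card_union_le G (G.image (fun z => y - z))
  have h5 := Finset.card_image_le (s := G) (f := fun z => y - z)
  have h6 := card_ev24 hd (R - r)
  omega

open Classical in
/-- **Theorem SR**, even sites, on an arbitrary probability space. -/
theorem sreTr24 {Ω : Type*} [MeasurableSpace Ω] {μ : Measure Ω} [IsProbabilityMeasure μ]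
    {ω : ℕ × Site d → Ω → ℝ} (hd : 0 < d) (hω : IID μ ρ ω) (hρ : EM ρ)
    (hnc : ∀ c : ℝ, ρ {c} ≠ 1) {β : ℝ} (hβ : 0 < β) (h : Vec d) (hV : VSD ρ β h) (K : ℝ) :
    ∃ R₀ n₀ : ℕ, ∀ R n : ℕ, R₀ ≤ R → n₀ ≤ n →
      (2 * R + 1) ^ d ≤ 6 * {y : Site d | (∀ i, |y i| ≤ R) ∧ Even (∑ i, y i) ∧
        K < ∫ x, |Real.log (Zn β h (fun p => ω (p.1, p.2 + y) x) n) -
          Real.log (Zn β h (fun p => ω p x) n)| ∂μ}.ncard := by
  obtain ⟨R₀, n₀, H⟩ := sreCnt24 hd hρ hnc hβ h hV K
  refine ⟨R₀, n₀, fun R n hR hn => ?_⟩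
  have key : ∀ y : Site d, ∫ x, |Real.log (Zn β h (fun p => ω (p.1, p.2 + y) x) n) -
      Real.log (Zn β h (fun p => ω p x) n)| ∂μ = sp24 ρ β h n y := by
    intro y
    have m1 : Measurable fun η : Env d => |X β h (sh 0 y η) n - X β h η n| :=
      measurable_norm.comp (((measurable_X β h n).comp (measurable_sh 0 y)).sub
        (measurable_X β h n))
    unfold sp24
    rw [← StrA_int hω m1]
    refine integral_congr_ae (Filter.Eventually.of_forall fun x => ?_)
    have e1 : (fun p : ℕ × Site d => ω (p.1, p.2 + y) x) = sh 0 y (fun p => ω p x) := rfl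
    simp only [e1, StrA_log hd]
    congr 1
    ring
  have e2 : {y : Site d | (∀ i, |y i| ≤ R) ∧ Even (∑ i, y i) ∧
        K < ∫ x, |Real.log (Zn β h (fun p => ω (p.1, p.2 + y) x) n) -
          Real.log (Zn β h (fun p => ω p x) n)| ∂μ} =
      (((boxF d R).filter fun y => Ev24 y ∧ K < sp24 ρ β h n y : Finset (Site d)) :
        Set (Site d)) := by
    ext y
    rw [Finset.mem_coe, Finset.mem_filter, mem_boxF, Set.mem_ofPred_eq, key]
    rfl
  rw [e2, Set.ncard_coe_finset]
  exact H R n hR hn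

end Pool.Agent.W_7d29a1_NV24
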