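import Pool.Agent.W_7d29a1_NV24.HR24

/-!
Spatial roughness: `TwoT` for the polymer, in terms of the resampled rows (the proof is that of
`W_7d29a1_NV/TwoP66.lean`).
-/

namespace Pool.Agent.W_7d29a1_NV24

open MeasureTheory ProbabilityTheory Filter Topology Pool.Agent.W_MP_7d29a1_pr
  Pool.Agent.W_7d29a1_h46 Pool.Agent.W_7d29a1_h46u Pool.Agent.W_7d29a1_D2.B35
  Pool.Agent.W_7d29a1_Q29 Pool.Agent.W_7d29a1_NV Pool.Agent.W_7d29a1_NV.M66

/-- The mean of the distance of the free energies with two resamplings of the rows `T i`. -/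
noncomputable def rsd24 {d : ℕ} (ρ : Measure ℝ) (β b : ℝ) (h : Vec d) (n : ℕ) {k : ℕ}
    (T : Fin k → ℕ) : ℝ :=
  ∫ w : Env d × ((Fin k → Env d) × (Fin k → Env d)),
    |X β h (mxJ b T w.1 w.2.1) n - X β h (mxJ b T w.1 w.2.2) n|
      ∂((law d ρ).prod ((Measure.pi fun _ => law d (rb ρ b)).prod
        (Measure.pi fun _ => law d (rb ρ b))))

/-- `TwoT` for the polymer. -/
def TwoR24 (d : ℕ) (ρ : Measure ℝ) (β b : ℝ) : Prop :=
  ∀ (h : Vec d) (n k : ℕ) (T : Fin k → ℕ) (r : Fin (k + 1) → ℕ), Ord n T r →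
  (∑ i : Fin k, vap ρ β b h n (T i) (r i.castSucc) (r i.succ)) /
      (2 * Bc β b * Real.sqrt (k + 1)) ≤
    rsd24 ρ β b h n T + ∑ i : Fin k, kap ρ β b h n (T i) (r i.castSucc) (r i.succ) +
      (2 * Bc β b * k + 1) *
        Real.sqrt (2 * ∑ i : Fin k, kap ρ β b h n (T i) (r i.castSucc) (r i.succ))

variable {d : ℕ} {ρ : Measure ℝ} [IsProbabilityMeasure ρ] {β b : ℝ}

/-- `TwoT` for the polymer, with the resampled rows. -/
theorem twoR24 (hd : 0 < d) (hρ : EM ρ) (hb : HB ρ b) (h1 : OneT) (h2 : TwoT)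
    (hE : EqT d ρ β b) (hK : KapT d ρ β b) (hW : MixT d ρ b) : TwoR24 d ρ β b := by
  intro h n k T r hO
  haveI := prob_rb hb
  have hB := one_le_Bc hb β
  set B : ℝ := Bc β b with hBdef
  set P : Measure (Env d) := law d (rb ρ b) with hP
  set Pk : Measure (Fin k → Env d) := Measure.pi fun _ => P with hPk
  set V : Env d → ℝ := fun η => ∑ i, ∫ ω, ∑ s, prT (Qsp ρ β b h n T r η) (usp ρ β b h n T r η) ω s *
      vaT P (usp ρ β b h n T r η) i s ∂Pk with hV
  set I : Env d → ℝ := fun η => ∫ ω, ∫ ω', |Real.log (dT (Qsp ρ β b h n T r η)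
      (usp ρ β b h n T r η) ω) - Real.log (dT (Qsp ρ β b h n T r η) (usp ρ β b h n T r η) ω')|
      ∂Pk ∂Pk with hI
  set κ : Env d → ℝ := fun η => ∑ i, kaT P (Qsp ρ β b h n T r η) (usp ρ β b h n T r η) i with hκ
  have hpt : ∀ η, V η / (2 * B * Real.sqrt (k + 1)) ≤
      I η + κ η + (2 * B * k + 1) * Real.sqrt (2 * κ η) := fun η =>
    h2 (Env d) (Sp d n k) k P _ _ B hB (hE h n k T r hO η).1
  -- measurability and bounds
  have mv : ∀ i, Measurable fun η => ∫ ω, ∑ s, prT (Qsp ρ β b h n T r η)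
      (usp ρ β b h n T r η) ω s * vaT P (usp ρ β b h n T r η) i s ∂Pk := by
    intro i
    have h3 : Measurable fun w : Env d × (Fin k → Env d) => ∑ s, prT (Qsp ρ β b h n T r w.1)
        (usp ρ β b h n T r w.1) w.2 s * vaT P (usp ρ β b h n T r w.1) i s :=
      Finset.measurable_sum _ fun s _ =>
        (prT_meas ρ β b h n T r s measurable_fst measurable_snd).mul
          ((vaT_meas hb β h n T r i s).comp measurable_fst)
    exact (h3.stronglyMeasurable.integral_prod_right (ν := Pk)).measurable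
  have bv : ∀ i η, |∫ ω, ∑ s, prT (Qsp ρ β b h n T r η)
      (usp ρ β b h n T r η) ω s * vaT P (usp ρ β b h n T r η) i s ∂Pk| ≤ 4 * B ^ 2 := by
    intro i η
    have H := (hE h n k T r hO η).1
    have h3 := norm_integral_le_of_norm_le_const (μ := Pk)
      (f := fun ω => ∑ s, prT (Qsp ρ β b h n T r η) (usp ρ β b h n T r η) ω s *
        vaT P (usp ρ β b h n T r η) i s) (C := 4 * B ^ 2)
      (Eventually.of_forall fun ω => sum_pr_le H ω fun s => by
        rw [abs_of_nonneg (vaT_bd H i s).1]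
        exact (vaT_bd H i s).2)
    simpa using h3
  have iv : ∀ i, Integrable (fun η => ∫ ω, ∑ s, prT (Qsp ρ β b h n T r η)
      (usp ρ β b h n T r η) ω s * vaT P (usp ρ β b h n T r η) i s ∂Pk) (law d ρ) := fun i =>
    Integrable.mono' (integrable_const _) (mv i).aestronglyMeasurable
      (Eventually.of_forall fun η => bv i η)
  have iV : Integrable V (law d ρ) := integrable_finsetSum _ fun i _ => iv i
  have ik : ∀ i, Integrable (fun η => kaT P (Qsp ρ β b h n T r η) (usp ρ β b h n T r η) i)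
      (law d ρ) := fun i =>
    Integrable.mono' (integrable_const (2 * B)) (kaT_meas hb β h n T r i).aestronglyMeasurable
      (Eventually.of_forall fun η => kaT_bd (hE h n k T r hO η).1 i)
  have iκ : Integrable κ (law d ρ) := integrable_finsetSum _ fun i _ => ik i
  have κ0 : ∀ η, 0 ≤ κ η := fun η => Finset.sum_nonneg fun i _ =>
    kaT_nonneg h1 hB (hE h n k T r hO η).1 i
  have κm : Measurable κ := Finset.measurable_sum _ fun i _ => kaT_meas hb β h n T r i
  have κb : ∀ η, κ η ≤ 2 * B * k := by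
    intro η
    calc κ η ≤ ∑ _i : Fin k, 2 * B := Finset.sum_le_sum fun i _ =>
          (le_abs_self _).trans (kaT_bd (hE h n k T r hO η).1 i)
      _ = 2 * B * k := by
          rw [Finset.sum_const, Finset.card_univ, Fintype.card_fin, nsmul_eq_mul]
          ring
  have is : Integrable (fun η => Real.sqrt (2 * κ η)) (law d ρ) := by
    refine Integrable.mono' (integrable_const (Real.sqrt (2 * (2 * B * k))))
      (κm.const_mul 2).sqrt.aestronglyMeasurable (Eventually.of_forall fun η => ?_)
    rw [Real.norm_eq_abs, abs_of_nonneg (Real.sqrt_nonneg _)]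
    exact Real.sqrt_le_sqrt (by linarith [κb η])
  have mI : Measurable I := by
    have h3 : Measurable fun w : (Env d × (Fin k → Env d)) × (Fin k → Env d) =>
        |Real.log (dT (Qsp ρ β b h n T r w.1.1) (usp ρ β b h n T r w.1.1) w.1.2) -
        Real.log (dT (Qsp ρ β b h n T r w.1.1) (usp ρ β b h n T r w.1.1) w.2)| :=
      measurable_norm.comp ((Real.measurable_log.comp (dT_meas ρ β b h n T r
        (measurable_fst.comp measurable_fst) (measurable_snd.comp measurable_fst))).sub
        (Real.measurable_log.comp (dT_meas ρ β b h n T r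
        (measurable_fst.comp measurable_fst) measurable_snd)))
    have h4 := (h3.stronglyMeasurable.integral_prod_right' (ν := Pk))
    exact (h4.integral_prod_right' (ν := Pk)).measurable
  have bI : ∀ η, |I η| ≤ 2 * (B * k) := by
    intro η
    have H := (hE h n k T r hO η).1
    have h3 : ∀ ω ω' : Fin k → Env d, |Real.log (dT (Qsp ρ β b h n T r η)
        (usp ρ β b h n T r η) ω) - Real.log (dT (Qsp ρ β b h n T r η) (usp ρ β b h n T r η) ω')| ≤
        2 * (B * k) := by
      intro ω ω'
      refine (abs_sub _ _).trans ?_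
      linarith [log_dT H ω, log_dT H ω']
    have h4 : ∀ ω, |∫ ω', |Real.log (dT (Qsp ρ β b h n T r η)
        (usp ρ β b h n T r η) ω) - Real.log (dT (Qsp ρ β b h n T r η) (usp ρ β b h n T r η) ω')|
        ∂Pk| ≤ 2 * (B * k) := by
      intro ω
      have h5 := norm_integral_le_of_norm_le_const (μ := Pk) (f := fun ω' =>
        |Real.log (dT (Qsp ρ β b h n T r η) (usp ρ β b h n T r η) ω) -
          Real.log (dT (Qsp ρ β b h n T r η) (usp ρ β b h n T r η) ω')|) (C := 2 * (B * k))
        (Eventually.of_forall fun ω' => by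
          rw [Real.norm_eq_abs, abs_abs]
          exact h3 ω ω')
      simpa using h5
    have h6 := norm_integral_le_of_norm_le_const (μ := Pk) (f := fun ω => ∫ ω',
        |Real.log (dT (Qsp ρ β b h n T r η) (usp ρ β b h n T r η) ω) -
          Real.log (dT (Qsp ρ β b h n T r η) (usp ρ β b h n T r η) ω')| ∂Pk) (C := 2 * (B * k))
        (Eventually.of_forall fun ω => h4 ω)
    simpa [hI] using h6
  have iI : Integrable I (law d ρ) := Integrable.mono' (integrable_const _)
    mI.aestronglyMeasurable (Eventually.of_forall bI)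
  have iIκ : Integrable (fun η => I η + κ η) (law d ρ) := iI.add iκ
  -- integrate
  have h3 := integral_mono (iV.div_const _) (iIκ.add (is.const_mul (2 * B * k + 1))) hpt
  have eV : ∫ η, V η / (2 * B * Real.sqrt (k + 1)) ∂(law d ρ) =
      (∑ i : Fin k, vap ρ β b h n (T i) (r i.castSucc) (r i.succ)) /
        (2 * B * Real.sqrt (k + 1)) := by
    rw [integral_div]
    congr 1
    rw [hV, integral_finsetSum _ fun i _ => iv i]
    exact Finset.sum_congr rfl fun i _ => (hK h n k T r hO i).2.2
  have eκ : ∫ η, κ η ∂(law d ρ) =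
      ∑ i : Fin k, kap ρ β b h n (T i) (r i.castSucc) (r i.succ) := by
    rw [hκ, integral_finsetSum _ fun i _ => ik i]
    exact Finset.sum_congr rfl fun i _ => (hK h n k T r hO i).1
  have eR : ∫ η, (I η + κ η + (2 * B * k + 1) * Real.sqrt (2 * κ η)) ∂(law d ρ) =
      ∫ η, I η ∂(law d ρ) + ∫ η, κ η ∂(law d ρ) +
        (2 * B * k + 1) * ∫ η, Real.sqrt (2 * κ η) ∂(law d ρ) := by
    rw [integral_add iIκ (is.const_mul _), integral_add iI iκ, integral_const_mul]
  have hs : ∫ η, Real.sqrt (2 * κ η) ∂(law d ρ) ≤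
      Real.sqrt (2 * ∑ i : Fin k, kap ρ β b h n (T i) (r i.castSucc) (r i.succ)) := by
    refine Real.le_sqrt_of_sq_le ?_
    have e4 : ∀ η, Real.sqrt (2 * κ η) ^ 2 = 2 * κ η := fun η =>
      Real.sq_sqrt (by linarith [κ0 η])
    have i4 : Integrable (fun η => Real.sqrt (2 * κ η) ^ 2) (law d ρ) := by
      simp only [e4]
      exact iκ.const_mul 2
    refine (sq_int is i4).trans (le_of_eq ?_)
    simp only [e4]
    rw [integral_const_mul, eκ]
  have hd' : ∫ η, I η ∂(law d ρ) = ∫ w : Env d × ((Fin k → Env d) × (Fin k → Env d)),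
      |X β h (mxJ b T w.1 w.2.1) n - X β h (mxJ b T w.1 w.2.2) n| ∂((law d ρ).prod (Pk.prod Pk)) := by
    have H := rs_mxJ24 (d := d) hb hW (ord_inj hO) (k := n) fun i =>
      (hO.1 i).2.trans (((Fin.strictMono_iff_lt_succ.2 fun i =>
        (hO.1 i).1.trans_le (hO.1 i).2).monotone (Fin.le_last _)).trans hO.2)
    have i1 : Integrable (fun w : Env d × ((Fin k → Env d) × (Fin k → Env d)) =>
        |X β h (mxJ b T w.1 w.2.1) n - X β h (mxJ b T w.1 w.2.2) n|)
        ((law d ρ).prod (Pk.prod Pk)) :=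
      (((mp1_24 H).integrable_comp_of_integrable (intX24 hd hρ β h n)).sub
        ((mp2_24 H).integrable_comp_of_integrable (intX24 hd hρ β h n))).abs
    rw [integral_prod _ i1]
    refine integral_congr_ae (Eventually.of_forall fun η => ?_)
    have HT1 := (hE h n k T r hO η).1
    have e5 : ∀ w : (Fin k → Env d) × (Fin k → Env d),
        |X β h (mxJ b T η w.1) n - X β h (mxJ b T η w.2) n| =
        |Real.log (dT (Qsp ρ β b h n T r η) (usp ρ β b h n T r η) w.1) -
          Real.log (dT (Qsp ρ β b h n T r η) (usp ρ β b h n T r η) w.2)| := by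
      intro w
      rw [((hE h n k T r hO η).2 w.1).2, ((hE h n k T r hO η).2 w.2).2]
      congr 1
      ring
    simp only [e5]
    have i2 : Integrable (fun w : (Fin k → Env d) × (Fin k → Env d) =>
        |Real.log (dT (Qsp ρ β b h n T r η) (usp ρ β b h n T r η) w.1) -
          Real.log (dT (Qsp ρ β b h n T r η) (usp ρ β b h n T r η) w.2)|) (Pk.prod Pk) := by
      refine Integrable.mono' (integrable_const (2 * (B * k))) ?_
        (Eventually.of_forall fun w => ?_)
      · exact (measurable_norm.comp ((Real.measurable_log.comp (dT_meas ρ β b h n T r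
          measurable_const measurable_fst)).sub (Real.measurable_log.comp
          (dT_meas ρ β b h n T r measurable_const measurable_snd)))).aestronglyMeasurable
      · rw [Real.norm_eq_abs, abs_abs]
        refine (abs_sub _ _).trans ?_
        linarith [log_dT HT1 w.1, log_dT HT1 w.2]
    rw [integral_prod _ i2]
  have hk : 0 ≤ 2 * B * k + 1 := by positivity
  calc (∑ i : Fin k, vap ρ β b h n (T i) (r i.castSucc) (r i.succ)) /
        (2 * B * Real.sqrt (k + 1)) = ∫ η, V η / (2 * B * Real.sqrt (k + 1)) ∂(law d ρ) := eV.symm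
    _ ≤ ∫ η, (I η + κ η + (2 * B * k + 1) * Real.sqrt (2 * κ η)) ∂(law d ρ) := h3
    _ = ∫ η, I η ∂(law d ρ) + ∑ i : Fin k, kap ρ β b h n (T i) (r i.castSucc) (r i.succ) +
        (2 * B * k + 1) * ∫ η, Real.sqrt (2 * κ η) ∂(law d ρ) := by rw [eR, eκ]
    _ ≤ _ := add_le_add (add_le_add hd'.le le_rfl) (mul_le_mul_of_nonneg_left hs hk)


end Pool.Agent.W_7d29a1_NV24
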